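import Mathlib

/-! Brill-Noether loci and Castelnuovo bound, part BnA: this file joins several modules to save build time. -/

section S_BN_Defs

/-!
# Curves over `ℂ` as function fields; points, divisors, `ℓ(D)`, genus, `g^r_d`

Smooth irreducible projective curves over `ℂ` correspond to finitely generated field extensions
`F / ℂ` of transcendence degree one; the closed points of the curve are the normalised discrete
valuations of `F` which are trivial on `ℂ`.
-/

namespace Pool.H29.BN

open Polynomial

noncomputable section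

/-- `F` is a function field in one variable over `ℂ`: finitely generated of transcendence
degree one. -/
def IsFF (F : Type) [Field F] [Algebra ℂ F] : Prop :=
  Algebra.EssFiniteType ℂ F ∧ Algebra.trdeg ℂ F = 1

/-- A point of the smooth projective curve with function field `F`: a discrete valuation
`ord : F^* → ℤ`, trivial on `ℂ^*` and surjective (`ord 0 = 0` by convention). -/
@[ext] structure Pt (F : Type) [Field F] [Algebra ℂ F] where
  /-- the order of vanishing -/
  ord : F → ℤ
  ord_zero : ord 0 = 0
  ord_mul : ∀ x y, x ≠ 0 → y ≠ 0 → ord (x * y) = ord x + ord y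
  ord_add : ∀ x y, x ≠ 0 → y ≠ 0 → x + y ≠ 0 → min (ord x) (ord y) ≤ ord (x + y)
  ord_const : ∀ c : ℂ, c ≠ 0 → ord (algebraMap ℂ F c) = 0
  ord_unif : ∃ t, t ≠ 0 ∧ ord t = 1

/-- Divisors. -/
abbrev Dv (F : Type) [Field F] [Algebra ℂ F] : Type := Pt F →₀ ℤ

variable {F : Type} [Field F] [Algebra ℂ F]

/-- The degree of a divisor (all points of a curve over `ℂ` have degree one). -/
def deg (D : Dv F) : ℤ := D.sum fun _ n => n

/-- The Riemann-Roch space `L(D) = {f : f = 0 or div f + D ≥ 0}`. -/
def LL (D : Dv F) : Submodule ℂ F where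
  carrier := {f | f ≠ 0 → ∀ P : Pt F, 0 ≤ P.ord f + D P}
  add_mem' := by
    intro a b ha hb hab P
    by_cases h1 : a = 0
    · subst h1
      rw [zero_add] at hab ⊢
      exact hb hab P
    by_cases h2 : b = 0
    · subst h2
      rw [add_zero] at hab ⊢
      exact ha hab P
    have h3 := P.ord_add a b h1 h2 hab
    have h4 := ha h1 P
    have h5 := hb h2 P
    have h6 := min_le_iff.mp h3
    rcases h6 with h6 | h6 <;> linarith
  zero_mem' := by
    intro h
    exact absurd rfl h
  smul_mem' := by
    intro c f hf hcf P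
    rw [Algebra.smul_def] at hcf ⊢
    have h1 : algebraMap ℂ F c ≠ 0 := left_ne_zero_of_mul hcf
    have h2 : f ≠ 0 := right_ne_zero_of_mul hcf
    have h3 : c ≠ 0 := fun h => h1 (by rw [h, map_zero])
    rw [P.ord_mul _ _ h1 h2, P.ord_const c h3, zero_add]
    exact hf h2 P

/-- `ℓ(D) = dim L(D)` -/
def ell (D : Dv F) : ℕ := Module.finrank ℂ (LL D)

/-- `g` is the genus: `g` is the maximum of `deg D + 1 - ℓ(D)` over all divisors `D`. -/
def IsGenus (F : Type) [Field F] [Algebra ℂ F] (g : ℕ) : Prop :=
  (∀ D : Dv F, deg D + 1 - g ≤ ell D) ∧ ∃ D : Dv F, deg D + 1 - g = ell D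

/-- `F` has a `g^r_d`: a divisor (line bundle) of degree `d` with `ℓ(D) ≥ r + 1`. -/
def HasGrd (F : Type) [Field F] [Algebra ℂ F] (r d : ℕ) : Prop :=
  ∃ D : Dv F, deg D = d ∧ r + 1 ≤ ell D

/-- `F = ℂ(x,y)`, `y² = f(x)` with `f` squarefree of degree `2g+1`. -/
structure Hyp (F : Type) [Field F] [Algebra ℂ F] (g : ℕ) where
  /-- the first coordinate -/
  x : F
  /-- the second coordinate -/
  y : F
  /-- the polynomial -/
  f : ℂ[X]
  deg_f : f.natDegree = 2 * g + 1
  sqf : Squarefree f
  trans : Transcendental ℂ x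
  eqn : y ^ 2 = aeval x f
  rep : ∀ h : F, ∃ p q s : ℂ[X], s ≠ 0 ∧ h * aeval x s = aeval x p + aeval x q * y

end

end Pool.H29.BN

end S_BN_Defs

section S_BN_Ord

/-!
# ORD: elementary properties of points (valuations)

Everything follows from the fields of `Pt` by short arguments.
`ord_aeval_pole`: for `ord x < 0` the leading term dominates (induct on the degree, or `p = C a X^n + q`).
`ord_aeval_zero`: write `p = (X - a)^m * q` with `q.eval a ≠ 0` (`Polynomial.exists_eq_pow_rootMultiplicity_mul_and_not_dvd`),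
`q = C (q.eval a) + (X - a) * r`.
-/

namespace Pool.H29.BN

open Polynomial

noncomputable section

variable {F : Type} [Field F] [Algebra ℂ F]

theorem Pt.ord_one' (P : Pt F) : P.ord 1 = 0 := by
  have h := P.ord_mul 1 1 one_ne_zero one_ne_zero
  rw [mul_one] at h
  linarith

theorem Pt.ord_neg (P : Pt F) (x : F) : P.ord (-x) = P.ord x := by
  by_cases hx : x = 0
  · rw [hx, neg_zero]
  · have h1 : (algebraMap ℂ F (-1)) ≠ 0 := by simp
    have h := P.ord_mul (algebraMap ℂ F (-1)) x h1 hx
    rw [P.ord_const (-1) (by simp), zero_add] at h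
    rw [← h]
    congr 1
    simp

theorem Pt.ord_inv (P : Pt F) (x : F) : P.ord x⁻¹ = - P.ord x := by
  by_cases hx : x = 0
  · rw [hx, inv_zero, P.ord_zero, neg_zero]
  · have h := P.ord_mul x x⁻¹ hx (inv_ne_zero hx)
    rw [mul_inv_cancel₀ hx, P.ord_one'] at h
    linarith

theorem Pt.ord_div (P : Pt F) {x y : F} (hx : x ≠ 0) (hy : y ≠ 0) :
    P.ord (x / y) = P.ord x - P.ord y := by
  rw [div_eq_mul_inv, P.ord_mul _ _ hx (inv_ne_zero hy), P.ord_inv]
  ring

theorem Pt.ord_pow (P : Pt F) (x : F) (n : ℕ) : P.ord (x ^ n) = n * P.ord x := by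
  by_cases hx : x = 0
  · subst hx
    rcases Nat.eq_zero_or_pos n with h | h
    · subst h
      rw [pow_zero, P.ord_one', P.ord_zero]
      simp
    · rw [zero_pow h.ne', P.ord_zero, mul_zero]
  · induction n with
    | zero => rw [pow_zero, P.ord_one']; simp
    | succ n ih =>
      rw [pow_succ, P.ord_mul _ _ (pow_ne_zero _ hx) hx, ih]
      push_cast
      ring

theorem Pt.ord_const_mul (P : Pt F) {c : ℂ} (hc : c ≠ 0) (x : F) :
    P.ord (algebraMap ℂ F c * x) = P.ord x := by
  by_cases hx : x = 0
  · rw [hx, mul_zero]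
  · rw [P.ord_mul _ _ ((_root_.map_ne_zero _).mpr hc) hx, P.ord_const c hc, zero_add]

theorem Pt.ord_add_of_lt (P : Pt F) {x y : F} (hx : x ≠ 0) (hy : y ≠ 0)
    (h : P.ord x < P.ord y) : x + y ≠ 0 ∧ P.ord (x + y) = P.ord x := by
  have hxy : x + y ≠ 0 := by
    intro h0
    have h1 : y = -x := (neg_eq_of_add_eq_zero_right h0).symm
    rw [h1, P.ord_neg] at h
    exact lt_irrefl _ h
  refine ⟨hxy, le_antisymm ?_ ?_⟩
  · by_contra hlt
    push Not at hlt
    have h2 := P.ord_add (x + y) (-y) hxy (neg_ne_zero.mpr hy) (by simpa using hx)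
    rw [add_neg_cancel_right, P.ord_neg] at h2
    rcases min_le_iff.mp h2 with h3 | h3 <;> omega
  · have h2 := P.ord_add x y hx hy hxy
    rwa [min_eq_left h.le] at h2

/-- lower bound for a sum, with conventions for zero -/
theorem Pt.le_ord_add (P : Pt F) {x y : F} (m : ℤ) (hxy : x + y ≠ 0)
    (hx : x ≠ 0 → m ≤ P.ord x) (hy : y ≠ 0 → m ≤ P.ord y) : m ≤ P.ord (x + y) := by
  by_cases h1 : x = 0
  · subst h1
    rw [zero_add] at hxy ⊢
    exact hy hxy
  by_cases h2 : y = 0
  · subst h2
    rw [add_zero] at hxy ⊢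
    exact hx hxy
  exact (le_min (hx h1) (hy h2)).trans (P.ord_add x y h1 h2 hxy)

theorem Pt.ord_aeval_nonneg (P : Pt F) {x : F} (hx : 0 ≤ P.ord x) (p : ℂ[X]) :
    0 ≤ P.ord (aeval x p) := by
  induction p using Polynomial.induction_on' with
  | add p q hp hq =>
    by_cases h0 : aeval x p + aeval x q = 0
    · rw [map_add, h0, P.ord_zero]
    · rw [map_add]
      exact P.le_ord_add 0 h0 (fun _ => hp) (fun _ => hq)
  | monomial n c =>
    rw [aeval_monomial]
    by_cases hc : c = 0
    · rw [hc, map_zero, zero_mul, P.ord_zero]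
    · rw [P.ord_const_mul hc, P.ord_pow]
      positivity

theorem Pt.ord_aeval_pole (P : Pt F) {x : F} (hx : P.ord x < 0) {p : ℂ[X]} (hp : p ≠ 0) :
    aeval x p ≠ 0 ∧ P.ord (aeval x p) = p.natDegree * P.ord x := by
  have hx0 : x ≠ 0 := by
    intro h
    rw [h, P.ord_zero] at hx
    exact lt_irrefl _ hx
  obtain ⟨n, hn⟩ : ∃ n, p.natDegree = n := ⟨_, rfl⟩
  induction n using Nat.strong_induction_on generalizing p with
  | _ n ih =>
    have hc : p.leadingCoeff ≠ 0 := leadingCoeff_ne_zero.mpr hp
    have hsplit : p = monomial p.natDegree p.leadingCoeff + p.eraseLead := by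
      rw [add_comm]
      exact (eraseLead_add_monomial_natDegree_leadingCoeff p).symm
    have hlead : aeval x (monomial p.natDegree p.leadingCoeff) ≠ 0 := by
      rw [aeval_monomial]
      exact mul_ne_zero ((_root_.map_ne_zero _).mpr hc) (pow_ne_zero _ hx0)
    have hlord : P.ord (aeval x (monomial p.natDegree p.leadingCoeff)) =
        p.natDegree * P.ord x := by
      rw [aeval_monomial, P.ord_const_mul hc, P.ord_pow]
    by_cases he : p.eraseLead = 0
    · have hval : aeval x p = aeval x (monomial p.natDegree p.leadingCoeff) := by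
        conv_lhs => rw [hsplit]
        rw [he, add_zero]
      rw [hval]
      exact ⟨hlead, hlord⟩
    · have hlt : p.eraseLead.natDegree < p.natDegree := by
        rcases eraseLead_natDegree_lt_or_eraseLead_eq_zero p with h | h
        · exact h
        · exact absurd h he
      obtain ⟨h1, h2⟩ := ih _ (hn ▸ hlt) he rfl
      have hval : aeval x p = aeval x (monomial p.natDegree p.leadingCoeff) +
          aeval x p.eraseLead := by
        conv_lhs => rw [hsplit]
        rw [map_add]
      have h3 := P.ord_add_of_lt hlead h1 (by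
        rw [hlord, h2]
        have : (p.eraseLead.natDegree : ℤ) < p.natDegree := by exact_mod_cast hlt
        nlinarith)
      rw [hval]
      exact ⟨h3.1, h3.2.trans hlord⟩

theorem Pt.ord_aeval_zero (P : Pt F) {x : F} {a : ℂ} (hx : 0 < P.ord (x - algebraMap ℂ F a))
    {p : ℂ[X]} (hp : p ≠ 0) :
    aeval x p ≠ 0 ∧
      P.ord (aeval x p) = p.rootMultiplicity a * P.ord (x - algebraMap ℂ F a) := by
  have hπ : x - algebraMap ℂ F a ≠ 0 := by
    intro h
    rw [h, P.ord_zero] at hx
    exact lt_irrefl _ hx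
  have hxn : 0 ≤ P.ord x := by
    by_cases hx0 : x = 0
    · rw [hx0, P.ord_zero]
    · have h := P.le_ord_add (x := x - algebraMap ℂ F a) (y := algebraMap ℂ F a) 0
        (by simpa using hx0) (fun _ => hx.le) (fun h => by
          rw [P.ord_const a (fun h0 => h (by rw [h0, map_zero]))])
      simpa using h
  obtain ⟨q, hq, hdvd⟩ := exists_eq_pow_rootMultiplicity_mul_and_not_dvd p hp a
  have hqa : q.eval a ≠ 0 := fun h => hdvd (dvd_iff_isRoot.mpr h)
  obtain ⟨r, hr⟩ : (X - C a) ∣ q - C (q.eval a) := by
    rw [dvd_iff_isRoot, IsRoot.def]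
    simp
  have hqv : aeval x q = algebraMap ℂ F (q.eval a) + (x - algebraMap ℂ F a) * aeval x r := by
    have : q = C (q.eval a) + (X - C a) * r := by rw [← hr]; ring
    conv_lhs => rw [this]
    simp
  have hq1 : aeval x q ≠ 0 ∧ P.ord (aeval x q) = 0 := by
    have hc0 : algebraMap ℂ F (q.eval a) ≠ 0 := (_root_.map_ne_zero _).mpr hqa
    by_cases h0 : (x - algebraMap ℂ F a) * aeval x r = 0
    · rw [hqv, h0, add_zero]
      exact ⟨hc0, P.ord_const _ hqa⟩
    · have h1 := P.ord_add_of_lt hc0 h0 (by
        rw [P.ord_const _ hqa, P.ord_mul _ _ (left_ne_zero_of_mul h0) (right_ne_zero_of_mul h0)]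
        have := P.ord_aeval_nonneg hxn r
        linarith)
      rw [hqv]
      exact ⟨h1.1, h1.2.trans (P.ord_const _ hqa)⟩
  have hval : aeval x p = (x - algebraMap ℂ F a) ^ (p.rootMultiplicity a) * aeval x q := by
    conv_lhs => rw [hq]
    simp
  rw [hval, P.ord_mul _ _ (pow_ne_zero _ hπ) hq1.1, P.ord_pow, hq1.2, add_zero]
  exact ⟨mul_ne_zero (pow_ne_zero _ hπ) hq1.1, rfl⟩

/-- functions with a zero or a pole are transcendental -/
theorem Pt.transcendental (P : Pt F) {x : F} (hx : P.ord x ≠ 0) : Transcendental ℂ x := by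
  intro halg
  have hint : IsIntegral ℂ x := halg.isIntegral
  have h1 : (minpoly ℂ x).degree = 1 :=
    IsAlgClosed.degree_eq_one_of_irreducible ℂ (minpoly.irreducible hint)
  obtain ⟨c, hc⟩ := minpoly.mem_range_of_degree_eq_one ℂ x h1
  apply hx
  rw [← hc]
  by_cases h0 : c = 0
  · rw [h0, map_zero, P.ord_zero]
  · exact P.ord_const c h0

end

end Pool.H29.BN

end S_BN_Ord

section S_BN_Res

/-!
# RES: the residue field of every point is `ℂ`

If `u` is algebraic over `ℂ` it is a constant.  Otherwise let `ord t = 1`.  As the transcendence degree is one,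
`t, u` are algebraically dependent over `ℂ`: there is a polynomial `G ≠ 0` in `T` with coefficients
in `ℂ[U]` with `G(t,u) = 0`; after division by a power of `T` its constant coefficient `G0(U)` is not
zero.  So `G0(u) = - t * (...)` has order `≥ 1` (not zero as `u` is transcendental; elements of
`ℂ[t,u]` have order `≥ 0`).  `G0` is a product of linear factors `U - c` up to a constant, so one of the
`u - c` has positive order.
-/

namespace Pool.H29.BN

open Polynomial

noncomputable section

variable {F : Type} [Field F] [Algebra ℂ F]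

private theorem res_sub_nonneg (P : Pt F) {u : F} (hu : 0 ≤ P.ord u) (c : ℂ) :
    0 ≤ P.ord (u - algebraMap ℂ F c) := by
  have h := P.ord_aeval_nonneg hu (X - C c)
  simpa using h

private theorem res_multiset (P : Pt F) {u : F} (h : ∀ c : ℂ, u ≠ algebraMap ℂ F c)
    (h0 : ∀ c : ℂ, P.ord (u - algebraMap ℂ F c) = 0) (s : Multiset ℂ) :
    (s.map fun c => u - algebraMap ℂ F c).prod ≠ 0 ∧
      P.ord (s.map fun c => u - algebraMap ℂ F c).prod = 0 := by
  induction s using Multiset.induction_on with
  | empty =>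
    rw [Multiset.map_zero, Multiset.prod_zero]
    exact ⟨one_ne_zero, P.ord_one'⟩
  | cons c s ih =>
    have hc : u - algebraMap ℂ F c ≠ 0 := sub_ne_zero.mpr (h c)
    rw [Multiset.map_cons, Multiset.prod_cons, P.ord_mul _ _ hc ih.1, h0, ih.2, add_zero]
    exact ⟨mul_ne_zero hc ih.1, rfl⟩

private theorem res_poly (P : Pt F) {u : F} (h : ∀ c : ℂ, u ≠ algebraMap ℂ F c)
    (h0 : ∀ c : ℂ, P.ord (u - algebraMap ℂ F c) = 0) {p : ℂ[X]} (hp : p ≠ 0) :
    P.ord (aeval u p) = 0 := by
  have h1 := (IsAlgClosed.splits p).eq_prod_roots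
  have h2 : aeval u p = algebraMap ℂ F p.leadingCoeff *
      (p.roots.map fun c => u - algebraMap ℂ F c).prod := by
    conv_lhs => rw [h1]
    rw [map_mul, aeval_C, map_multiset_prod, Multiset.map_map]
    congr 3
    funext c
    simp
  rw [h2, P.ord_const_mul (leadingCoeff_ne_zero.mpr hp)]
  exact (res_multiset P h h0 p.roots).2

theorem Pt.residue (hF : IsFF F) (P : Pt F) (u : F) (hu : 0 ≤ P.ord u) :
    ∃ c : ℂ, u = algebraMap ℂ F c ∨ 0 < P.ord (u - algebraMap ℂ F c) := by
  by_contra hcon
  push Not at hcon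
  have hne : ∀ c : ℂ, u ≠ algebraMap ℂ F c := fun c => (hcon c).1
  have h0 : ∀ c : ℂ, P.ord (u - algebraMap ℂ F c) = 0 := fun c =>
    le_antisymm (hcon c).2 (res_sub_nonneg P hu c)
  -- `u` is transcendental
  have htr : Transcendental ℂ u := by
    intro halg
    have hint : IsIntegral ℂ u := halg.isIntegral
    have h1 : (minpoly ℂ u).degree = 1 :=
      IsAlgClosed.degree_eq_one_of_irreducible ℂ (minpoly.irreducible hint)
    obtain ⟨c, hc⟩ := minpoly.mem_range_of_degree_eq_one ℂ u h1
    exact hne c hc.symm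
  have hai : AlgebraicIndependent ℂ (fun _ : Unit => u) :=
    (algebraicIndependent_unique_type_iff (ι := Unit) (x := fun _ => u)).mpr htr
  have hbas : IsTranscendenceBasis ℂ (fun _ : Unit => u) := by
    apply hai.isTranscendenceBasis_of_trdeg_le
    · rw [hF.2]
      exact Cardinal.one_lt_aleph0
    · rw [hF.2]
      simp
  have hadj : Algebra.adjoin ℂ (Set.range fun _ : Unit => u) = Algebra.adjoin ℂ {u} := by
    congr 1
    ext z
    simp [eq_comm]
  have halg : Algebra.IsAlgebraic (Algebra.adjoin ℂ (Set.range fun _ : Unit => u)) F :=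
    hbas.isAlgebraic
  obtain ⟨t, ht0, ht⟩ := P.ord_unif
  obtain ⟨G, hG0, hG⟩ := (halg.isAlgebraic t).exists_nonzero_coeff_and_aeval_eq_zero
    (mem_nonZeroDivisors_of_ne_zero ht0)
  have hmem : ∀ a : Algebra.adjoin ℂ (Set.range fun _ : Unit => u), ∃ p : ℂ[X],
      (a : F) = aeval u p := by
    intro a
    have h1 : (a : F) ∈ Algebra.adjoin ℂ {u} := hadj ▸ a.2
    rw [Algebra.adjoin_singleton_eq_range_aeval] at h1
    obtain ⟨p, hp⟩ := h1
    exact ⟨p, hp.symm⟩
  have hnn : ∀ r : (Algebra.adjoin ℂ (Set.range fun _ : Unit => u))[X],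
      0 ≤ P.ord (aeval t r) := by
    intro r
    induction r using Polynomial.induction_on' with
    | add p q hp hq =>
      by_cases h0 : aeval t p + aeval t q = 0
      · rw [map_add, h0, P.ord_zero]
      · rw [map_add]
        exact P.le_ord_add 0 h0 (fun _ => hp) (fun _ => hq)
    | monomial n a =>
      rw [aeval_monomial]
      obtain ⟨p, hp⟩ := hmem a
      have h1 : (algebraMap (Algebra.adjoin ℂ (Set.range fun _ : Unit => u)) F) a =
          aeval u p := hp
      rw [h1]
      by_cases h2 : aeval u p = 0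
      · rw [h2, zero_mul, P.ord_zero]
      · rw [P.ord_mul _ _ h2 (pow_ne_zero _ ht0), P.ord_pow, ht]
        have := P.ord_aeval_nonneg hu p
        positivity
  obtain ⟨p, hp⟩ := hmem (G.coeff 0)
  have hp0 : p ≠ 0 := by
    intro h
    rw [h, map_zero] at hp
    exact hG0 (Subtype.ext hp)
  have hsplit : aeval t G = ((G.coeff 0 : Algebra.adjoin ℂ (Set.range fun _ : Unit => u)) : F) +
      t * aeval t G.divX := by
    conv_lhs => rw [← G.divX_mul_X_add]
    rw [map_add, map_mul, aeval_X, aeval_C]
    rw [add_comm, mul_comm]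
    rfl
  rw [hG, hp] at hsplit
  have hval : aeval u p = -(t * aeval t G.divX) := by
    rw [eq_neg_iff_add_eq_zero]
    exact hsplit.symm
  have hnz : aeval u p ≠ 0 := fun h => hp0 ((transcendental_iff.mp htr) p h)
  have hw : aeval t G.divX ≠ 0 := by
    intro h
    rw [h, mul_zero, neg_zero] at hval
    exact hnz hval
  have h1 := res_poly P hne h0 hp0
  rw [hval, P.ord_neg, P.ord_mul _ _ ht0 hw, ht] at h1
  have := hnn G.divX
  omega

end

end Pool.H29.BN

end S_BN_Res

section S_BN_Lin

/-!
# LIN: dimensions of Riemann-Roch spaces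

`step`: if `f, h ∈ L(D + P)`, `h ∉ L(D)` then `ord_P h = - D P - 1`, `ord_P (f / h) ≥ 0` (for `f ≠ 0`), and by
`Pt.residue` there is `c` with `f - c h ∈ L(D)`.  So `L(D + P) = L(D) + ℂ h`.
`ell_le`: induct on the degree of the effective divisor `B - A`.
-/

namespace Pool.H29.BN

open Polynomial Module

noncomputable section

variable {F : Type} [Field F] [Algebra ℂ F]

theorem mem_LL {D : Dv F} {f : F} : f ∈ LL D ↔ (f ≠ 0 → ∀ P : Pt F, 0 ≤ P.ord f + D P) :=
  Iff.rfl

theorem LL_mono {A B : Dv F} (h : A ≤ B) : LL A ≤ LL B := by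
  intro f hf hf0 P
  have h1 := hf hf0 P
  have h2 := h P
  linarith

theorem deg_add (A B : Dv F) : deg (A + B) = deg A + deg B := by
  unfold deg
  exact Finsupp.sum_add_index' (fun _ => rfl) (fun _ _ _ => rfl)

theorem deg_sub (A B : Dv F) : deg (A - B) = deg A - deg B := by
  have h := deg_add (A - B) B
  rw [sub_add_cancel] at h
  linarith

theorem deg_single (P : Pt F) (n : ℤ) : deg (Finsupp.single P n) = n := by
  unfold deg
  exact Finsupp.sum_single_index rfl

theorem deg_mono {A B : Dv F} (h : A ≤ B) : deg A ≤ deg B := by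
  have h1 := deg_sub B A
  have h2 : 0 ≤ deg (B - A) := by
    unfold deg
    apply Finsupp.sum_nonneg
    intro P _
    have := h P
    rw [Finsupp.sub_apply]
    linarith
  linarith

theorem step (hF : IsFF F) (D : Dv F) (P : Pt F) (hfin : FiniteDimensional ℂ (LL D)) :
    FiniteDimensional ℂ (LL (D + Finsupp.single P 1)) ∧
      ell (D + Finsupp.single P 1) ≤ ell D + 1 := by
  classical
  have hDQ : ∀ Q, P ≠ Q → (D + Finsupp.single P 1 : Dv F) Q = D Q := by
    intro Q hQ
    rw [Finsupp.add_apply, Finsupp.single_eq_of_ne (Ne.symm hQ), add_zero]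
  have hDP : (D + Finsupp.single P 1 : Dv F) P = D P + 1 := by
    rw [Finsupp.add_apply, Finsupp.single_eq_same]
  by_cases hall : ∀ h ∈ LL (D + Finsupp.single P 1), h ∈ LL D
  · have heq : LL (D + Finsupp.single P 1) = LL D := by
      apply le_antisymm hall
      apply LL_mono
      exact le_add_of_nonneg_right (Finsupp.single_nonneg.mpr (by norm_num))
    constructor
    · rw [heq]
      exact hfin
    · unfold ell
      rw [heq]
      omega
  · push Not at hall
    obtain ⟨h, hh, hhD⟩ := hall
    have hh0 : h ≠ 0 := by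
      intro h0
      apply hhD
      rw [h0]
      exact (LL D).zero_mem
    have hhP : P.ord h = - D P - 1 := by
      have h1 := hh hh0 P
      rw [hDP] at h1
      by_contra hne
      apply hhD
      intro _ Q
      by_cases hQ : P = Q
      · subst hQ
        have : P.ord h + (D P + 1) ≠ 0 := by
          intro h2
          apply hne
          linarith
        omega
      · have h2 := hh hh0 Q
        rwa [hDQ Q hQ] at h2
    have hle : LL (D + Finsupp.single P 1) ≤ LL D ⊔ Submodule.span ℂ {h} := by
      intro f hf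
      by_cases hf0 : f = 0
      · rw [hf0]
        exact Submodule.zero_mem _
      have h1 : 0 ≤ P.ord (f / h) := by
        rw [P.ord_div hf0 hh0, hhP]
        have := hf hf0 P
        rw [hDP] at this
        linarith
      obtain ⟨c, hc⟩ := P.residue hF (f / h) h1
      rw [Submodule.mem_sup]
      refine ⟨f - c • h, ?_, c • h, Submodule.smul_mem _ _ (Submodule.mem_span_singleton_self h),
        by rw [sub_add_cancel]⟩
      have hmem : f - c • h ∈ LL (D + Finsupp.single P 1) :=
        Submodule.sub_mem _ hf (Submodule.smul_mem _ _ hh)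
      intro h2 Q
      by_cases hQ : P = Q
      · subst hQ
        have h3 : f - c • h = h * (f / h - algebraMap ℂ F c) := by
          rw [Algebra.smul_def]
          field_simp
        have h4 : f / h - algebraMap ℂ F c ≠ 0 := by
          intro h5
          rw [h3, h5, mul_zero] at h2
          exact h2 rfl
        rcases hc with hc | hc
        · exact absurd (sub_eq_zero.mpr hc) h4
        · rw [h3, P.ord_mul _ _ hh0 h4, hhP]
          linarith
      · have h3 := hmem h2 Q
        rwa [hDQ Q hQ] at h3
    have hfs : FiniteDimensional ℂ (Submodule.span ℂ {h}) :=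
      FiniteDimensional.span_singleton ℂ h
    have hfsup : FiniteDimensional ℂ (LL D ⊔ Submodule.span ℂ {h} : Submodule ℂ F) :=
      Submodule.finiteDimensional_sup _ _
    refine ⟨Submodule.finiteDimensional_of_le hle, ?_⟩
    unfold ell
    calc finrank ℂ (LL (D + Finsupp.single P 1))
        ≤ finrank ℂ (LL D ⊔ Submodule.span ℂ {h} : Submodule ℂ F) := Submodule.finrank_mono hle
      _ ≤ finrank ℂ (LL D) + finrank ℂ (Submodule.span ℂ {h}) :=
        Submodule.finrank_add_le_finrank_add_finrank _ _
      _ ≤ finrank ℂ (LL D) + 1 := by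
        have := finrank_span_singleton (K := ℂ) hh0
        omega

theorem ell_le (hF : IsFF F) {A B : Dv F} (h : A ≤ B) (hfin : FiniteDimensional ℂ (LL A)) :
    FiniteDimensional ℂ (LL B) ∧ (ell B : ℤ) ≤ ell A + deg (B - A) := by
  classical
  have key : ∀ (n : ℕ) (B : Dv F), A ≤ B → deg (B - A) = n →
      FiniteDimensional ℂ (LL B) ∧ (ell B : ℤ) ≤ ell A + n := by
    intro n
    induction n with
    | zero =>
      intro B hB hn
      have hBA : B = A := by
        by_contra hne
        obtain ⟨P, hP⟩ : ∃ P, B P ≠ A P := by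
          by_contra hall
          push Not at hall
          exact hne (Finsupp.ext hall)
        have h1 : Finsupp.single P (1 : ℤ) ≤ B - A := by
          intro Q
          rw [Finsupp.sub_apply]
          by_cases hQ : P = Q
          · subst hQ
            rw [Finsupp.single_eq_same]
            have := hB P
            omega
          · rw [Finsupp.single_eq_of_ne (Ne.symm hQ)]
            have := hB Q
            linarith
        have h2 := deg_mono h1
        rw [deg_single, hn] at h2
        norm_num at h2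
      rw [hBA]
      exact ⟨hfin, by simp⟩
    | succ n ih =>
      intro B hB hn
      obtain ⟨P, hP⟩ : ∃ P, B P ≠ A P := by
        by_contra hall
        push Not at hall
        have : B = A := Finsupp.ext hall
        rw [this, sub_self] at hn
        have h0 : deg (0 : Dv F) = 0 := by simp [deg]
        rw [h0] at hn
        omega
      have hB' : A ≤ B - Finsupp.single P 1 := by
        intro Q
        rw [Finsupp.sub_apply]
        by_cases hQ : P = Q
        · subst hQ
          rw [Finsupp.single_eq_same]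
          have := hB P
          omega
        · rw [Finsupp.single_eq_of_ne (Ne.symm hQ), sub_zero]
          exact hB Q
      obtain ⟨h1, h2⟩ := ih _ hB' (by
        rw [deg_sub] at hn ⊢
        rw [deg_sub, deg_single]
        push_cast at hn
        linarith)
      obtain ⟨h3, h4⟩ := step hF (B - Finsupp.single P 1) P h1
      rw [sub_add_cancel] at h3 h4
      refine ⟨h3, ?_⟩
      have h5 : (ell B : ℤ) ≤ ell (B - Finsupp.single P 1) + 1 := by exact_mod_cast h4
      push_cast
      linarith
  have h0 : 0 ≤ deg (B - A) := by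
    have := deg_mono h
    rw [deg_sub]
    linarith
  obtain ⟨n, hn⟩ : ∃ n : ℕ, deg (B - A) = n := ⟨(deg (B - A)).toNat, by omega⟩
  rw [hn]
  exact key n B h hn

/-- multiplication by `s` maps `L(B)` into `L(A)` if `B ≤ A + div s` -/
theorem ell_le_of_mul {A B : Dv F} (s : F) (hs : s ≠ 0) (h : ∀ P, B P ≤ A P + P.ord s)
    (hfin : FiniteDimensional ℂ (LL A)) : FiniteDimensional ℂ (LL B) ∧ ell B ≤ ell A := by
  let φ : LL B →ₗ[ℂ] LL A :=
    { toFun := fun f => ⟨s * f.1, by
        intro h0 P
        have hf0 : f.1 ≠ 0 := right_ne_zero_of_mul h0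
        rw [P.ord_mul _ _ hs hf0]
        have h1 := f.2 hf0 P
        have h2 := h P
        linarith⟩
      map_add' := by
        intro a b
        apply Subtype.ext
        simp [mul_add]
      map_smul' := by
        intro c a
        apply Subtype.ext
        simp }
  have hφ : Function.Injective φ := by
    intro a b hab
    apply Subtype.ext
    have h1 : s * a.1 = s * b.1 := congrArg Subtype.val hab
    exact mul_left_cancel₀ hs h1
  exact ⟨FiniteDimensional.of_injective φ hφ, LinearMap.finrank_le_finrank_of_injective hφ⟩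

end

end Pool.H29.BN

end S_BN_Lin

section S_BN_Core

/-!
# CORE: a very ample divisor of degree `d` forces `2g ≤ (d-1)(d-2)`, and peeling of pairs of points
-/

namespace Pool.H29.BN

open Polynomial Module

noncomputable section

variable {F : Type} [Field F] [Algebra ℂ F] {g : ℕ}

theorem fin_of_genus (hg : IsGenus F g) (P0 : Pt F) (D : Dv F) :
    FiniteDimensional ℂ (LL D) := by
  obtain ⟨n, hn⟩ : ∃ n : ℕ, (g : ℤ) ≤ deg D + n := ⟨(g - deg D).toNat, by omega⟩
  set B : Dv F := D + Finsupp.single P0 (n : ℤ) with hB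
  have hle : D ≤ B := by
    rw [hB]
    exact le_add_of_nonneg_right (Finsupp.single_nonneg.mpr (by positivity))
  have hdB : deg B = deg D + n := by rw [hB, deg_add, deg_single]
  have h1 := hg.1 B
  rw [hdB] at h1
  have h2 : 0 < ell B := by
    have : (0 : ℤ) < ell B := by linarith
    exact_mod_cast this
  have h3 : FiniteDimensional ℂ (LL B) := FiniteDimensional.of_finrank_pos h2
  exact Submodule.finiteDimensional_of_le (LL_mono hle)

/-- (ii) functions in `L(A)`, `deg A < 0`, vanish -/
theorem deg_nonneg_of_mem (hg : IsGenus F g) (P0 : Pt F) {A : Dv F} {s : F} (hs : s ∈ LL A)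
    (hs0 : s ≠ 0) : 0 ≤ deg A := by
  by_contra hneg
  push Not at hneg
  obtain ⟨D0, hD0⟩ := hg.2
  have h1 := (ell_le_of_mul (A := D0) (B := D0 - A) s hs0 (by
    intro P
    have := hs hs0 P
    rw [Finsupp.sub_apply]
    linarith) (fin_of_genus hg P0 D0)).2
  have h2 := hg.1 (D0 - A)
  rw [deg_sub] at h2
  have h3 : (ell (D0 - A) : ℤ) ≤ ell D0 := by exact_mod_cast h1
  linarith

/-- (iii) the divisor of a function of `L(D)` -/
theorem exists_div (hg : IsGenus F g) (P0 : Pt F) {D : Dv F} {s : F} (hs : s ∈ LL D)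
    (hs0 : s ≠ 0) :
    ∃ E : Dv F, 0 ≤ E ∧ (∀ P : Pt F, P.ord s = E P - D P) ∧ deg E = deg D := by
  classical
  -- maximal degree of an effective `E` with `s ∈ L(D - E)`
  let T : ℕ → Prop := fun n => ∃ E : Dv F, 0 ≤ E ∧ s ∈ LL (D - E) ∧ deg E = n
  have hT0 : T 0 := ⟨0, le_rfl, by rwa [sub_zero], by simp [deg]⟩
  have hTb : ∀ n, T n → n ≤ (deg D).toNat := by
    rintro n ⟨E, _, hE, hdE⟩
    have h := deg_nonneg_of_mem hg P0 hE hs0
    rw [deg_sub, hdE] at h
    omega
  obtain ⟨n, hn, hmax⟩ : ∃ n, T n ∧ ∀ m, T m → m ≤ n := by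
    have hfin : {n | T n}.Finite := (Set.finite_Iic (deg D).toNat).subset hTb
    obtain ⟨n, hn, h⟩ := hfin.exists_maximalFor id _ ⟨0, hT0⟩
    refine ⟨n, hn, fun m hm => ?_⟩
    by_contra hlt
    push Not at hlt
    exact absurd (h hm hlt.le) (not_le.mpr hlt)
  obtain ⟨E, hE0, hE, hdE⟩ := hn
  have hord : ∀ P : Pt F, P.ord s = E P - D P := by
    intro P
    have h1 := hE hs0 P
    rw [Finsupp.sub_apply] at h1
    by_contra hne
    have h2 : 0 < P.ord s + (D P - E P) := lt_of_le_of_ne h1 (by
      intro h
      apply hne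
      linarith)
    have h3 : T (n + 1) := by
      refine ⟨E + Finsupp.single P 1, add_nonneg hE0 (Finsupp.single_nonneg.mpr (by norm_num)),
        ?_, ?_⟩
      · intro _ Q
        rw [Finsupp.sub_apply, Finsupp.add_apply]
        by_cases hQ : P = Q
        · subst hQ
          rw [Finsupp.single_eq_same]
          linarith
        · rw [Finsupp.single_eq_of_ne (Ne.symm hQ)]
          have := hE hs0 Q
          rw [Finsupp.sub_apply] at this
          linarith
      · rw [deg_add, deg_single, hdE]
        push_cast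
        ring
    have := hmax _ h3
    omega
  refine ⟨E, hE0, hord, ?_⟩
  have h4 := deg_nonneg_of_mem hg P0 hE hs0
  rw [deg_sub] at h4
  have h5 : s⁻¹ ∈ LL (E - D) := by
    intro _ P
    rw [P.ord_inv, hord P, Finsupp.sub_apply]
    linarith
  have h6 := deg_nonneg_of_mem hg P0 h5 (inv_ne_zero hs0)
  rw [deg_sub] at h6
  linarith

/-- the divisor of a list of points -/
def lsum (l : List (Pt F)) : Dv F := (l.map fun P => Finsupp.single P (1 : ℤ)).sum

theorem lsum_nil : lsum ([] : List (Pt F)) = 0 := rfl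

theorem lsum_cons (P : Pt F) (l : List (Pt F)) :
    lsum (P :: l) = Finsupp.single P 1 + lsum l := rfl

theorem lsum_append (l l' : List (Pt F)) : lsum (l ++ l') = lsum l + lsum l' := by
  simp [lsum]

theorem lsum_nonneg (l : List (Pt F)) : 0 ≤ lsum l := by
  induction l with
  | nil => exact le_rfl
  | cons P l ih =>
    rw [lsum_cons]
    exact add_nonneg (Finsupp.single_nonneg.mpr (by norm_num)) ih

theorem deg_lsum (l : List (Pt F)) : deg (lsum l) = l.length := by
  induction l with
  | nil => simp [lsum_nil, deg]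
  | cons P l ih =>
    rw [lsum_cons, deg_add, deg_single, ih, List.length_cons]
    push_cast
    ring

theorem exists_list {E : Dv F} (hE : 0 ≤ E) : ∃ l : List (Pt F), lsum l = E := by
  classical
  obtain ⟨n, hn⟩ : ∃ n : ℕ, deg E = n := by
    have : 0 ≤ deg E := by
      have := deg_mono hE
      simpa [deg] using this
    exact ⟨(deg E).toNat, by omega⟩
  induction n generalizing E with
  | zero =>
    refine ⟨[], ?_⟩
    rw [lsum_nil]
    symm
    by_contra hne
    obtain ⟨P, hP⟩ : ∃ P, E P ≠ 0 := by
      by_contra hall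
      push Not at hall
      exact hne (Finsupp.ext hall)
    have h1 : 1 ≤ E P := by
      have : 0 ≤ E P := hE P
      omega
    have h2 : Finsupp.single P 1 ≤ E := by
      intro Q
      by_cases hQ : P = Q
      · subst hQ
        rw [Finsupp.single_eq_same]
        exact h1
      · rw [Finsupp.single_eq_of_ne (Ne.symm hQ)]
        exact hE Q
    have h3 := deg_mono h2
    rw [deg_single, hn] at h3
    norm_num at h3
  | succ n ih =>
    obtain ⟨P, hP⟩ : ∃ P, E P ≠ 0 := by
      by_contra hall
      push Not at hall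
      have : E = 0 := Finsupp.ext hall
      rw [this] at hn
      have h0 : deg (0 : Dv F) = 0 := by simp [deg]
      rw [h0] at hn
      omega
    have h1 : 1 ≤ E P := by
      have : 0 ≤ E P := hE P
      omega
    have h2 : 0 ≤ E - Finsupp.single P 1 := by
      intro Q
      rw [Finsupp.sub_apply]
      by_cases hQ : P = Q
      · subst hQ
        rw [Finsupp.single_eq_same]
        simp only [Finsupp.coe_zero, Pi.zero_apply]
        linarith
      · rw [Finsupp.single_eq_of_ne (Ne.symm hQ), sub_zero]
        exact hE Q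
    obtain ⟨l, hl⟩ := ih h2 (by rw [deg_sub, deg_single, hn]; push_cast; ring)
    exact ⟨P :: l, by rw [lsum_cons, hl, add_sub_cancel]⟩

/-- hypothesis: `D` separates points and tangent vectors -/
def VA (D : Dv F) : Prop :=
  ∀ P Q : Pt F, ell (D - Finsupp.single P 1 - Finsupp.single Q 1) + 2 ≤ ell D

/-- if `ell (A - P) < ell A` there is a function in `L(A)` of exact order `- A P` at `P` -/
theorem exists_exact {A : Dv F} (P : Pt F) (hfin : FiniteDimensional ℂ (LL A))
    (h : ell (A - Finsupp.single P 1) < ell A) :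
    ∃ s ∈ LL A, s ≠ 0 ∧ P.ord s = - A P := by
  classical
  by_contra hcon
  push Not at hcon
  have h1 : LL A ≤ LL (A - Finsupp.single P 1) := by
    intro s hs hs0 Q
    rw [Finsupp.sub_apply]
    by_cases hQ : P = Q
    · subst hQ
      rw [Finsupp.single_eq_same]
      have h2 := hs hs0 P
      have h3 := hcon s hs hs0
      have h4 : 0 < P.ord s + A P := lt_of_le_of_ne h2 (by
        intro h5
        apply h3
        linarith)
      linarith
    · rw [Finsupp.single_eq_of_ne (Ne.symm hQ), sub_zero]
      exact hs hs0 Q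
  have h2 : LL (A - Finsupp.single P 1) ≤ LL A := by
    apply LL_mono
    exact sub_le_self _ (Finsupp.single_nonneg.mpr (by norm_num))
  have h3 : LL A = LL (A - Finsupp.single P 1) := le_antisymm h1 h2
  have h4 : ell A = ell (A - Finsupp.single P 1) := by
    unfold ell
    rw [h3]
  omega

theorem VA.exact0 (hF : IsFF F) (hg : IsGenus F g) {D : Dv F} (h : VA D) (P : Pt F) :
    ∃ s ∈ LL D, s ≠ 0 ∧ P.ord s = - D P := by
  apply exists_exact P (fin_of_genus hg P D)
  have h1 := h P P
  have h2 := (step hF (D - Finsupp.single P 1 - Finsupp.single P 1) P (fin_of_genus hg P _)).2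
  rw [sub_add_cancel] at h2
  omega

theorem VA.exact1 (hF : IsFF F) (hg : IsGenus F g) {D : Dv F} (h : VA D) (P Q : Pt F) :
    ∃ s ∈ LL (D - Finsupp.single Q 1), s ≠ 0 ∧ P.ord s = - ((D - Finsupp.single Q 1 : Dv F) P) := by
  apply exists_exact P (fin_of_genus hg P _)
  have h1 := h Q P
  have h2 := (step hF (D - Finsupp.single Q 1) Q (fin_of_genus hg P _)).2
  rw [sub_add_cancel] at h2
  omega

/-- products of sections -/
theorem VA.prod (hF : IsFF F) (hg : IsGenus F g) {D : Dv F} (h : VA D) (P : Pt F)
    (l : List (Pt F)) : ∀ n : ℕ, l.length ≤ n →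
    ∃ s ∈ LL (n • D - lsum l), s ≠ 0 ∧ P.ord s = - (n • D - lsum l) P := by
  induction l with
  | nil =>
    intro n _
    obtain ⟨s, hs, hs0, hsP⟩ := h.exact0 hF hg P
    refine ⟨s ^ n, ?_, pow_ne_zero _ hs0, ?_⟩
    · intro _ Q
      rw [lsum_nil, sub_zero, Q.ord_pow, Finsupp.smul_apply, nsmul_eq_mul]
      have := hs hs0 Q
      have hn : (0 : ℤ) ≤ n := by positivity
      nlinarith
    · rw [lsum_nil, sub_zero, P.ord_pow, Finsupp.smul_apply, nsmul_eq_mul, hsP]
      ring
  | cons Q l ih =>
    intro n hn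
    obtain ⟨m, rfl⟩ : ∃ m, n = m + 1 := ⟨n - 1, by simp at hn; omega⟩
    obtain ⟨s, hs, hs0, hsP⟩ := ih m (by simpa using hn)
    obtain ⟨t, ht, ht0, htP⟩ := h.exact1 hF hg P Q
    refine ⟨t * s, ?_, mul_ne_zero ht0 hs0, ?_⟩
    · intro _ R
      have h1 := hs hs0 R
      have h2 := ht ht0 R
      rw [R.ord_mul _ _ ht0 hs0, lsum_cons]
      simp only [Finsupp.sub_apply, Finsupp.add_apply, Finsupp.smul_apply, nsmul_eq_mul] at h1 h2 ⊢
      push_cast
      linarith
    · rw [P.ord_mul _ _ ht0 hs0, lsum_cons, htP, hsP]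
      simp only [Finsupp.sub_apply, Finsupp.add_apply, Finsupp.smul_apply, nsmul_eq_mul]
      push_cast
      ring

theorem VA.list (hF : IsFF F) (hg : IsGenus F g) (P0 : Pt F) {D : Dv F} (h : VA D) (n : ℕ)
    (l : List (Pt F)) (hl : l.length ≤ n + 1) : ell (n • D - lsum l) + l.length ≤ ell (n • D) := by
  induction l with
  | nil => simp [lsum_nil]
  | cons P l ih =>
    have ih' := ih (by simp at hl; omega)
    obtain ⟨s, hs, hs0, hsP⟩ := h.prod hF hg P l n (by simpa using hl)
    have hlt : LL (n • D - lsum (P :: l)) < LL (n • D - lsum l) := by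
      rw [lt_iff_le_and_ne]
      constructor
      · apply LL_mono
        rw [lsum_cons]
        have : 0 ≤ Finsupp.single P (1 : ℤ) := Finsupp.single_nonneg.mpr (by norm_num)
        intro Q
        have h1 := this Q
        simp only [Finsupp.sub_apply, Finsupp.add_apply, Finsupp.coe_zero, Pi.zero_apply] at h1 ⊢
        linarith
      · intro heq
        rw [← heq] at hs
        have h1 := hs hs0 P
        rw [hsP, lsum_cons] at h1
        simp only [Finsupp.sub_apply, Finsupp.add_apply, Finsupp.single_eq_same] at h1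
        linarith
    have hfin := fin_of_genus hg P0 (n • D - lsum l)
    have h2 := Submodule.finrank_lt_finrank_of_lt hlt
    rw [List.length_cons]
    unfold ell at ih' ⊢
    omega

theorem VA.grow (hF : IsFF F) (hg : IsGenus F g) (P0 : Pt F) {D : Dv F} (h : VA D) {d : ℕ}
    (hd : deg D = d) (n k : ℕ) (hk : k ≤ n + 2) (hkd : k ≤ d) :
    ell (n • D) + k ≤ ell ((n + 1) • D) := by
  obtain ⟨s, hs, hs0, -⟩ := h.exact0 hF hg P0
  obtain ⟨E, hE0, hE, hdE⟩ := exists_div hg P0 hs hs0
  obtain ⟨l, hl⟩ := exists_list hE0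
  have hlen : l.length = d := by
    have h1 := deg_lsum l
    rw [hl, hdE, hd] at h1
    exact_mod_cast h1.symm
  have h1 : ell (n • D) ≤ ell ((n + 1) • D - E) := by
    refine (ell_le_of_mul (A := (n + 1) • D - E) (B := n • D) s hs0 ?_
      (fin_of_genus hg P0 _)).2
    intro P
    rw [hE P]
    simp only [Finsupp.sub_apply, Finsupp.smul_apply, nsmul_eq_mul]
    push_cast
    linarith
  have hsplit : l = l.take k ++ l.drop k := (List.take_append_drop k l).symm
  have h2 : ell ((n + 1) • D - E) ≤ ell ((n + 1) • D - lsum (l.take k)) := by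
    have hle : LL ((n + 1) • D - E) ≤ LL ((n + 1) • D - lsum (l.take k)) := by
      apply LL_mono
      rw [← hl, hsplit, lsum_append, List.take_append_of_le_length (by simp; omega),
        List.take_take, min_self]
      have h3 := lsum_nonneg (l.drop k)
      intro Q
      have h4 := h3 Q
      simp only [Finsupp.sub_apply, Finsupp.add_apply, Finsupp.coe_zero, Pi.zero_apply] at h4 ⊢
      linarith
    have := fin_of_genus hg P0 ((n + 1) • D - lsum (l.take k))
    exact Submodule.finrank_mono hle
  have h3 := h.list hF hg P0 (n + 1) (l.take k) (by simp; omega)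
  have h4 : (l.take k).length = k := by
    rw [List.length_take, hlen, min_eq_left hkd]
  rw [h4] at h3
  omega

/-- Riemann-Roch upper bound for large multiples -/
theorem ell_large (hF : IsFF F) (hg : IsGenus F g) (P0 : Pt F) {D : Dv F} {d : ℕ}
    (hd : deg D = d) (hd1 : 1 ≤ d) :
    ∃ n0 : ℕ, ∀ n ≥ n0, (ell (n • D) : ℤ) ≤ n * d + 1 - g := by
  obtain ⟨D0, hD0⟩ := hg.2
  refine ⟨(deg D0 + g).toNat, fun n hn => ?_⟩
  have hdeg : deg (n • D) = n * d := by
    induction n with
    | zero => simp [deg]
    | succ n _ =>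
      clear hn
      have : ∀ m : ℕ, deg (m • D) = m * d := by
        intro m
        induction m with
        | zero => simp [deg]
        | succ m ihm => rw [succ_nsmul, deg_add, ihm, hd]; push_cast; ring
      exact this _
  have h1 := hg.1 (n • D - D0)
  rw [deg_sub, hdeg] at h1
  have h2 : (n : ℤ) ≤ n * d := by
    have : (1 : ℤ) ≤ d := by exact_mod_cast hd1
    nlinarith
  have h3 : (deg D0 + g : ℤ) ≤ n := by omega
  have h4 : 0 < ell (n • D - D0) := by
    have : (0 : ℤ) < ell (n • D - D0) := by linarith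
    exact_mod_cast this
  obtain ⟨f, hf, hf0⟩ : ∃ f ∈ LL (n • D - D0), f ≠ 0 := by
    have hpos : LL (n • D - D0) ≠ ⊥ := by
      intro hbot
      unfold ell at h4
      rw [hbot, finrank_bot] at h4
      exact lt_irrefl _ h4
    obtain ⟨f, hf, hf0⟩ := Submodule.exists_mem_ne_zero_of_ne_bot hpos
    exact ⟨f, hf, hf0⟩
  obtain ⟨E, hE0, hE, hdE⟩ := exists_div hg P0 hf hf0
  have h5 : ell (n • D) ≤ ell (D0 + E) := by
    refine (ell_le_of_mul (A := D0 + E) (B := n • D) f⁻¹ (inv_ne_zero hf0) ?_
      (fin_of_genus hg P0 _)).2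
    intro P
    rw [P.ord_inv, hE P]
    simp only [Finsupp.sub_apply, Finsupp.add_apply]
    linarith
  have h6 := (ell_le hF (A := D0) (B := D0 + E) (le_add_of_nonneg_right hE0)
    (fin_of_genus hg P0 _)).2
  rw [add_sub_cancel_left, hdE, deg_sub, hdeg] at h6
  have h7 : (ell (n • D) : ℤ) ≤ ell (D0 + E) := by exact_mod_cast h5
  linarith

/-- a very ample divisor of degree `d` forces `2g ≤ (d-1)(d-2)` -/
theorem VA.genus (hF : IsFF F) (hg : IsGenus F g) (P0 : Pt F) {D : Dv F} (h : VA D) {d : ℕ}
    (hd : deg D = d) (hd1 : 1 ≤ d) : 2 * (g : ℤ) ≤ ((d : ℤ) - 1) * (d - 2) := by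
  obtain ⟨n0, hn0⟩ := ell_large hF hg P0 hd hd1
  have h0 : 1 ≤ ell ((0 : ℕ) • D) := by
    have h1 : (1 : F) ∈ LL ((0 : ℕ) • D) := by
      intro _ P
      rw [P.ord_one']
      simp
    have hfin := fin_of_genus hg P0 ((0 : ℕ) • D)
    have h2 : 0 < finrank ℂ (LL ((0 : ℕ) • D)) := by
      rw [Module.finrank_pos_iff_exists_ne_zero]
      exact ⟨⟨1, h1⟩, fun h3 => one_ne_zero (congrArg Subtype.val h3)⟩
    exact h2
  have hA : ∀ n : ℕ, n + 1 ≤ d → ((n : ℤ) + 1) * (n + 2) ≤ 2 * ell (n • D) := by
    intro n
    induction n with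
    | zero =>
      intro _
      have : (1 : ℤ) ≤ ell ((0 : ℕ) • D) := by exact_mod_cast h0
      push_cast
      linarith
    | succ n ih =>
      intro hn
      have h1 := ih (by omega)
      have h2 := h.grow hF hg P0 hd n (n + 2) le_rfl (by omega)
      have h3 : (ell (n • D) : ℤ) + (n + 2) ≤ ell ((n + 1) • D) := by exact_mod_cast h2
      push_cast
      nlinarith
  have hB : ∀ m : ℕ, (d : ℤ) * (d + 1) + 2 * m * d ≤ 2 * ell ((d - 1 + m) • D) := by
    intro m
    induction m with
    | zero =>
      have h1 := hA (d - 1) (by omega)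
      have h2 : ((d - 1 : ℕ) : ℤ) = d - 1 := by omega
      rw [h2] at h1
      rw [add_zero]
      push_cast
      linarith
    | succ m ih =>
      have h2 := h.grow hF hg P0 hd (d - 1 + m) d (by omega) le_rfl
      have h3 : (ell ((d - 1 + m) • D) : ℤ) + d ≤ ell ((d - 1 + m + 1) • D) := by
        exact_mod_cast h2
      rw [← add_assoc]
      push_cast
      linarith
  have h1 := hB n0
  have h2 := hn0 (d - 1 + n0) (by omega)
  have h3 : ((d - 1 + n0 : ℕ) : ℤ) = d - 1 + n0 := by omega
  rw [h3] at h2
  nlinarith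

/-- some pair of points imposes at most one condition -/
theorem peel (hF : IsFF F) (hg : IsGenus F g) (P0 : Pt F) (D : Dv F) {d : ℕ}
    (hd : deg D = d) (hd1 : 1 ≤ d) (hgd : ((d : ℤ) - 1) * (d - 2) < 2 * g) :
    ∃ P Q : Pt F, ell D ≤ ell (D - Finsupp.single P 1 - Finsupp.single Q 1) + 1 := by
  by_contra hcon
  push Not at hcon
  have hVA : VA D := fun P Q => by have := hcon P Q; omega
  have := hVA.genus hF hg P0 hd hd1
  linarith

theorem peel_many (hF : IsFF F) (hg : IsGenus F g) (P0 : Pt F) (j : ℕ) :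
    ∀ (d : ℕ) (D : Dv F), 2 ≤ d → deg D = ((d + 2 * j : ℕ) : ℤ) → 3 + j ≤ ell D →
      (((d + 2 * j : ℕ) : ℤ) - 1) * (((d + 2 * j : ℕ) : ℤ) - 2) < 2 * g →
      ∃ D' : Dv F, deg D' = d ∧ 3 ≤ ell D' := by
  induction j with
  | zero =>
    intro d D _ hD hell _
    exact ⟨D, by simpa using hD, by simpa using hell⟩
  | succ j ih =>
    intro d D hd hD hell hgd
    obtain ⟨P, Q, hPQ⟩ := peel hF hg P0 D hD (by omega) hgd
    refine ih d (D - Finsupp.single P 1 - Finsupp.single Q 1) hd ?_ (by omega) ?_
    · rw [deg_sub, deg_sub, deg_single, deg_single, hD]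
      push_cast
      ring
    · push_cast at hgd ⊢
      have : (2 : ℤ) ≤ d := by exact_mod_cast hd
      nlinarith

/-- **Containment**: for `g > (d-1)(d-2)/2` every curve of genus `g` with a `g^r_d` has a
`g^2_{d-2r+4}`. -/
theorem contain (hF : IsFF F) (hg : IsGenus F g) {r d : ℕ} (hr : 3 ≤ r) (hrd : 2 * r ≤ d)
    (hgd : (d - 1) * (d - 2) < 2 * g) (h : HasGrd F r d) : HasGrd F 2 (d - 2 * r + 4) := by
  obtain ⟨D, hD, hell⟩ := h
  obtain ⟨P0⟩ : Nonempty (Pt F) := by
    by_contra hne
    rw [not_nonempty_iff] at hne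
    have : D = 0 := Subsingleton.elim _ _
    rw [this] at hD
    have h0 : deg (0 : Dv F) = 0 := by simp [deg]
    rw [h0] at hD
    omega
  obtain ⟨D', hD', hell'⟩ := peel_many hF hg P0 (r - 2) (d - 2 * r + 4) D (by omega)
    (by rw [hD]; congr 1; omega) (by omega) (by
      have h1 : d - 2 * r + 4 + 2 * (r - 2) = d := by omega
      rw [h1]
      have h2 : ((d - 1 : ℕ) : ℤ) = d - 1 := by omega
      have h3 : ((d - 2 : ℕ) : ℤ) = d - 2 := by omega
      rw [← h2, ← h3]
      exact_mod_cast hgd)
  exact ⟨D', hD', hell'⟩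

end

end Pool.H29.BN

end S_BN_Core

section S_BN_Plc

/-!
# PLC: existence of points

Let `z` be transcendental.  `A = Algebra.adjoin ℂ {z}` is a polynomial ring (`ℂ[X] ≃ A`), a principal ideal
domain; `K = FractionRing A` with `FractionRing.liftAlgebra A F`; `F / K` is finite (`F` is essentially of
finite type over `ℂ`, hence over `K`, and algebraic over `K` as the transcendence degree is one) and separable
(characteristic zero).  So `B = integralClosure A F` is a Dedekind domain
(`integralClosure.isDedekindDomain`) with fraction field `F`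
(`integralClosure.isFractionRing_of_finite_extension`).  If `h ∉ B`, some
`v : IsDedekindDomain.HeightOneSpectrum B` has `v.valuation F h > 1`
(`IsDedekindDomain.HeightOneSpectrum.mem_integers_of_valuation_le_one`).  Let
`ord u = - log (v.valuation F u)`: a point, `ord_unif` by `v.valuation_exists_uniformizer F`, elements of
`B` (in particular `z` and constants) have `ord ≥ 0`.
-/

namespace Pool.H29.BN

open Polynomial

noncomputable section

variable {F : Type} [Field F] [Algebra ℂ F]

/-- The point given by a prime ideal of a Dedekind domain. -/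
def PLC_pt (B : Type) [CommRing B] [IsDedekindDomain B] [Algebra B F] [IsFractionRing B F]
    [Algebra ℂ B] [IsScalarTower ℂ B F] (v : IsDedekindDomain.HeightOneSpectrum B) : Pt F where
  ord u := -WithZero.log (v.valuation F u)
  ord_zero := by simp
  ord_mul := by
    intro x y hx hy
    have h1 : v.valuation F x ≠ 0 := (Valuation.ne_zero_iff _).2 hx
    have h2 : v.valuation F y ≠ 0 := (Valuation.ne_zero_iff _).2 hy
    rw [map_mul, WithZero.log_mul h1 h2]
    ring
  ord_add := by
    intro x y hx hy hxy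
    have h1 : v.valuation F x ≠ 0 := (Valuation.ne_zero_iff _).2 hx
    have h2 : v.valuation F y ≠ 0 := (Valuation.ne_zero_iff _).2 hy
    have h3 : v.valuation F (x + y) ≠ 0 := (Valuation.ne_zero_iff _).2 hxy
    have h4 := (v.valuation F).map_add x y
    rcases le_max_iff.1 h4 with h5 | h5
    · refine min_le_iff.2 (Or.inl ?_)
      rw [neg_le_neg_iff]
      exact (WithZero.log_le_log h3 h1).2 h5
    · refine min_le_iff.2 (Or.inr ?_)
      rw [neg_le_neg_iff]
      exact (WithZero.log_le_log h3 h2).2 h5
  ord_const := by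
    intro c hc
    have h0 : algebraMap ℂ F c ≠ 0 := fun h => hc ((map_eq_zero _).1 h)
    have h1 : v.valuation F (algebraMap ℂ F c) ≤ 1 := by
      rw [IsScalarTower.algebraMap_apply ℂ B F]
      exact v.valuation_le_one _
    have h2 : v.valuation F (algebraMap ℂ F c⁻¹) ≤ 1 := by
      rw [IsScalarTower.algebraMap_apply ℂ B F]
      exact v.valuation_le_one _
    have h3 : v.valuation F (algebraMap ℂ F c) * v.valuation F (algebraMap ℂ F c⁻¹) = 1 := by
      rw [← map_mul, ← map_mul, mul_inv_cancel₀ hc, map_one, map_one]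
    have h4 : v.valuation F (algebraMap ℂ F c) = 1 := by
      refine le_antisymm h1 ?_
      by_contra hlt
      have h5 : v.valuation F (algebraMap ℂ F c) * v.valuation F (algebraMap ℂ F c⁻¹) < 1 := by
        calc v.valuation F (algebraMap ℂ F c) * v.valuation F (algebraMap ℂ F c⁻¹)
            ≤ v.valuation F (algebraMap ℂ F c) * 1 := mul_le_mul_right h2 _
          _ = v.valuation F (algebraMap ℂ F c) := mul_one _
          _ < 1 := not_le.1 hlt
      exact absurd h3 h5.ne
    rw [h4, WithZero.log_one, neg_zero]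
  ord_unif := by
    obtain ⟨π, hπ⟩ := v.valuation_exists_uniformizer F
    refine ⟨π, ?_, ?_⟩
    · intro h
      rw [h, map_zero] at hπ
      exact absurd hπ.symm WithZero.exp_ne_zero
    · rw [hπ, WithZero.log_exp, neg_neg]

theorem PLC_pt_nonneg (B : Type) [CommRing B] [IsDedekindDomain B] [Algebra B F]
    [IsFractionRing B F] [Algebra ℂ B] [IsScalarTower ℂ B F]
    (v : IsDedekindDomain.HeightOneSpectrum B) (b : B) :
    0 ≤ (PLC_pt (F := F) B v).ord (algebraMap B F b) := by
  change 0 ≤ -WithZero.log (v.valuation F (algebraMap B F b))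
  by_cases hb : algebraMap B F b = 0
  · rw [hb, map_zero, WithZero.log_zero, neg_zero]
  · have h1 : v.valuation F (algebraMap B F b) ≠ 0 := (Valuation.ne_zero_iff _).2 hb
    have h2 : v.valuation F (algebraMap B F b) ≤ 1 := v.valuation_le_one b
    rw [Left.nonneg_neg_iff, ← WithZero.log_one (M := ℤ)]
    exact (WithZero.log_le_log h1 one_ne_zero).2 h2

theorem PLC_exists (B : Type) [CommRing B] [IsDedekindDomain B] [Algebra B F]
    [IsFractionRing B F] [Algebra ℂ B] [IsScalarTower ℂ B F] (h : F)
    (hh : ∀ b : B, algebraMap B F b ≠ h) :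
    ∃ P : Pt F, (∀ b : B, 0 ≤ P.ord (algebraMap B F b)) ∧ P.ord h < 0 := by
  have h1 : ∃ v : IsDedekindDomain.HeightOneSpectrum B, ¬ v.valuation F h ≤ 1 := by
    by_contra hcon
    push Not at hcon
    obtain ⟨b, hb⟩ :=
      IsDedekindDomain.HeightOneSpectrum.mem_integers_of_valuation_le_one (R := B) F h hcon
    exact hh b hb
  obtain ⟨v, hv⟩ := h1
  refine ⟨PLC_pt B v, PLC_pt_nonneg B v, ?_⟩
  change -WithZero.log (v.valuation F h) < 0
  have h2 : 1 < v.valuation F h := not_le.1 hv
  have h3 : v.valuation F h ≠ 0 := (lt_trans zero_lt_one h2).ne'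
  rw [Left.neg_neg_iff, ← WithZero.log_one (M := ℤ)]
  exact (WithZero.log_lt_log one_ne_zero h3).2 h2

theorem PLC_pid (z : F) :
    IsPrincipalIdealRing (Algebra.adjoin ℂ {z}) := by
  rw [Algebra.adjoin_singleton_eq_range_aeval]
  exact IsPrincipalIdealRing.of_surjective (aeval z : ℂ[X] →ₐ[ℂ] F).rangeRestrict.toRingHom
    (aeval z : ℂ[X] →ₐ[ℂ] F).rangeRestrict_surjective

theorem PLC_alg (hF : IsFF F) {z : F} (hz : Transcendental ℂ z) :
    Algebra.IsAlgebraic (Algebra.adjoin ℂ {z}) F := by
  have h1 : AlgebraicIndependent ℂ ![z] := algebraicIndependent_iff_transcendental.2 hz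
  have h2 : IsTranscendenceBasis ℂ ![z] := by
    apply h1.isTranscendenceBasis_of_trdeg_le_of_finite
    rw [hF.2]
    simp
  have h3 := h2.isAlgebraic
  have h4 : Set.range ![z] = {z} := by simp
  rwa [h4] at h3

theorem exists_pt (hF : IsFF F) {z : F} (hz : Transcendental ℂ z) {h : F}
    (hh : ¬ IsIntegral (Algebra.adjoin ℂ {z}) h) : ∃ P : Pt F, 0 ≤ P.ord z ∧ P.ord h < 0 := by
  have hE := hF.1
  have hpid := PLC_pid z
  have halg := PLC_alg hF hz
  let A := Algebra.adjoin ℂ {z}
  let K := FractionRing A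
  let _ : Algebra K F := FractionRing.liftAlgebra A F
  have : IsScalarTower A K F := FractionRing.isScalarTower_liftAlgebra A F
  have : IsScalarTower ℂ A F := inferInstance
  have : IsScalarTower ℂ A K := inferInstance
  have : IsScalarTower ℂ K F := by
    refine IsScalarTower.of_algebraMap_eq fun c => ?_
    rw [IsScalarTower.algebraMap_apply ℂ A F, IsScalarTower.algebraMap_apply ℂ A K,
      ← IsScalarTower.algebraMap_apply A K F]
  have : Algebra.EssFiniteType K F := Algebra.EssFiniteType.of_comp ℂ K F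
  have : Algebra.IsAlgebraic K F := IsFractionRing.comap_isAlgebraic_iff (A := A).1 halg
  have : Module.Finite K F := Algebra.finite_of_essFiniteType_of_isAlgebraic
  have : CharZero K := charZero_of_injective_algebraMap (algebraMap ℂ K).injective
  have : Algebra.IsSeparable K F := inferInstance
  have : IsDedekindDomain (integralClosure A F) := integralClosure.isDedekindDomain A K F
  have : IsFractionRing (integralClosure A F) F :=
    integralClosure.isFractionRing_of_finite_extension K F
  obtain ⟨P, hP1, hP2⟩ := PLC_exists (F := F) (integralClosure A F) h (by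
    rintro ⟨b, hb⟩ rfl
    exact hh hb)
  refine ⟨P, ?_, hP2⟩
  have hzA : z ∈ A := Algebra.self_mem_adjoin_singleton ℂ z
  have := hP1 (algebraMap A (integralClosure A F) ⟨z, hzA⟩)
  exact this

/-- every nonconstant function has a pole: `h = z` is not integral over `ℂ[1/z]` -/
theorem exists_pole (hF : IsFF F) {z : F} (hz : Transcendental ℂ z) : ∃ P : Pt F, P.ord z < 0 := by
  have hz0 : z ≠ 0 := by
    rintro rfl
    exact hz (isAlgebraic_zero)
  have hzi : Transcendental ℂ z⁻¹ := by
    intro h
    apply hz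
    have := h.inv
    rwa [inv_inv] at this
  obtain ⟨P, hP1, hP2⟩ := exists_pt hF hzi (h := z) (by
    intro hint
    have hpid := PLC_pid z⁻¹
    let A := Algebra.adjoin ℂ {z⁻¹}
    let K := FractionRing A
    let _ : Algebra K F := FractionRing.liftAlgebra A F
    have : IsScalarTower A K F := FractionRing.isScalarTower_liftAlgebra A F
    have hzA : z⁻¹ ∈ A := Algebra.self_mem_adjoin_singleton ℂ z⁻¹
    have h1 : algebraMap K F (algebraMap A K ⟨z⁻¹, hzA⟩)⁻¹ = z := by
      rw [map_inv₀, ← IsScalarTower.algebraMap_apply A K F]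
      exact inv_inv z
    have h2 : IsIntegral A (algebraMap A K ⟨z⁻¹, hzA⟩)⁻¹ := by
      rw [← isIntegral_algebraMap_iff (algebraMap K F).injective, h1]
      exact hint
    obtain ⟨y, hy⟩ := IsIntegrallyClosed.isIntegral_iff.1 h2
    have h3 : (y : F) = z := by
      have h4 := congrArg (algebraMap K F) hy
      rw [h1, ← IsScalarTower.algebraMap_apply A K F] at h4
      exact h4
    have h5 : z ∈ Algebra.adjoin ℂ {z⁻¹} := by
      have := y.2
      rwa [h3] at this
    rw [Algebra.adjoin_singleton_eq_range_aeval] at h5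
    obtain ⟨p, hp⟩ := h5
    have hp' : aeval z⁻¹ p = z := hp
    apply hzi
    refine ⟨X * p - 1, ?_, ?_⟩
    · intro h6
      have h7 := congrArg (fun q : ℂ[X] => q.coeff 0) h6
      simp at h7
    · rw [map_sub, map_mul, aeval_X, hp', map_one, inv_mul_cancel₀ hz0, sub_self])
  exact ⟨P, hP2⟩

end

end Pool.H29.BN

end S_BN_Plc
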