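import Mathlib
import Pool.Agent.H29.CM.BnA

/-! Brill-Noether loci and Castelnuovo bound, part BnB: this file joins several modules to save build time. -/

section S_BN_HypInf

/-!
# HINF: the point at infinity of `y² = f(x)`, `deg f = 2g+1`

`norm_ne`: parity of degrees.  At a point with `ord x = -k < 0`: `2 ord y = (2g+1) ord x`, so `k` is even,
`k = 2m`, `ord y = -(2g+1) m`; for `p, q` polynomials `ord p(x) = -2m deg p`, `ord (q(x) y) = -2m deg q - (2g+1) m`
are different (parity), so `ord (p + q y)` is their minimum; in particular all orders are divisible by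
`m` (use `rep`), so `m = 1` by `ord_unif`, and the point is determined.
-/

namespace Pool.H29.BN

open Polynomial

noncomputable section

variable {F : Type} [Field F] [Algebra ℂ F] {g : ℕ}

private theorem hinf_f_ne (S : Hyp F g) : S.f ≠ 0 := by
  intro h
  have := S.deg_f
  rw [h, natDegree_zero] at this
  omega

theorem Hyp.norm_ne (S : Hyp F g) {p q : ℂ[X]} (h : p ≠ 0 ∨ q ≠ 0) :
    p ^ 2 - q ^ 2 * S.f ≠ 0 := by
  intro h0
  have h1 : p ^ 2 = q ^ 2 * S.f := sub_eq_zero.mp h0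
  have hf := hinf_f_ne S
  by_cases hq : q = 0
  · rw [hq] at h1
    have hp : p ≠ 0 := by
      rcases h with h | h
      · exact h
      · exact absurd hq h
    apply pow_ne_zero 2 hp
    rw [h1]
    ring
  · have h2 : q ^ 2 * S.f ≠ 0 := mul_ne_zero (pow_ne_zero 2 hq) hf
    have h3 := congrArg natDegree h1
    rw [natDegree_mul (pow_ne_zero 2 hq) hf, natDegree_pow, natDegree_pow, S.deg_f] at h3
    omega

theorem Hyp.norm_eq (S : Hyp F g) (p q : ℂ[X]) :
    (aeval S.x p + aeval S.x q * S.y) * (aeval S.x p - aeval S.x q * S.y) =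
      aeval S.x (p ^ 2 - q ^ 2 * S.f) := by
  rw [map_sub, map_mul, map_pow, map_pow, ← S.eqn]
  ring

theorem Hyp.comb_ne (S : Hyp F g) {p q : ℂ[X]} (h : p ≠ 0 ∨ q ≠ 0) :
    aeval S.x p + aeval S.x q * S.y ≠ 0 := by
  intro h0
  have h1 := S.norm_eq p q
  rw [h0, zero_mul] at h1
  exact S.norm_ne h ((transcendental_iff.mp S.trans) _ h1.symm)

theorem Hyp.y_ne (S : Hyp F g) : S.y ≠ 0 := by
  have h := S.comb_ne (p := 0) (q := 1) (Or.inr one_ne_zero)
  simpa using h

/-- the order at infinity, as a function of the polynomials -/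
private def hinfD (g : ℕ) (p q : ℂ[X]) : ℤ :=
  if p = 0 then -2 * q.natDegree - (2 * g + 1)
  else if q = 0 then -2 * p.natDegree
  else min (-2 * (p.natDegree : ℤ)) (-2 * q.natDegree - (2 * g + 1))

private theorem hinf_m (S : Hyp F g) (P : Pt F) (hP : P.ord S.x < 0) :
    ∃ m : ℤ, 0 < m ∧ P.ord S.x = -2 * m ∧ P.ord S.y = -(2 * g + 1) * m := by
  have h1 := (P.ord_aeval_pole hP (hinf_f_ne S)).2
  rw [← S.eqn, P.ord_pow, S.deg_f] at h1
  push_cast at h1
  have h2 : Even (P.ord S.x) := by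
    by_contra hodd
    rw [Int.not_even_iff_odd] at hodd
    have h3 : Odd ((2 * (g : ℤ) + 1) * P.ord S.x) := by
      apply Odd.mul _ hodd
      exact ⟨g, by ring⟩
    rw [← h1] at h3
    have h4 : Even (2 * P.ord S.y) := even_two_mul _
    exact (Int.not_even_iff_odd.mpr h3) h4
  obtain ⟨m, hm⟩ := h2
  refine ⟨-m, by omega, by omega, ?_⟩
  have h3 : 2 * P.ord S.y = (2 * (g : ℤ) + 1) * (m + m) := by rw [h1, hm]
  have h4 : 2 * P.ord S.y = 2 * (-(2 * (g : ℤ) + 1) * -m) := by rw [h3]; ring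
  linarith

private theorem hinf_ord (S : Hyp F g) (P : Pt F) {m : ℤ} (hm : 0 < m)
    (hx : P.ord S.x = -2 * m) (hy : P.ord S.y = -(2 * g + 1) * m) {p q : ℂ[X]}
    (h : p ≠ 0 ∨ q ≠ 0) : P.ord (aeval S.x p + aeval S.x q * S.y) = m * hinfD g p q := by
  have hP : P.ord S.x < 0 := by rw [hx]; linarith
  unfold hinfD
  by_cases hp : p = 0
  · have hq : q ≠ 0 := by
      rcases h with h | h
      · exact absurd hp h
      · exact h
    obtain ⟨h1, h2⟩ := P.ord_aeval_pole hP hq
    rw [if_pos hp, hp, map_zero, zero_add, P.ord_mul _ _ h1 S.y_ne, h2, hx, hy]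
    ring
  · rw [if_neg hp]
    obtain ⟨h3, h4⟩ := P.ord_aeval_pole hP hp
    by_cases hq : q = 0
    · rw [if_pos hq, hq, map_zero, zero_mul, add_zero, h4, hx]
      ring
    · rw [if_neg hq]
      obtain ⟨h1, h2⟩ := P.ord_aeval_pole hP hq
      have h5 : aeval S.x q * S.y ≠ 0 := mul_ne_zero h1 S.y_ne
      have h6 : P.ord (aeval S.x q * S.y) = m * (-2 * q.natDegree - (2 * g + 1)) := by
        rw [P.ord_mul _ _ h1 S.y_ne, h2, hx, hy]
        ring
      have h7 : P.ord (aeval S.x p) = m * (-2 * p.natDegree) := by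
        rw [h4, hx]
        ring
      rcases lt_or_gt_of_ne (show (-2 * (p.natDegree : ℤ)) ≠ -2 * q.natDegree - (2 * g + 1) by
        omega) with hlt | hlt
      · rw [min_eq_left hlt.le, (P.ord_add_of_lt h3 h5 (by
          rw [h6, h7]
          exact mul_lt_mul_of_pos_left hlt hm)).2, h7]
      · rw [min_eq_right hlt.le, add_comm, (P.ord_add_of_lt h5 h3 (by
          rw [h6, h7]
          exact mul_lt_mul_of_pos_left hlt hm)).2, h6]

private theorem hinf_all (S : Hyp F g) (P : Pt F) {m : ℤ} (hm : 0 < m)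
    (hx : P.ord S.x = -2 * m) (hy : P.ord S.y = -(2 * g + 1) * m) {h : F} (hh : h ≠ 0)
    {p q s : ℂ[X]} (hs : s ≠ 0) (he : h * aeval S.x s = aeval S.x p + aeval S.x q * S.y) :
    P.ord h = m * (hinfD g p q + 2 * s.natDegree) := by
  have hP : P.ord S.x < 0 := by rw [hx]; linarith
  obtain ⟨h1, h2⟩ := P.ord_aeval_pole hP hs
  have hpq : p ≠ 0 ∨ q ≠ 0 := by
    by_contra hcon
    push Not at hcon
    rw [hcon.1, hcon.2, map_zero, zero_mul, add_zero] at he
    exact (mul_ne_zero hh h1) he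
  have h3 := hinf_ord S P hm hx hy hpq
  rw [← he, P.ord_mul _ _ hh h1, h2, hx] at h3
  linarith

private theorem hinf_one (S : Hyp F g) (P : Pt F) {m : ℤ} (hm : 0 < m)
    (hx : P.ord S.x = -2 * m) (hy : P.ord S.y = -(2 * g + 1) * m) : m = 1 := by
  obtain ⟨t, ht0, ht⟩ := P.ord_unif
  obtain ⟨p, q, s, hs, he⟩ := S.rep t
  have h1 := hinf_all S P hm hx hy ht0 hs he
  rw [ht] at h1
  exact Int.eq_one_of_dvd_one hm.le ⟨_, h1⟩

theorem Hyp.inf_ord (S : Hyp F g) (P : Pt F) (hP : P.ord S.x < 0) :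
    P.ord S.x = -2 ∧ P.ord S.y = -(2 * g + 1) := by
  obtain ⟨m, hm, hx, hy⟩ := hinf_m S P hP
  have h1 := hinf_one S P hm hx hy
  subst h1
  constructor
  · rw [hx]; ring
  · rw [hy]; ring

private theorem hinf_comb (S : Hyp F g) (P : Pt F) (hP : P.ord S.x < 0) {p q : ℂ[X]}
    (h : p ≠ 0 ∨ q ≠ 0) : P.ord (aeval S.x p + aeval S.x q * S.y) = hinfD g p q := by
  obtain ⟨h1, h2⟩ := S.inf_ord P hP
  have := hinf_ord S P one_pos (by rw [h1]; ring) (by rw [h2]; ring) h
  rwa [one_mul] at this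

/-- the order at infinity of `p(x) + q(x) y`, upper bounds -/
theorem Hyp.inf_comb (S : Hyp F g) (P : Pt F) (hP : P.ord S.x < 0) (p q : ℂ[X]) :
    (p ≠ 0 → P.ord (aeval S.x p + aeval S.x q * S.y) ≤ -2 * p.natDegree) ∧
    (q ≠ 0 → P.ord (aeval S.x p + aeval S.x q * S.y) ≤ -2 * q.natDegree - (2 * g + 1)) := by
  constructor
  · intro hp
    rw [hinf_comb S P hP (Or.inl hp)]
    unfold hinfD
    rw [if_neg hp]
    by_cases hq : q = 0
    · rw [if_pos hq]
    · rw [if_neg hq]
      exact min_le_left _ _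
  · intro hq
    rw [hinf_comb S P hP (Or.inr hq)]
    unfold hinfD
    by_cases hp : p = 0
    · rw [if_pos hp]
    · rw [if_neg hp, if_neg hq]
      exact min_le_right _ _

theorem Hyp.inf_unique (S : Hyp F g) (P Q : Pt F) (hP : P.ord S.x < 0) (hQ : Q.ord S.x < 0) :
    P = Q := by
  obtain ⟨h1, h2⟩ := S.inf_ord P hP
  obtain ⟨h3, h4⟩ := S.inf_ord Q hQ
  apply Pt.ext
  funext h
  by_cases hh : h = 0
  · rw [hh, P.ord_zero, Q.ord_zero]
  · obtain ⟨p, q, s, hs, he⟩ := S.rep h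
    rw [hinf_all S P one_pos (by rw [h1]; ring) (by rw [h2]; ring) hh hs he,
      hinf_all S Q one_pos (by rw [h3]; ring) (by rw [h4]; ring) hh hs he]

end

end Pool.H29.BN

end S_BN_HypInf

section S_BN_HypFin

/-!
# HFIN: the points over `x = a`

`nonram` (`b² = f(a)`, `b ≠ 0`; both points satisfy `ord (x - a) > 0`, `ord (y - b) > 0`): for every `k` there is a
polynomial `s` with `s(a) = b` and `(X - a)^k ∣ f - s²` (induction on `k`).  Then `y - s(x) = (f - s²)(x) / (y + s(x))` has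
order `≥ k m`, `m = ord (x - a)` (the denominator is `2b` modulo the point).  For polynomials
`p, q`, not both zero, `N = p² - q² f ≠ 0`, `h = p(x) + q(x) y` has `0 ≤ ord h ≤ ord N(x) = m * rootMultiplicity a N`, so for
`k > rootMultiplicity a N`: `ord h = ord ((p + q s)(x)) = m * rootMultiplicity a (p + q s)`.  By `rep` all orders are
multiples of `m`, so `m = 1` by `ord_unif`, and all orders are determined by `a, b`.
`ram` (`f(a) = 0`, a simple root): `2 ord y = ord (x - a) = 2m`; `ord p(x) ∈ 2mℤ`, `ord (q(x) y) ∈ 2mℤ + m` are different, so the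
order of the sum is their minimum; `m = 1`.
`fin_sum`: at a point with `ord (x - a) > 0` one has `ord (f(x) - f(a)) > 0`, i.e. with `b² = f(a)`:
`ord ((y - b)(y + b)) > 0`.
-/

namespace Pool.H29.BN

open Polynomial

noncomputable section

variable {F : Type} [Field F] [Algebra ℂ F] {g : ℕ}

/-- polynomial square roots of `f` modulo powers of `X - a` -/
theorem hfin_sqrt {f : ℂ[X]} {a b : ℂ} (hb : b ≠ 0) (hab : b ^ 2 = f.eval a) (k : ℕ) :
    ∃ s : ℂ[X], s.eval a = b ∧ (X - C a) ^ (k + 1) ∣ f - s ^ 2 := by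
  induction k with
  | zero =>
    refine ⟨C b, eval_C, ?_⟩
    rw [zero_add, pow_one, dvd_iff_isRoot, IsRoot.def, eval_sub, eval_pow, eval_C, hab, sub_self]
  | succ k ih =>
    obtain ⟨s, hs, r, hr⟩ := ih
    have h2b : (2 : ℂ) * b ≠ 0 := mul_ne_zero two_ne_zero hb
    set c : ℂ := r.eval a / (2 * b) with hc
    refine ⟨s + C c * (X - C a) ^ (k + 1), ?_, ?_⟩
    · rw [eval_add, eval_mul, eval_pow, eval_sub, eval_X, eval_C, eval_C, sub_self,
        zero_pow (Nat.succ_ne_zero k), mul_zero, add_zero, hs]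
    · have h1 : f - (s + C c * (X - C a) ^ (k + 1)) ^ 2 =
          (X - C a) ^ (k + 1) * (r - C 2 * C c * s - C c ^ 2 * (X - C a) ^ (k + 1)) := by
        have h2 : f = s ^ 2 + (X - C a) ^ (k + 1) * r := by
          rw [← hr]
          ring
        have h3 : (C 2 : ℂ[X]) = 2 := by
          rw [map_ofNat]
        rw [h3]
        conv_lhs => rw [h2]
        ring
      rw [h1, pow_succ (X - C a) (k + 1)]
      refine mul_dvd_mul_left _ ?_
      rw [dvd_iff_isRoot, IsRoot.def]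
      simp only [eval_sub, eval_mul, eval_pow, eval_C, eval_X, sub_self, hs]
      rw [zero_pow (Nat.succ_ne_zero k), mul_zero, sub_zero, hc]
      field_simp
      ring

/-- the point is determined by orders of the functions `p(x) + q(x) y` -/
theorem hfin_core (S : Hyp F g) {a : ℂ} (E : ℂ[X] → ℂ[X] → ℤ) {c : ℤ} (hc : 0 < c)
    (P Q : Pt F) {mP mQ : ℤ} (hmP : 0 < mP) (hmQ : 0 < mQ)
    (hP : P.ord (S.x - algebraMap ℂ F a) = c * mP)
    (hQ : Q.ord (S.x - algebraMap ℂ F a) = c * mQ)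
    (hPE : ∀ p q : ℂ[X], p ≠ 0 ∨ q ≠ 0 → P.ord (aeval S.x p + aeval S.x q * S.y) = mP * E p q)
    (hQE : ∀ p q : ℂ[X], p ≠ 0 ∨ q ≠ 0 → Q.ord (aeval S.x p + aeval S.x q * S.y) = mQ * E p q) :
    mP = 1 ∧ P = Q := by
  choose p q s hs hrep using S.rep
  set G : F → ℤ := fun h => E (p h) (q h) - c * (s h).rootMultiplicity a with hG
  have key : ∀ (R : Pt F) (m : ℤ), 0 < m → R.ord (S.x - algebraMap ℂ F a) = c * m →
      (∀ p q : ℂ[X], p ≠ 0 ∨ q ≠ 0 → R.ord (aeval S.x p + aeval S.x q * S.y) = m * E p q) →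
      (∀ h : F, h ≠ 0 → R.ord h = m * G h) ∧ m = 1 := by
    intro R m hm hR hRE
    have h1 : ∀ h : F, h ≠ 0 → R.ord h = m * G h := by
      intro h hh
      have h2 := R.ord_aeval_zero (x := S.x) (a := a) (by rw [hR]; positivity) (hs h)
      have h3 : p h ≠ 0 ∨ q h ≠ 0 := by
        by_contra hcon
        push Not at hcon
        have h4 := hrep h
        rw [hcon.1, hcon.2, map_zero, zero_mul, add_zero] at h4
        rcases mul_eq_zero.1 h4 with h5 | h5
        · exact hh h5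
        · exact h2.1 h5
      have h4 := R.ord_mul h _ hh h2.1
      rw [hrep h, hRE _ _ h3, h2.2, hR] at h4
      simp only [hG]
      linear_combination -h4
    refine ⟨h1, ?_⟩
    obtain ⟨t, ht, ht1⟩ := R.ord_unif
    rw [h1 t ht] at ht1
    exact Int.eq_one_of_mul_eq_one_right hm.le ht1
  obtain ⟨h1, h2⟩ := key P mP hmP hP hPE
  obtain ⟨h3, h4⟩ := key Q mQ hmQ hQ hQE
  refine ⟨h2, ?_⟩
  apply Pt.ext
  funext h
  by_cases hh : h = 0
  · rw [hh, P.ord_zero, Q.ord_zero]
  · rw [h1 h hh, h3 h hh, h2, h4]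

/-- the order at a point over `x = a`, `y = b ≠ 0` -/
theorem hfin_ord (S : Hyp F g) {a b : ℂ} (hb : b ≠ 0) (P : Pt F)
    (hP : 0 < P.ord (S.x - algebraMap ℂ F a))
    (hPy : S.y = algebraMap ℂ F b ∨ 0 < P.ord (S.y - algebraMap ℂ F b))
    {p q s : ℂ[X]} (hpq : p ≠ 0 ∨ q ≠ 0) (hs : s.eval a = b)
    (hd : (X - C a) ^ ((p ^ 2 - q ^ 2 * S.f).rootMultiplicity a + 1) ∣ S.f - s ^ 2) :
    P.ord (aeval S.x p + aeval S.x q * S.y) =
      P.ord (S.x - algebraMap ℂ F a) * (p + q * s).rootMultiplicity a := by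
  set m := P.ord (S.x - algebraMap ℂ F a) with hm
  set N := p ^ 2 - q ^ 2 * S.f with hN
  have hN0 : N ≠ 0 := S.norm_ne hpq
  set k := N.rootMultiplicity a + 1 with hk
  -- y + s(x) is a unit
  have h2b : algebraMap ℂ F (2 * b) ≠ 0 := by
    rw [_root_.map_ne_zero]
    exact mul_ne_zero two_ne_zero hb
  have hsum : S.y + aeval S.x s ≠ 0 ∧ P.ord (S.y + aeval S.x s) = 0 := by
    have e1 : S.y + aeval S.x s = algebraMap ℂ F (2 * b) +
        ((S.y - algebraMap ℂ F b) + (aeval S.x s - algebraMap ℂ F b)) := by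
      rw [map_mul, map_ofNat]
      ring
    by_cases hz : (S.y - algebraMap ℂ F b) + (aeval S.x s - algebraMap ℂ F b) = 0
    · rw [e1, hz, add_zero]
      exact ⟨h2b, P.ord_const _ (mul_ne_zero two_ne_zero hb)⟩
    · have h1 : 1 ≤ P.ord ((S.y - algebraMap ℂ F b) + (aeval S.x s - algebraMap ℂ F b)) := by
        refine P.le_ord_add 1 hz (fun h => ?_) (fun h => ?_)
        · rcases hPy with h5 | h5
          · exact absurd (by rw [h5, sub_self]) h
          · linarith
        · have e2 : aeval S.x s - algebraMap ℂ F b = aeval S.x (s - C b) := by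
            rw [map_sub, aeval_C]
          rw [e2] at h ⊢
          have h6 : s - C b ≠ 0 := by
            intro h7
            rw [h7, map_zero] at h
            exact h rfl
          have h7 := (P.ord_aeval_zero hP h6).2
          rw [h7]
          have h8 : 0 < (s - C b).rootMultiplicity a := by
            rw [rootMultiplicity_pos h6, IsRoot.def, eval_sub, eval_C, hs, sub_self]
          have h9 : (1 : ℤ) ≤ (s - C b).rootMultiplicity a := by exact_mod_cast h8
          nlinarith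
      rw [e1]
      have h2 := P.ord_const _ (mul_ne_zero two_ne_zero hb)
      have h3 := P.ord_add_of_lt h2b hz (by rw [h2]; linarith)
      exact ⟨h3.1, h3.2.trans h2⟩
  -- y - s(x) vanishes to high order
  have hprod : (S.y - aeval S.x s) * (S.y + aeval S.x s) = aeval S.x (S.f - s ^ 2) := by
    rw [map_sub, map_pow, ← S.eqn]
    ring
  have hdiff : S.y - aeval S.x s ≠ 0 → (k : ℤ) * m ≤ P.ord (S.y - aeval S.x s) := by
    intro h0
    have h1 := P.ord_mul _ _ h0 hsum.1
    rw [hprod, hsum.2, add_zero] at h1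
    have h2 : S.f - s ^ 2 ≠ 0 := by
      intro h3
      have h4 := mul_ne_zero h0 hsum.1
      rw [hprod, h3, map_zero] at h4
      exact h4 rfl
    have h3 := (P.ord_aeval_zero hP h2).2
    rw [← h1, h3]
    have h4 : k ≤ (S.f - s ^ 2).rootMultiplicity a := by
      rw [le_rootMultiplicity_iff h2]
      exact hd
    have h5 : (k : ℤ) ≤ (S.f - s ^ 2).rootMultiplicity a := by exact_mod_cast h4
    have : 0 < m := hP
    nlinarith
  -- the multiplicity of p + q s
  have hmul : (p + q * s) * (p - q * s) = N + q ^ 2 * (S.f - s ^ 2) := by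
    rw [hN]
    ring
  have hnd : ¬ (X - C a) ^ k ∣ (p + q * s) * (p - q * s) := by
    intro h1
    rw [hmul] at h1
    have h2 : (X - C a) ^ k ∣ q ^ 2 * (S.f - s ^ 2) := hd.mul_left _
    have h3 : (X - C a) ^ k ∣ N := (dvd_add_left h2).1 h1
    have h4 := (le_rootMultiplicity_iff hN0).2 h3
    omega
  have hps : p + q * s ≠ 0 := by
    intro h1
    rw [h1, zero_mul] at hnd
    exact hnd (dvd_zero _)
  have hlt : (p + q * s).rootMultiplicity a < k := by
    by_contra hcon
    push Not at hcon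
    have h1 := (le_rootMultiplicity_iff hps).1 hcon
    exact hnd (h1.mul_right _)
  have hmain := P.ord_aeval_zero hP hps
  have hdec : aeval S.x p + aeval S.x q * S.y =
      aeval S.x (p + q * s) + aeval S.x q * (S.y - aeval S.x s) := by
    rw [map_add, map_mul]
    ring
  rw [hdec]
  by_cases hz : aeval S.x q * (S.y - aeval S.x s) = 0
  · rw [hz, add_zero, hmain.2]
    ring
  · have h1 : aeval S.x q ≠ 0 := left_ne_zero_of_mul hz
    have h2 : S.y - aeval S.x s ≠ 0 := right_ne_zero_of_mul hz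
    have h3 : (k : ℤ) * m ≤ P.ord (aeval S.x q * (S.y - aeval S.x s)) := by
      rw [P.ord_mul _ _ h1 h2]
      have h4 := hdiff h2
      have hq : q ≠ 0 := by
        intro h5
        rw [h5, map_zero] at h1
        exact h1 rfl
      have h5 := (P.ord_aeval_zero hP hq).2
      rw [h5]
      have : 0 ≤ (q.rootMultiplicity a : ℤ) * P.ord (S.x - algebraMap ℂ F a) := by positivity
      linarith
    have h4 := P.ord_add_of_lt hmain.1 hz (by
      rw [hmain.2]
      refine lt_of_lt_of_le ?_ h3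
      have : ((p + q * s).rootMultiplicity a : ℤ) < k := by exact_mod_cast hlt
      have hm0 : 0 < m := hP
      exact mul_lt_mul_of_pos_right this hm0)
    rw [h4.2, hmain.2]
    ring

theorem Hyp.nonram (S : Hyp F g) {a b : ℂ} (hb : b ≠ 0) (hab : b ^ 2 = S.f.eval a)
    (P Q : Pt F) (hP : 0 < P.ord (S.x - algebraMap ℂ F a))
    (hPy : S.y = algebraMap ℂ F b ∨ 0 < P.ord (S.y - algebraMap ℂ F b))
    (hQ : 0 < Q.ord (S.x - algebraMap ℂ F a))
    (hQy : S.y = algebraMap ℂ F b ∨ 0 < Q.ord (S.y - algebraMap ℂ F b)) :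
    P.ord (S.x - algebraMap ℂ F a) = 1 ∧ P = Q := by
  choose s hs hd using fun k => hfin_sqrt (f := S.f) hb hab k
  exact hfin_core S (a := a) (c := 1)
    (fun p q => ((p + q * s ((p ^ 2 - q ^ 2 * S.f).rootMultiplicity a)).rootMultiplicity a : ℤ))
    one_pos P Q hP hQ (one_mul _).symm (one_mul _).symm
    (fun p q hpq => hfin_ord S hb P hP hPy hpq (hs _) (hd _))
    (fun p q hpq => hfin_ord S hb Q hQ hQy hpq (hs _) (hd _))

/-- the order at a ramification point -/
theorem hfin_ram (S : Hyp F g) {a : ℂ} (ha : S.f.eval a = 0) (P : Pt F)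
    (hP : 0 < P.ord (S.x - algebraMap ℂ F a)) :
    P.ord (S.x - algebraMap ℂ F a) = 2 * P.ord S.y ∧ 0 < P.ord S.y ∧
      ∀ p q : ℂ[X], p ≠ 0 ∨ q ≠ 0 → P.ord (aeval S.x p + aeval S.x q * S.y) =
        P.ord S.y * (if q = 0 then 2 * (p.rootMultiplicity a : ℤ) else
          if p = 0 then 2 * (q.rootMultiplicity a : ℤ) + 1 else
            min (2 * (p.rootMultiplicity a : ℤ)) (2 * (q.rootMultiplicity a : ℤ) + 1)) := by
  have hf0 : S.f ≠ 0 := S.sqf.ne_zero
  have hrm : S.f.rootMultiplicity a = 1 := by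
    have h1 : 0 < S.f.rootMultiplicity a := by
      rw [rootMultiplicity_pos hf0]
      exact ha
    have h2 : ¬ 2 ≤ S.f.rootMultiplicity a := by
      intro h
      have h3 := (le_rootMultiplicity_iff hf0).1 h
      rw [pow_two] at h3
      exact not_isUnit_X_sub_C a (S.sqf _ h3)
    omega
  have hy : S.y ≠ 0 := S.y_ne
  have h1 : P.ord (S.x - algebraMap ℂ F a) = 2 * P.ord S.y := by
    have h2 := (P.ord_aeval_zero hP hf0).2
    rw [← S.eqn, P.ord_pow, hrm] at h2
    push_cast at h2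
    linarith
  have hpos : 0 < P.ord S.y := by linarith
  refine ⟨h1, hpos, fun p q hpq => ?_⟩
  have hp : p ≠ 0 → aeval S.x p ≠ 0 ∧ P.ord (aeval S.x p) =
      P.ord S.y * (2 * (p.rootMultiplicity a : ℤ)) := by
    intro h
    have h2 := P.ord_aeval_zero hP h
    refine ⟨h2.1, ?_⟩
    rw [h2.2, h1]
    ring
  have hq : q ≠ 0 → aeval S.x q * S.y ≠ 0 ∧ P.ord (aeval S.x q * S.y) =
      P.ord S.y * (2 * (q.rootMultiplicity a : ℤ) + 1) := by
    intro h
    have h2 := P.ord_aeval_zero hP h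
    refine ⟨mul_ne_zero h2.1 hy, ?_⟩
    rw [P.ord_mul _ _ h2.1 hy, h2.2, h1]
    ring
  by_cases hq0 : q = 0
  · have hp0 : p ≠ 0 := by
      rcases hpq with h | h
      · exact h
      · exact absurd hq0 h
    rw [if_pos hq0, hq0, map_zero, zero_mul, add_zero]
    exact (hp hp0).2
  · rw [if_neg hq0]
    by_cases hp0 : p = 0
    · rw [if_pos hp0, hp0, map_zero, zero_add]
      exact (hq hq0).2
    · rw [if_neg hp0]
      obtain ⟨a1, a2⟩ := hp hp0
      obtain ⟨b1, b2⟩ := hq hq0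
      rcases lt_trichotomy (2 * (p.rootMultiplicity a : ℤ)) (2 * (q.rootMultiplicity a : ℤ) + 1)
        with h | h | h
      · have h3 := P.ord_add_of_lt a1 b1 (by
          rw [a2, b2]
          exact mul_lt_mul_of_pos_left h hpos)
        rw [h3.2, a2, min_eq_left h.le]
      · omega
      · have h3 := P.ord_add_of_lt b1 a1 (by
          rw [a2, b2]
          exact mul_lt_mul_of_pos_left h hpos)
        rw [add_comm, h3.2, b2, min_eq_right h.le]

theorem Hyp.ram (S : Hyp F g) {a : ℂ} (ha : S.f.eval a = 0) (P Q : Pt F)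
    (hP : 0 < P.ord (S.x - algebraMap ℂ F a)) (hQ : 0 < Q.ord (S.x - algebraMap ℂ F a)) :
    P.ord (S.x - algebraMap ℂ F a) = 2 ∧ P = Q := by
  obtain ⟨h1, h2, h3⟩ := hfin_ram S ha P hP
  obtain ⟨h4, h5, h6⟩ := hfin_ram S ha Q hQ
  obtain ⟨h7, h8⟩ := hfin_core S (a := a) (c := 2) _ two_pos P Q h2 h5 h1 h4 h3 h6
  exact ⟨by rw [h1, h7, mul_one], h8⟩

/-- a point over `x = a` has `y = b` or `y = -b` -/
theorem hfin_pm (S : Hyp F g) {a b : ℂ} (hab : b ^ 2 = S.f.eval a) (P : Pt F)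
    (hP : 0 < P.ord (S.x - algebraMap ℂ F a)) :
    0 < P.ord (S.y - algebraMap ℂ F b) ∨ 0 < P.ord (S.y - algebraMap ℂ F (-b)) := by
  have h1 : (S.y - algebraMap ℂ F b) * (S.y - algebraMap ℂ F (-b)) =
      aeval S.x (S.f - C (b ^ 2)) := by
    rw [map_sub, aeval_C, ← S.eqn, map_neg, map_pow]
    ring
  have h2 : S.f - C (b ^ 2) ≠ 0 := by
    intro h3
    have h4 : S.f = C (b ^ 2) := sub_eq_zero.1 h3
    have h5 := S.deg_f
    rw [h4, natDegree_C] at h5
    omega
  have h3 := P.ord_aeval_zero hP h2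
  rw [← h1] at h3
  have h4 : S.y - algebraMap ℂ F b ≠ 0 := left_ne_zero_of_mul h3.1
  have h5 : S.y - algebraMap ℂ F (-b) ≠ 0 := right_ne_zero_of_mul h3.1
  have h6 := h3.2
  rw [P.ord_mul _ _ h4 h5] at h6
  have h7 : 0 < (S.f - C (b ^ 2)).rootMultiplicity a := by
    rw [rootMultiplicity_pos h2, IsRoot.def, eval_sub, eval_C, hab, sub_self]
  have h8 : 0 < ((S.f - C (b ^ 2)).rootMultiplicity a : ℤ) *
      P.ord (S.x - algebraMap ℂ F a) := by positivity
  rw [← h6] at h8
  by_contra hcon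
  push Not at hcon
  linarith [hcon.1, hcon.2]

theorem Hyp.fin_sum (S : Hyp F g) (a : ℂ) (T : Finset (Pt F)) :
    ∑ P ∈ T, max (P.ord (S.x - algebraMap ℂ F a)) 0 ≤ 2 := by
  classical
  set T' := T.filter (fun P => 0 < P.ord (S.x - algebraMap ℂ F a)) with hT'
  have h1 : ∑ P ∈ T, max (P.ord (S.x - algebraMap ℂ F a)) 0 =
      ∑ P ∈ T', P.ord (S.x - algebraMap ℂ F a) := by
    rw [hT', Finset.sum_filter]
    refine Finset.sum_congr rfl fun P _ => ?_
    split_ifs with h
    · exact max_eq_left h.le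
    · exact max_eq_right (not_lt.1 h)
  rw [h1]
  have hmem : ∀ P ∈ T', 0 < P.ord (S.x - algebraMap ℂ F a) := fun P hP =>
    (Finset.mem_filter.1 hP).2
  by_cases ha : S.f.eval a = 0
  · have h2 : T'.card ≤ 1 := by
      rw [Finset.card_le_one]
      intro P hP Q hQ
      exact (S.ram ha P Q (hmem P hP) (hmem Q hQ)).2
    have h3 : ∑ P ∈ T', P.ord (S.x - algebraMap ℂ F a) = ∑ P ∈ T', 2 :=
      Finset.sum_congr rfl fun P hP => (S.ram ha P P (hmem P hP) (hmem P hP)).1
    rw [h3, Finset.sum_const, nsmul_eq_mul]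
    have h4 : (T'.card : ℤ) ≤ 1 := by exact_mod_cast h2
    linarith
  · obtain ⟨b, hb⟩ := IsAlgClosed.exists_pow_nat_eq (S.f.eval a) (n := 2) two_pos
    have hb0 : b ≠ 0 := by
      intro h
      rw [h, zero_pow two_ne_zero] at hb
      exact ha hb.symm
    have hnb : (-b) ^ 2 = S.f.eval a := by rw [neg_sq, hb]
    have hnb0 : -b ≠ 0 := neg_ne_zero.2 hb0
    have hone : ∀ P ∈ T', P.ord (S.x - algebraMap ℂ F a) = 1 := by
      intro P hP
      rcases hfin_pm S hb P (hmem P hP) with h | h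
      · exact (S.nonram hb0 hb P P (hmem P hP) (Or.inr h) (hmem P hP) (Or.inr h)).1
      · exact (S.nonram hnb0 hnb P P (hmem P hP) (Or.inr h) (hmem P hP) (Or.inr h)).1
    have h3 : ∑ P ∈ T', P.ord (S.x - algebraMap ℂ F a) = T'.card := by
      rw [Finset.sum_congr rfl hone, Finset.sum_const, nsmul_eq_mul, mul_one]
    rw [h3]
    set A := T'.filter (fun P => 0 < P.ord (S.y - algebraMap ℂ F b)) with hA
    set A' := T'.filter (fun P => 0 < P.ord (S.y - algebraMap ℂ F (-b))) with hA'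
    have h4 : T' ⊆ A ∪ A' := by
      intro P hP
      rcases hfin_pm S hb P (hmem P hP) with h | h
      · exact Finset.mem_union_left _ (Finset.mem_filter.2 ⟨hP, h⟩)
      · exact Finset.mem_union_right _ (Finset.mem_filter.2 ⟨hP, h⟩)
    have h5 : A.card ≤ 1 := by
      rw [Finset.card_le_one]
      intro P hP Q hQ
      have hP := Finset.mem_filter.1 hP
      have hQ := Finset.mem_filter.1 hQ
      exact (S.nonram hb0 hb P Q (hmem P hP.1) (Or.inr hP.2) (hmem Q hQ.1) (Or.inr hQ.2)).2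
    have h6 : A'.card ≤ 1 := by
      rw [Finset.card_le_one]
      intro P hP Q hQ
      have hP := Finset.mem_filter.1 hP
      have hQ := Finset.mem_filter.1 hQ
      exact (S.nonram hnb0 hnb P Q (hmem P hP.1) (Or.inr hP.2) (hmem Q hQ.1) (Or.inr hQ.2)).2
    have h7 : T'.card ≤ 2 := by
      calc T'.card ≤ (A ∪ A').card := Finset.card_le_card h4
        _ ≤ A.card + A'.card := Finset.card_union_le _ _
        _ ≤ 2 := by omega
    exact_mod_cast h7

/-- the set of zeros of `x - a` is finite -/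
theorem Hyp.fin_finite (S : Hyp F g) (a : ℂ) :
    {P : Pt F | 0 < P.ord (S.x - algebraMap ℂ F a)}.Finite := by
  by_contra hinf
  have hinf' : {P : Pt F | 0 < P.ord (S.x - algebraMap ℂ F a)}.Infinite := hinf
  obtain ⟨T, hT, hcard⟩ := hinf'.exists_subset_card_eq 3
  have h1 := S.fin_sum a T
  have h2 : ∑ P ∈ T, (1 : ℤ) ≤ ∑ P ∈ T, max (P.ord (S.x - algebraMap ℂ F a)) 0 := by
    refine Finset.sum_le_sum fun P hP => ?_
    have h3 : 0 < P.ord (S.x - algebraMap ℂ F a) := hT hP
    exact le_max_of_le_left (by linarith)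
  rw [Finset.sum_const, hcard] at h2
  norm_num at h2
  linarith

end

end Pool.H29.BN

end S_BN_HypFin

section S_BN_HypInt

/-!
# HINT: functions on `y² = f(x)` without finite poles are `p(x) + q(x) y`

By `exists_pt`, `h` is integral over `A = ℂ[x]`.  There is a field automorphism `σ` of `F` over `ℂ(x)` with
`σ y = - y`; or argue without `σ`: write `h s(x) = p(x) + q(x) y` with `s, p, q` polynomials.  `h` is a root of
`Z² - (2p/s) Z + (p² - q² f)/s²`; if `q ≠ 0` this is its minimal polynomial over `ℂ(x)` (`y ∉ ℂ(x)`), so its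
coefficients are in `A` (`minpoly.isIntegrallyClosed_eq_field_fractions'`, `A` is integrally closed, `A ≃ ℂ[X]`).
So `s ∣ 2p`, i.e. `s ∣ p`; then `s² ∣ q² f` and `f` squarefree give `s ∣ q`.  If `q = 0`: `h = p/s` is
integral so a polynomial.
-/

namespace Pool.H29.BN

open Polynomial

noncomputable section

variable {F : Type} [Field F] [Algebra ℂ F] {g : ℕ}

/-- a monic equation with coefficients polynomials in `x` -/
theorem hint_monic {x h : F} (hh : IsIntegral (Algebra.adjoin ℂ {x}) h) :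
    ∃ m : (ℂ[X])[X], m.Monic ∧ m.eval₂ (aeval x : ℂ[X] →ₐ[ℂ] F).toRingHom h = 0 := by
  obtain ⟨m, hm, hm0⟩ := hh
  set φ : ℂ[X] →+* Algebra.adjoin ℂ {x} :=
    ((aeval (⟨x, Algebra.self_mem_adjoin_singleton ℂ x⟩ : Algebra.adjoin ℂ {x})) :
      ℂ[X] →ₐ[ℂ] Algebra.adjoin ℂ {x}).toRingHom with hφ
  have hcomp : (algebraMap (Algebra.adjoin ℂ {x}) F).comp φ =
      (aeval x : ℂ[X] →ₐ[ℂ] F).toRingHom := by
    ext p
    · simp [hφ]
    · simp [hφ]
  have hsurj : ∀ a : Algebra.adjoin ℂ {x}, ∃ p, φ p = a := by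
    rintro ⟨a, ha⟩
    have ha' := ha
    rw [Algebra.adjoin_singleton_eq_range_aeval] at ha'
    obtain ⟨p, hp⟩ := ha'
    refine ⟨p, Subtype.ext ?_⟩
    have h1 : (algebraMap (Algebra.adjoin ℂ {x}) F) (φ p) = aeval x p :=
      congrArg (fun r : ℂ[X] →+* F => r p) hcomp
    exact h1.trans hp
  obtain ⟨q, hq1, -, hq2⟩ := lifts_and_degree_eq_and_monic (f := φ) (p := m)
    ((lifts_iff_coeff_lifts m).2 fun n => hsurj _) hm
  refine ⟨q, hq2, ?_⟩
  rw [← hcomp, ← eval₂_map, hq1]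
  exact hm0

theorem hint_sq {s q f : ℂ[X]} (hf : Squarefree f) (hs : s ≠ 0) (h : s ^ 2 ∣ q ^ 2 * f) :
    s ∣ q := by
  classical
  by_cases hq : q = 0
  · rw [hq]; exact dvd_zero s
  obtain ⟨s', hs'⟩ := EuclideanDomain.gcd_dvd_left s q
  obtain ⟨q', hq'⟩ := EuclideanDomain.gcd_dvd_right s q
  set d := EuclideanDomain.gcd s q with hd
  have hd0 : d ≠ 0 := by
    intro h0
    rw [h0, zero_mul] at hs'
    exact hs hs'
  have hcop : IsCoprime s' q' := by
    have h1 := EuclideanDomain.gcd_eq_gcd_ab s q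
    rw [← hd] at h1
    refine ⟨EuclideanDomain.gcdA s q, EuclideanDomain.gcdB s q, ?_⟩
    apply mul_left_cancel₀ hd0
    calc d * (EuclideanDomain.gcdA s q * s' + EuclideanDomain.gcdB s q * q')
        = (d * s') * EuclideanDomain.gcdA s q + (d * q') * EuclideanDomain.gcdB s q := by ring
      _ = s * EuclideanDomain.gcdA s q + q * EuclideanDomain.gcdB s q := by rw [← hs', ← hq']
      _ = d := h1.symm
      _ = d * 1 := (mul_one d).symm
  have h2 : s' ^ 2 ∣ q' ^ 2 * f := by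
    rw [hs', hq', mul_pow, mul_pow, mul_assoc] at h
    exact (mul_dvd_mul_iff_left (pow_ne_zero 2 hd0)).1 h
  have h3 : s' ^ 2 ∣ f := (hcop.pow (m := 2) (n := 2)).dvd_of_dvd_mul_left h2
  have h4 : IsUnit s' := hf s' (by rw [← pow_two]; exact h3)
  rw [hs', hq']
  exact mul_dvd_mul_left d h4.dvd

theorem Hyp.integral (S : Hyp F g) {h : F} (hh : IsIntegral (Algebra.adjoin ℂ {S.x}) h) :
    ∃ p q : ℂ[X], h = aeval S.x p + aeval S.x q * S.y := by
  obtain ⟨m, hm, hm0⟩ := hint_monic hh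
  letI algF : Algebra ℂ[X] F := ((aeval S.x : ℂ[X] →ₐ[ℂ] F).toRingHom).toAlgebra
  have halg : ∀ p : ℂ[X], algebraMap ℂ[X] F p = aeval S.x p := fun p => rfl
  have hinj : Function.Injective (algebraMap ℂ[X] F) := by
    rw [injective_iff_map_eq_zero]
    intro p hp
    exact (transcendental_iff.1 S.trans) p hp
  haveI : FaithfulSMul ℂ[X] F := (faithfulSMul_iff_algebraMap_injective ℂ[X] F).2 hinj
  letI algK : Algebra (FractionRing ℂ[X]) F := FractionRing.liftAlgebra ℂ[X] F
  haveI : IsScalarTower ℂ[X] (FractionRing ℂ[X]) F := FractionRing.isScalarTower_liftAlgebra ℂ[X] F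
  have hint : IsIntegral ℂ[X] h := ⟨m, hm, hm0⟩
  have hKinj : Function.Injective (algebraMap (FractionRing ℂ[X]) F) :=
    (algebraMap (FractionRing ℂ[X]) F).injective
  have htow : ∀ p : ℂ[X], algebraMap (FractionRing ℂ[X]) F (algebraMap ℂ[X] (FractionRing ℂ[X]) p) =
      aeval S.x p := fun p => by
    rw [← IsScalarTower.algebraMap_apply]
    rfl
  -- the case `h ∈ K`
  by_cases hK : ∃ r : FractionRing ℂ[X], algebraMap (FractionRing ℂ[X]) F r = h
  · obtain ⟨r, hr⟩ := hK
    have h1 : IsIntegral ℂ[X] r := by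
      rw [← hr] at hint
      exact (isIntegral_algebraMap_iff hKinj).1 hint
    obtain ⟨a, ha⟩ := IsIntegrallyClosed.isIntegral_iff.1 h1
    refine ⟨a, 0, ?_⟩
    rw [map_zero, zero_mul, add_zero, ← hr, ← ha, htow]
  · obtain ⟨p, q, s, hs, hrep⟩ := S.rep h
    set i : ℂ[X] →+* FractionRing ℂ[X] := algebraMap ℂ[X] (FractionRing ℂ[X]) with hi
    have hiinj : Function.Injective i := IsFractionRing.injective ℂ[X] (FractionRing ℂ[X])
    have his : i s ≠ 0 := fun h0 => hs (hiinj (by rw [h0, map_zero]))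
    have hsx : aeval S.x s ≠ 0 := fun h0 => hs (hinj (by rw [halg, h0, map_zero]))
    set Q : (FractionRing ℂ[X])[X] := X ^ 2 + C (-(2 * i p / i s)) * X +
      C ((i p ^ 2 - i q ^ 2 * i S.f) / i s ^ 2) with hQ
    have hQdeg : Q.natDegree = 2 := by
      rw [hQ]
      compute_degree!
    have hQm : Q.Monic := by
      rw [hQ]
      monicity!
    have hQh : aeval h Q = 0 := by
      rw [hQ]
      simp only [map_add, map_mul, map_pow, aeval_X, aeval_C, map_neg, map_div₀, map_sub,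
        map_ofNat, htow]
      have h2 : h * aeval S.x s - aeval S.x p = aeval S.x q * S.y := by
        rw [hrep]; ring
      have h3 : (h * aeval S.x s - aeval S.x p) ^ 2 = aeval S.x q ^ 2 * aeval S.x S.f := by
        rw [h2, mul_pow, S.eqn]
      field_simp
      linear_combination h3
    have hmp := minpoly.isIntegrallyClosed_eq_field_fractions' (FractionRing ℂ[X]) hint
    have hdvd : minpoly (FractionRing ℂ[X]) h ∣ Q := minpoly.dvd _ _ hQh
    have hintK : IsIntegral (FractionRing ℂ[X]) h := hint.tower_top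
    have hdeg : (minpoly (FractionRing ℂ[X]) h).natDegree = 2 := by
      have h4 := natDegree_le_of_dvd hdvd hQm.ne_zero
      have h5 := minpoly.natDegree_pos hintK
      rw [hQdeg] at h4
      by_contra h6
      have h7 : (minpoly (FractionRing ℂ[X]) h).natDegree = 1 := by omega
      have h8 := minpoly.mem_range_of_degree_eq_one (FractionRing ℂ[X]) h
        ((degree_eq_iff_natDegree_eq_of_pos one_pos).2 h7)
      exact hK h8
    have hmQ : minpoly (FractionRing ℂ[X]) h = Q :=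
      (eq_of_monic_of_dvd_of_natDegree_le (minpoly.monic hintK) hQm hdvd (by rw [hdeg, hQdeg])).symm
    rw [hmQ] at hmp
    -- coefficients
    have hc1 : i ((minpoly ℂ[X] h).coeff 1) = -(2 * i p / i s) := by
      have h4 := congrArg (fun P => P.coeff 1) hmp
      simp only [coeff_map] at h4
      rw [← h4, hQ]
      simp [coeff_X]
    have hc0 : i ((minpoly ℂ[X] h).coeff 0) = (i p ^ 2 - i q ^ 2 * i S.f) / i s ^ 2 := by
      have h4 := congrArg (fun P => P.coeff 0) hmp
      simp only [coeff_map] at h4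
      rw [← h4, hQ]
      simp
    set a := (minpoly ℂ[X] h).coeff 1 with ha
    set b := (minpoly ℂ[X] h).coeff 0 with hb
    have e1 : 2 * p = - a * s := by
      apply hiinj
      rw [map_mul, map_mul, map_neg, hc1, map_ofNat]
      field_simp
    have e0 : p ^ 2 - q ^ 2 * S.f = b * s ^ 2 := by
      apply hiinj
      rw [map_sub, map_mul, map_mul, map_pow, map_pow, map_pow, hc0]
      field_simp
    have h2u : (C (1 / 2 : ℂ)) * 2 = (1 : ℂ[X]) := by
      have h5 : (2 : ℂ[X]) = C 2 := rfl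
      rw [h5, ← C_mul]
      norm_num
    have e2 : p = s * (C (1 / 2 : ℂ) * (-a)) := by
      calc p = (C (1 / 2 : ℂ) * 2) * p := by rw [h2u, one_mul]
        _ = C (1 / 2 : ℂ) * (2 * p) := by ring
        _ = _ := by rw [e1]; ring
    set p' := C (1 / 2 : ℂ) * (-a) with hp'
    have h6 : s ^ 2 ∣ q ^ 2 * S.f := ⟨p' ^ 2 - b, by
      have : q ^ 2 * S.f = p ^ 2 - b * s ^ 2 := by rw [← e0]; ring
      rw [this, e2]
      ring⟩
    obtain ⟨q', hq'⟩ := hint_sq S.sqf hs h6
    refine ⟨p', q', ?_⟩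
    apply mul_right_cancel₀ hsx
    have e3 := congrArg (aeval S.x) e2
    have e4 := congrArg (aeval S.x) hq'
    rw [map_mul] at e3 e4
    rw [hrep, e3, e4]
    ring

theorem Hyp.no_pole (hF : IsFF F) (S : Hyp F g) {h : F}
    (hh : ∀ P : Pt F, 0 ≤ P.ord S.x → 0 ≤ P.ord h) :
    ∃ p q : ℂ[X], h = aeval S.x p + aeval S.x q * S.y := by
  apply S.integral
  by_contra hn
  obtain ⟨P, h1, h2⟩ := exists_pt hF S.trans hn
  exact absurd (hh P h1) (not_le.2 h2)

end

end Pool.H29.BN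

end S_BN_HypInt

section S_BN_HypL

/-!
# HL: the spaces `L(n ∞)` on `y² = f(x)`

Let `∞` be a point with `ord x < 0`; then (`inf_ord`, `inf_unique`) `ord x = -2`, `ord y = -(2g+1)` and all other points
have `ord x ≥ 0` (hence `ord y ≥ 0` from `y² = f(x)`).  By `no_pole` and `inf_comb`:
`L(n ∞) = {p(x) + q(x) y : p = 0 or 2 deg p ≤ n; q = 0 or 2 deg q + 2g+1 ≤ n}` (finite dimensional).
For `n = 2g`: `q = 0`, `deg p ≤ g`: dimension `g + 1`.  For `n = 2M`, `M ≥ g`: dimension
`(M + 1) + (M - g)`.  The functions `1, x, ..., x^(d/2)` are in `L(d ∞)`.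
-/

namespace Pool.H29.BN

open Polynomial Module

noncomputable section

variable {F : Type} [Field F] [Algebra ℂ F] {g : ℕ}

/-- the map `(p, q) ↦ p(x) + q(x) y` -/
def hlMap (S : Hyp F g) (m k : ℕ) : (degreeLT ℂ m × degreeLT ℂ k) →ₗ[ℂ] F :=
  LinearMap.coprod ((aeval S.x).toLinearMap ∘ₗ (degreeLT ℂ m).subtype)
    (LinearMap.mulRight ℂ S.y ∘ₗ (aeval S.x).toLinearMap ∘ₗ (degreeLT ℂ k).subtype)

theorem hlMap_apply (S : Hyp F g) (m k : ℕ) (u : degreeLT ℂ m × degreeLT ℂ k) :
    hlMap S m k u = aeval S.x (u.1 : ℂ[X]) + aeval S.x (u.2 : ℂ[X]) * S.y := rfl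

theorem hl_finrank (m : ℕ) : Module.Finite ℂ (degreeLT ℂ m) ∧ finrank ℂ (degreeLT ℂ m) = m := by
  refine ⟨Module.Finite.equiv (degreeLTEquiv ℂ m).symm, ?_⟩
  rw [(degreeLTEquiv ℂ m).finrank_eq, finrank_fin_fun]

theorem hl_comb_mem (S : Hyp F g) (P : Pt F) (hP : P.ord S.x < 0) {p q : ℂ[X]} {n : ℕ}
    (hp : p ≠ 0 → 2 * p.natDegree ≤ n) (hq : q ≠ 0 → 2 * q.natDegree + (2 * g + 1) ≤ n) :
    aeval S.x p + aeval S.x q * S.y ∈ LL (Finsupp.single P (n : ℤ)) := by
  rw [mem_LL]
  intro hne Q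
  by_cases hQP : Q = P
  · subst hQP
    rw [Finsupp.single_eq_same]
    obtain ⟨hx, hy⟩ := S.inf_ord Q hP
    have h1 : -(n : ℤ) ≤ Q.ord (aeval S.x p + aeval S.x q * S.y) := by
      refine Q.le_ord_add _ hne (fun h => ?_) (fun h => ?_)
      · have hp0 : p ≠ 0 := by
          rintro rfl
          exact h (map_zero _)
        rw [(Q.ord_aeval_pole hP hp0).2, hx]
        have := hp hp0
        omega
      · have hq0 : q ≠ 0 := by
          rintro rfl
          exact h (by rw [map_zero, zero_mul])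
        rw [Q.ord_mul _ _ (Q.ord_aeval_pole hP hq0).1 S.y_ne, (Q.ord_aeval_pole hP hq0).2, hx, hy]
        have := hq hq0
        omega
    linarith
  · rw [Finsupp.single_eq_of_ne hQP, add_zero]
    have hx : 0 ≤ Q.ord S.x := by
      by_contra h
      exact hQP (S.inf_unique Q P (not_le.1 h) hP)
    have hy : 0 ≤ Q.ord S.y := by
      have h1 : Q.ord (S.y ^ 2) = 2 * Q.ord S.y := by
        rw [Q.ord_pow]; rfl
      rw [S.eqn] at h1
      have h2 := Q.ord_aeval_nonneg hx S.f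
      omega
    refine Q.le_ord_add _ hne (fun _ => Q.ord_aeval_nonneg hx p) (fun h => ?_)
    rw [Q.ord_mul _ _ (left_ne_zero_of_mul h) (right_ne_zero_of_mul h)]
    exact add_nonneg (Q.ord_aeval_nonneg hx q) hy

theorem hl_mem_comb (hF : IsFF F) (S : Hyp F g) (P : Pt F) (hP : P.ord S.x < 0) {n : ℕ} {h : F}
    (hh : h ∈ LL (Finsupp.single P (n : ℤ))) : ∃ p q : ℂ[X],
      h = aeval S.x p + aeval S.x q * S.y ∧ (p ≠ 0 → 2 * p.natDegree ≤ n) ∧
        (q ≠ 0 → 2 * q.natDegree + (2 * g + 1) ≤ n) := by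
  by_cases h0 : h = 0
  · exact ⟨0, 0, by rw [h0, map_zero, zero_mul, add_zero], fun h => absurd rfl h,
      fun h => absurd rfl h⟩
  rw [mem_LL] at hh
  have hh' := hh h0
  obtain ⟨p, q, hpq⟩ := S.no_pole hF (h := h) (fun Q hQ => by
    have hQP : Q ≠ P := by
      rintro rfl
      omega
    have h1 := hh' Q
    rwa [Finsupp.single_eq_of_ne hQP, add_zero] at h1)
  have h2 := hh' P
  rw [Finsupp.single_eq_same, hpq] at h2
  obtain ⟨h3, h4⟩ := S.inf_comb P hP p q
  refine ⟨p, q, hpq, fun hp => ?_, fun hq => ?_⟩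
  · have := h3 hp
    omega
  · have := h4 hq
    omega

theorem hl_deg {p : ℂ[X]} {m : ℕ} (h : p ≠ 0 → p.natDegree < m) : p ∈ degreeLT ℂ m := by
  rw [mem_degreeLT]
  by_cases hp : p = 0
  · rw [hp, degree_zero]
    exact WithBot.bot_lt_coe m
  · rw [degree_eq_natDegree hp]
    exact_mod_cast h hp

theorem Hyp.fin_inf (hF : IsFF F) (S : Hyp F g) (P : Pt F) (hP : P.ord S.x < 0) (n : ℕ) :
    FiniteDimensional ℂ (LL (Finsupp.single P (n : ℤ))) := by
  have := (hl_finrank (n + 1)).1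
  have h1 : LL (Finsupp.single P (n : ℤ)) ≤ LinearMap.range (hlMap S (n + 1) (n + 1)) := by
    intro h hh
    obtain ⟨p, q, hpq, hp, hq⟩ := hl_mem_comb hF S P hP hh
    refine ⟨(⟨p, hl_deg fun h => ?_⟩, ⟨q, hl_deg fun h => ?_⟩), ?_⟩
    · have := hp h; omega
    · have := hq h; omega
    · rw [hlMap_apply, hpq]
  exact Submodule.finiteDimensional_of_le h1

theorem Hyp.ell_inf_le (hF : IsFF F) (S : Hyp F g) (P : Pt F) (hP : P.ord S.x < 0) :
    ell (Finsupp.single P ((2 * g : ℕ) : ℤ)) ≤ g + 1 := by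
  obtain ⟨h0, hf0⟩ := hl_finrank (g + 1)
  obtain ⟨h0', hf0'⟩ := hl_finrank 0
  have h1 : LL (Finsupp.single P ((2 * g : ℕ) : ℤ)) ≤ LinearMap.range (hlMap S (g + 1) 0) := by
    intro h hh
    obtain ⟨p, q, hpq, hp, hq⟩ := hl_mem_comb hF S P hP hh
    have hq0 : q = 0 := by
      by_contra hne
      have := hq hne
      omega
    refine ⟨(⟨p, hl_deg fun h => ?_⟩, 0), ?_⟩
    · have := hp h; omega
    · rw [hlMap_apply, hpq, hq0]
      rfl
  unfold ell
  calc finrank ℂ (LL (Finsupp.single P ((2 * g : ℕ) : ℤ)))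
      ≤ finrank ℂ (LinearMap.range (hlMap S (g + 1) 0)) := Submodule.finrank_mono h1
    _ ≤ finrank ℂ (degreeLT ℂ (g + 1) × degreeLT ℂ 0) := LinearMap.finrank_range_le _
    _ = g + 1 := by rw [finrank_prod, hf0, hf0', add_zero]

theorem hl_le (hF : IsFF F) (S : Hyp F g) (P : Pt F) (hP : P.ord S.x < 0) (n m k : ℕ)
    (hm : 2 * (m - 1) ≤ n) (hk : k = 0 ∨ 2 * (k - 1) + (2 * g + 1) ≤ n) :
    m + k ≤ ell (Finsupp.single P (n : ℤ)) := by
  obtain ⟨h0, hf0⟩ := hl_finrank m
  obtain ⟨h0', hf0'⟩ := hl_finrank k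
  have hfin := S.fin_inf hF P hP n
  have hmem : ∀ u, hlMap S m k u ∈ LL (Finsupp.single P (n : ℤ)) := by
    intro u
    rw [hlMap_apply]
    refine hl_comb_mem S P hP (fun h => ?_) (fun h => ?_)
    · have h1 := mem_degreeLT.1 u.1.2
      rw [degree_eq_natDegree h] at h1
      have h2 : (u.1 : ℂ[X]).natDegree < m := by exact_mod_cast h1
      omega
    · have h1 := mem_degreeLT.1 u.2.2
      rw [degree_eq_natDegree h] at h1
      have h2 : (u.2 : ℂ[X]).natDegree < k := by exact_mod_cast h1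
      omega
  have hinj : Function.Injective ((hlMap S m k).codRestrict _ hmem) := by
    rw [injective_iff_map_eq_zero]
    intro u hu
    have h1 : hlMap S m k u = 0 := congrArg Subtype.val hu
    rw [hlMap_apply] at h1
    by_contra hne
    have h2 : (u.1 : ℂ[X]) ≠ 0 ∨ (u.2 : ℂ[X]) ≠ 0 := by
      by_contra h3
      push Not at h3
      exact hne (Prod.ext (Subtype.ext h3.1) (Subtype.ext h3.2))
    exact S.comb_ne h2 h1
  have h1 := LinearMap.finrank_le_finrank_of_injective hinj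
  rwa [finrank_prod, hf0, hf0'] at h1

theorem Hyp.le_ell_inf (hF : IsFF F) (S : Hyp F g) (P : Pt F) (hP : P.ord S.x < 0) (M : ℕ)
    (hM : g ≤ M) : (2 * M + 1 : ℤ) - g ≤ ell (Finsupp.single P ((2 * M : ℕ) : ℤ)) := by
  have h := hl_le hF S P hP (2 * M) (M + 1) (M - g) (by omega) (by omega)
  omega

theorem Hyp.le_ell_inf' (hF : IsFF F) (S : Hyp F g) (P : Pt F) (hP : P.ord S.x < 0) (d : ℕ) :
    d / 2 + 1 ≤ ell (Finsupp.single P (d : ℤ)) := by
  exact hl_le hF S P hP d (d / 2 + 1) 0 (by omega) (Or.inl rfl)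

end

end Pool.H29.BN

end S_BN_HypL

section S_BN_HypR

/-!
# HR: Riemann's inequality on `y² = f(x)`

Let `D` be a divisor, `∞` the point with `ord x < 0`.  For `P ≠ ∞` in the support of `D` there is
`a P` with `ord_P (x - a P) > 0` (`Pt.residue`; `x` is not constant).  Let `u = ∏ (x - a P)^(max (D P) 0)` (over the support of
`D`, without `∞`), `m` the number of factors.  `ord_∞ u = -2m`; the other zeros of `u`: a finite set, with
`∑ ord ≤ 2m` (`fin_sum`).  Let `E = D - div u` (as a `Finsupp`), so `deg E ≥ deg D`; `E P ≤ 0` for `P ≠ ∞`.  Multiplication by `u⁻¹`...: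
`ell E ≤ ell D` by `ell_le_of_mul`.  For `M` large `E ≤ 2M ∞`, so by `ell_le`
`2M + 1 - g ≤ ell (2M ∞) ≤ ell E + 2M - deg E`.
-/

namespace Pool.H29.BN

open Polynomial Module

noncomputable section

variable {F : Type} [Field F] [Algebra ℂ F] {g : ℕ}

theorem hr_ne (S : Hyp F g) (a : ℂ) : S.x - algebraMap ℂ F a ≠ 0 := by
  intro h
  have h1 : aeval S.x (X - C a) = 0 := by
    rw [map_sub, aeval_X, aeval_C]
    exact h
  exact X_sub_C_ne_zero a ((transcendental_iff.1 S.trans) _ h1)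

theorem hr_ord_sub_nonneg (P : Pt F) {x : F} (a : ℂ) (hx : 0 ≤ P.ord x) :
    0 ≤ P.ord (x - algebraMap ℂ F a) := by
  have h := P.ord_aeval_nonneg hx (X - C a)
  rwa [map_sub, aeval_X, aeval_C] at h

theorem hr_ord_sub_pole (P : Pt F) {x : F} (a : ℂ) (hx : P.ord x < 0) :
    P.ord (x - algebraMap ℂ F a) = P.ord x := by
  have h := (P.ord_aeval_pole hx (X_sub_C_ne_zero a)).2
  rw [map_sub, aeval_X, aeval_C, natDegree_X_sub_C] at h
  rw [h]
  simp

/-- the divisor of `x - a` as a `Finsupp`, of degree at most `0` -/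
theorem Hyp.div_sub (S : Hyp F g) (a : ℂ) :
    ∃ E : Dv F, (∀ P, E P = P.ord (S.x - algebraMap ℂ F a)) ∧ ((∃ P : Pt F, P.ord S.x < 0) →
      deg E ≤ 0) := by
  classical
  have hfin : (Function.support fun P : Pt F => P.ord (S.x - algebraMap ℂ F a)).Finite := by
    have h1 : {P : Pt F | P.ord S.x < 0}.Finite := by
      apply Set.Subsingleton.finite
      intro P hP Q hQ
      exact S.inf_unique P Q hP hQ
    refine ((S.fin_finite a).union h1).subset ?_
    intro P hP
    rw [Function.mem_support] at hP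
    by_cases hx : P.ord S.x < 0
    · exact Or.inr hx
    · left
      exact lt_of_le_of_ne (hr_ord_sub_nonneg P a (not_lt.1 hx)) (Ne.symm hP)
  refine ⟨Finsupp.ofSupportFinite _ hfin, fun P => rfl, ?_⟩
  rintro ⟨P, hP⟩
  set E : Dv F := Finsupp.ofSupportFinite _ hfin with hE
  have hEa : ∀ Q, E Q = Q.ord (S.x - algebraMap ℂ F a) := fun Q => rfl
  have hPE : E P = -2 := by
    rw [hEa, hr_ord_sub_pole P a hP, (S.inf_ord P hP).1]
  have hPs : P ∈ E.support := by
    rw [Finsupp.mem_support_iff, hPE]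
    norm_num
  unfold deg
  rw [Finsupp.sum, ← Finset.add_sum_erase _ _ hPs, hPE]
  have h1 : ∑ Q ∈ E.support.erase P, E Q ≤
      ∑ Q ∈ E.support.erase P, max (Q.ord (S.x - algebraMap ℂ F a)) 0 :=
    Finset.sum_le_sum fun Q _ => le_max_left _ _
  have h2 := S.fin_sum a (E.support.erase P)
  linarith

theorem hr_prod (P : Pt F) {ι : Type} (s : Finset ι) (f : ι → F) (n : ι → ℕ)
    (hf : ∀ i ∈ s, f i ≠ 0) :
    (∏ i ∈ s, f i ^ n i) ≠ 0 ∧ P.ord (∏ i ∈ s, f i ^ n i) = ∑ i ∈ s, n i * P.ord (f i) := by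
  classical
  induction s using Finset.induction_on with
  | empty =>
    rw [Finset.prod_empty, Finset.sum_empty]
    exact ⟨one_ne_zero, P.ord_one'⟩
  | insert a s ha ih =>
    obtain ⟨h1, h2⟩ := ih fun i hi => hf i (Finset.mem_insert_of_mem hi)
    have h3 : f a ^ n a ≠ 0 := pow_ne_zero _ (hf a (Finset.mem_insert_self a s))
    rw [Finset.prod_insert ha, Finset.sum_insert ha]
    exact ⟨mul_ne_zero h3 h1, by rw [P.ord_mul _ _ h3 h1, h2, P.ord_pow]⟩

theorem hr_deg_sum {ι : Type} (s : Finset ι) (E : ι → Dv F) (n : ι → ℕ)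
    (h : ∀ i ∈ s, deg (E i) ≤ 0) : deg (∑ i ∈ s, n i • E i) ≤ 0 := by
  classical
  have hnsmul : ∀ (k : ℕ) (A : Dv F), deg A ≤ 0 → deg (k • A) ≤ 0 := by
    intro k A hA
    induction k with
    | zero =>
      rw [zero_smul]
      unfold deg
      rw [Finsupp.sum_zero_index]
    | succ k ih =>
      rw [succ_nsmul, deg_add]
      linarith
  induction s using Finset.induction_on with
  | empty =>
    rw [Finset.sum_empty]
    unfold deg
    rw [Finsupp.sum_zero_index]
  | insert a s ha ih =>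
    rw [Finset.sum_insert ha, deg_add]
    have h1 := ih fun i hi => h i (Finset.mem_insert_of_mem hi)
    have h2 := hnsmul (n a) (E a) (h a (Finset.mem_insert_self a s))
    linarith

theorem Hyp.riemann (hF : IsFF F) (S : Hyp F g) (P : Pt F) (hP : P.ord S.x < 0) (D : Dv F) :
    deg D + 1 - g ≤ ell D := by
  classical
  have hne : ∀ Q : Pt F, Q ≠ P → 0 ≤ Q.ord S.x := by
    intro Q hQ
    by_contra h
    exact hQ (S.inf_unique Q P (not_le.1 h) hP)
  -- the value of `x` at the points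
  have hval : ∀ Q : Pt F, ∃ a : ℂ, Q ≠ P → 0 < Q.ord (S.x - algebraMap ℂ F a) := by
    intro Q
    by_cases hQ : Q = P
    · exact ⟨0, fun h => absurd hQ h⟩
    · obtain ⟨c, hc | hc⟩ := Q.residue hF S.x (hne Q hQ)
      · exact absurd (sub_eq_zero.2 hc) (hr_ne S c)
      · exact ⟨c, fun _ => hc⟩
  choose a ha using hval
  choose E hE hEdeg using fun c : ℂ => S.div_sub c
  set s : Finset (Pt F) := D.support.erase P with hs
  set n : Pt F → ℕ := fun Q => (D Q).toNat with hn
  set u : F := ∏ Q ∈ s, (S.x - algebraMap ℂ F (a Q)) ^ n Q with hu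
  set U : Dv F := ∑ Q ∈ s, n Q • E (a Q) with hU
  have hu0 : u ≠ 0 := (hr_prod P s _ n fun Q _ => hr_ne S (a Q)).1
  have hUu : ∀ R, U R = R.ord u := by
    intro R
    rw [hu, (hr_prod R s _ n fun Q _ => hr_ne S (a Q)).2, hU, Finsupp.finset_sum_apply]
    refine Finset.sum_congr rfl fun Q _ => ?_
    rw [Finsupp.smul_apply, hE, nsmul_eq_mul]
  have hUdeg : deg U ≤ 0 := hr_deg_sum s (fun Q => E (a Q)) n fun Q _ => hEdeg _ ⟨P, hP⟩
  have hUge : ∀ R, R ≠ P → D R ≤ U R := by
    intro R hR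
    rw [hUu, hu, (hr_prod R s _ n fun Q _ => hr_ne S (a Q)).2]
    have hterm : ∀ Q ∈ s, 0 ≤ (n Q : ℤ) * R.ord (S.x - algebraMap ℂ F (a Q)) := fun Q _ =>
      mul_nonneg (Nat.cast_nonneg _) (hr_ord_sub_nonneg R (a Q) (hne R hR))
    by_cases hRs : R ∈ s
    · have h1 := Finset.single_le_sum hterm hRs
      refine le_trans ?_ h1
      have h2 : D R ≤ (n R : ℤ) := Int.self_le_toNat (D R)
      have h3 : 1 ≤ R.ord (S.x - algebraMap ℂ F (a R)) := ha R hR
      have h4 : (0 : ℤ) ≤ n R := Nat.cast_nonneg _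
      nlinarith
    · have h1 : D R = 0 := by
        rw [hs, Finset.mem_erase, not_and] at hRs
        exact Finsupp.notMem_support_iff.1 (hRs hR)
      rw [h1]
      exact Finset.sum_nonneg hterm
  set B : Dv F := D - U with hB
  have hBR : ∀ R, B R = D R - U R := fun R => Finsupp.sub_apply _ _ _
  set M : ℕ := g + (B P).toNat with hM
  have hBM : B ≤ Finsupp.single P ((2 * M : ℕ) : ℤ) := by
    intro R
    by_cases hR : R = P
    · subst hR
      rw [Finsupp.single_eq_same]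
      have := Int.self_le_toNat (B R)
      push_cast
      omega
    · rw [Finsupp.single_eq_of_ne hR, hBR]
      linarith [hUge R hR]
  have hfinM := S.fin_inf hF P hP (2 * M)
  have hfinB : FiniteDimensional ℂ (LL B) :=
    Submodule.finiteDimensional_of_le (LL_mono hBM)
  have hfinD : FiniteDimensional ℂ (LL D) :=
    (ell_le_of_mul (A := B) (B := D) u hu0 (fun R => by rw [hBR, ← hUu]; linarith) hfinB).1
  have h1 : ell B ≤ ell D :=
    (ell_le_of_mul (A := D) (B := B) u⁻¹ (inv_ne_zero hu0) (fun R => by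
      rw [hBR, R.ord_inv, ← hUu]
      linarith) hfinD).2
  have h2 := (ell_le hF hBM hfinB).2
  rw [deg_sub, deg_single] at h2
  have h3 := S.le_ell_inf hF P hP M (by omega)
  have h4 : deg B = deg D - deg U := deg_sub D U
  have h5 : (ell B : ℤ) ≤ ell D := by exact_mod_cast h1
  push_cast at h2 h3
  linarith

end

end Pool.H29.BN

end S_BN_HypR

section S_BN_HypEx

/-!
# HEX: construction of the hyperelliptic function field

`K = RatFunc ℂ`, `f = X^(2g+1) - 1` (squarefree, separable), `F = AdjoinRoot (X^2 - C (f : K))`, irreducible as `f` is not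
a square in `K` (odd degree: `RatFunc.intDegree`).  `IsFF`: `F` is finite over `K`, which is a localisation of
`ℂ[X]`, so essentially of finite type; `Algebra.trdeg ℂ F = 1` as `x` is a transcendence basis.
`rep`: every element of `F` is `u + v y`, `u, v ∈ K`; common denominator.
-/

namespace Pool.H29.BN

open Polynomial

noncomputable section

/-- the polynomial `x^(2g+1) - 1` -/
def hexf (g : ℕ) : ℂ[X] := X ^ (2 * g + 1) - C 1

theorem hexf_deg (g : ℕ) : (hexf g).natDegree = 2 * g + 1 := natDegree_X_pow_sub_C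

theorem hexf_ne (g : ℕ) : hexf g ≠ 0 := by
  intro h
  have := hexf_deg g
  rw [h, natDegree_zero] at this
  omega

theorem hexf_sqf (g : ℕ) : Squarefree (hexf g) := by
  apply Separable.squarefree
  unfold hexf
  exact separable_X_pow_sub_C (1 : ℂ) (by exact_mod_cast (by omega : 2 * g + 1 ≠ 0)) one_ne_zero

/-- `T² - f` -/
def hexP (g : ℕ) : (RatFunc ℂ)[X] := X ^ 2 - C (algebraMap ℂ[X] (RatFunc ℂ) (hexf g))

theorem hexP_irr (g : ℕ) : Irreducible (hexP g) := by
  refine X_pow_sub_C_irreducible_of_prime Nat.prime_two fun b hb => ?_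
  have hf0 : algebraMap ℂ[X] (RatFunc ℂ) (hexf g) ≠ 0 := by
    intro h
    exact hexf_ne g ((IsFractionRing.injective ℂ[X] (RatFunc ℂ)) (by rw [h, map_zero]))
  have hb0 : b ≠ 0 := by
    rintro rfl
    rw [zero_pow two_ne_zero] at hb
    exact hf0 hb.symm
  have h1 := congrArg RatFunc.intDegree hb
  rw [pow_two, RatFunc.intDegree_mul hb0 hb0, RatFunc.intDegree_polynomial, hexf_deg] at h1
  push_cast at h1
  omega

instance hexFact (g : ℕ) : Fact (Irreducible (hexP g)) := ⟨hexP_irr g⟩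

/-- the function field -/
abbrev HexF (g : ℕ) : Type := AdjoinRoot (hexP g)

theorem hexF_finite (g : ℕ) : Module.Finite (RatFunc ℂ) (HexF g) :=
  (AdjoinRoot.powerBasis (hexP_irr g).ne_zero).finite

theorem hexF_ff (g : ℕ) : IsFF (HexF g) := by
  have h0 : Module.Finite (RatFunc ℂ) (HexF g) := hexF_finite g
  have h1 : Algebra.EssFiniteType ℂ[X] (RatFunc ℂ) :=
    Algebra.EssFiniteType.of_isLocalization (RatFunc ℂ) (nonZeroDivisors ℂ[X])
  have h2 : Algebra.EssFiniteType ℂ (RatFunc ℂ) := Algebra.EssFiniteType.comp ℂ ℂ[X] (RatFunc ℂ)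
  refine ⟨Algebra.EssFiniteType.comp ℂ (RatFunc ℂ) (HexF g), ?_⟩
  have h3 := trdeg_add_eq ℂ ℂ[X] (A := RatFunc ℂ)
  have h4 : Algebra.IsAlgebraic ℂ[X] (RatFunc ℂ) :=
    IsLocalization.isAlgebraic (RatFunc ℂ) (nonZeroDivisors ℂ[X])
  rw [Polynomial.trdeg_of_isDomain, _root_.trdeg_eq_zero, add_zero] at h3
  have h5 : Algebra.IsAlgebraic (RatFunc ℂ) (HexF g) := Algebra.IsAlgebraic.of_finite _ _
  have h6 := trdeg_add_eq ℂ (RatFunc ℂ) (A := HexF g)
  rw [← h3, _root_.trdeg_eq_zero, add_zero] at h6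
  exact h6.symm

/-- the element `x` -/
def hexx (g : ℕ) : HexF g := algebraMap (RatFunc ℂ) (HexF g) RatFunc.X

theorem hex_aeval (g : ℕ) (p : ℂ[X]) :
    aeval (hexx g) p = algebraMap (RatFunc ℂ) (HexF g) (algebraMap ℂ[X] (RatFunc ℂ) p) := by
  unfold hexx
  rw [aeval_algebraMap_apply]
  congr 1
  have h1 : (RatFunc.X : RatFunc ℂ) = algebraMap ℂ[X] (RatFunc ℂ) X := RatFunc.algebraMap_X.symm
  rw [h1, aeval_algebraMap_apply, aeval_X_left_apply]

theorem hex_trans (g : ℕ) : Transcendental ℂ (hexx g) := by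
  rw [transcendental_iff]
  intro p hp
  rw [hex_aeval] at hp
  have h1 : algebraMap ℂ[X] (RatFunc ℂ) p = 0 :=
    (algebraMap (RatFunc ℂ) (HexF g)).injective (by rw [hp, map_zero])
  exact IsFractionRing.injective ℂ[X] (RatFunc ℂ) (by rw [h1, map_zero])

theorem hex_rep (g : ℕ) (h : HexF g) : ∃ p q s : ℂ[X], s ≠ 0 ∧
    h * aeval (hexx g) s = aeval (hexx g) p + aeval (hexx g) q * AdjoinRoot.root (hexP g) := by
  have hm : (hexP g).Monic := monic_X_pow_sub_C _ two_ne_zero
  have hdeg : (hexP g).natDegree = 2 := natDegree_X_pow_sub_C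
  obtain ⟨Q, hQ⟩ := AdjoinRoot.mk_surjective h
  have h1 : AdjoinRoot.mk (hexP g) (Q %ₘ hexP g) = h := by
    have h2 := AdjoinRoot.mk_leftInverse hm h
    rw [← hQ] at h2 ⊢
    rwa [AdjoinRoot.modByMonicHom_mk] at h2
  have h2 : (Q %ₘ hexP g).natDegree ≤ 1 := by
    have h3 := natDegree_modByMonic_lt Q hm (by
      intro h4
      rw [h4, natDegree_one] at hdeg
      omega)
    omega
  obtain ⟨b, a, hab⟩ := exists_eq_X_add_C_of_natDegree_le_one h2
  obtain ⟨p1, s1, hs1, ha⟩ := IsFractionRing.div_surjective (A := ℂ[X]) a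
  obtain ⟨q1, s2, hs2, hb⟩ := IsFractionRing.div_surjective (A := ℂ[X]) b
  have hs1' : s1 ≠ 0 := nonZeroDivisors.ne_zero hs1
  have hs2' : s2 ≠ 0 := nonZeroDivisors.ne_zero hs2
  have k1 : algebraMap ℂ[X] (RatFunc ℂ) s1 ≠ 0 := fun h0 =>
    hs1' (IsFractionRing.injective ℂ[X] (RatFunc ℂ) (by rw [h0, map_zero]))
  have k2 : algebraMap ℂ[X] (RatFunc ℂ) s2 ≠ 0 := fun h0 =>
    hs2' (IsFractionRing.injective ℂ[X] (RatFunc ℂ) (by rw [h0, map_zero]))
  refine ⟨p1 * s2, q1 * s1, s1 * s2, mul_ne_zero hs1' hs2', ?_⟩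
  rw [hex_aeval, hex_aeval, hex_aeval, ← h1, hab]
  have h3 : AdjoinRoot.mk (hexP g) (C b * X + C a) =
      algebraMap (RatFunc ℂ) (HexF g) b * AdjoinRoot.root (hexP g) +
        algebraMap (RatFunc ℂ) (HexF g) a := by
    rw [map_add, map_mul, AdjoinRoot.mk_X, AdjoinRoot.mk_C, AdjoinRoot.mk_C]
    rfl
  rw [h3]
  have e1 : a * algebraMap ℂ[X] (RatFunc ℂ) (s1 * s2) = algebraMap ℂ[X] (RatFunc ℂ) (p1 * s2) := by
    rw [← ha, map_mul, map_mul]
    field_simp
  have e2 : b * algebraMap ℂ[X] (RatFunc ℂ) (s1 * s2) = algebraMap ℂ[X] (RatFunc ℂ) (q1 * s1) := by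
    rw [← hb, map_mul, map_mul]
    field_simp
  rw [← e1, ← e2, map_mul (algebraMap (RatFunc ℂ) (HexF g)), map_mul (algebraMap (RatFunc ℂ) (HexF g))]
  ring

theorem exists_hyp (g : ℕ) : ∃ (F : Type) (_ : Field F) (_ : Algebra ℂ F),
    IsFF F ∧ Nonempty (Hyp F g) := by
  refine ⟨HexF g, inferInstance, inferInstance, hexF_ff g, ⟨?_⟩⟩
  exact
    { x := hexx g
      y := AdjoinRoot.root (hexP g)
      f := hexf g
      deg_f := hexf_deg g
      sqf := hexf_sqf g
      trans := hex_trans g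
      eqn := by
        rw [hex_aeval]
        have h1 : (hexP g).eval₂ (AdjoinRoot.of (hexP g)) (AdjoinRoot.root (hexP g)) = 0 :=
          AdjoinRoot.eval₂_root _
        unfold hexP at h1
        rw [eval₂_sub, eval₂_X_pow, eval₂_C, sub_eq_zero] at h1
        exact h1
      rep := hex_rep g }

end

end Pool.H29.BN

end S_BN_HypEx

section S_BN_Final

/-!
# FINAL: hyperelliptic curves have genus `g` and a `g^r_d` for all `d ≥ 2r`
-/

namespace Pool.H29.BN

open Polynomial Module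

noncomputable section

theorem exists_curve (g r d : ℕ) (hrd : 2 * r ≤ d) : ∃ (F : Type) (_ : Field F) (_ : Algebra ℂ F),
    IsFF F ∧ IsGenus F g ∧ HasGrd F r d := by
  obtain ⟨F, i1, i2, hF, ⟨S⟩⟩ := exists_hyp g
  refine ⟨F, i1, i2, hF, ?_, ?_⟩
  · obtain ⟨P, hP⟩ := exists_pole hF S.trans
    refine ⟨fun D => S.riemann hF P hP D, Finsupp.single P ((2 * g : ℕ) : ℤ), ?_⟩
    have h1 := S.ell_inf_le hF P hP
    have h2 := S.le_ell_inf hF P hP g le_rfl
    rw [deg_single]
    have h3 : (ell (Finsupp.single P ((2 * g : ℕ) : ℤ)) : ℤ) ≤ g + 1 := by exact_mod_cast h1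
    push_cast at h2 h3 ⊢
    linarith
  · obtain ⟨P, hP⟩ := exists_pole hF S.trans
    refine ⟨Finsupp.single P (d : ℤ), deg_single _ _, ?_⟩
    have := S.le_ell_inf' hF P hP d
    omega

end

end Pool.H29.BN

end S_BN_Final
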