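import Mathlib
import Pool.Agent.H29.CM.BnA

/-! Brill-Noether loci and Castelnuovo bound, part CbA: this file joins several modules to save build time. -/

section S_CB_Defs

/-!
# Castelnuovo's bound for function fields: definitions

`F` is a function field in one variable over `ℂ`, `E = F(u)` with `u` transcendental over `F`,
`z = y + u x` with `x, y ∈ F`, `k = ℂ(u)`, `K = ℂ(u, z)`.
-/

namespace Pool.H29.CB

open Polynomial Module Pool.H29.BN

noncomputable section

/-- `E / K` has no intermediate fields -/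
def Prim (K E : Type) [Field K] [Field E] [Algebra K E] : Prop :=
  ∀ M : IntermediateField K E, M = ⊥ ∨ M = ⊤

/-- Castelnuovo's number `π(d,r) = ∑_{k ≥ 1} max(0, d - k (r - 1) - 1)` (natural subtraction; for
`r ≥ 2` all terms with `k ≥ d` vanish). -/
def castel (d r : ℕ) : ℕ := ∑ k ∈ Finset.Icc 1 d, (d - k * (r - 1) - 1)

section

variable {F : Type} [Field F] [Algebra ℂ F]

/-- the field generated by the ratios of elements of `L(D)` -/
def RF (D : Dv F) : IntermediateField ℂ F :=
  IntermediateField.adjoin ℂ {h | ∃ a ∈ LL D, ∃ b ∈ LL D, b ≠ 0 ∧ h = a / b}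

variable (F) in
/-- `f ∈ ℂ[X][Y]` as a polynomial in `Y` over `F(X)` -/
def fX (f : ℂ[X][X]) : (RatFunc F)[X] :=
  (f.map (mapRingHom (algebraMap ℂ F))).map (algebraMap F[X] (RatFunc F))

variable {E : Type} [Field E] [Algebra ℂ E] [Algebra F E]

/-- `z = y + u x` -/
def zz (x y : F) (u : E) : E := algebraMap F E y + u * algebraMap F E x

/-- `k = ℂ(u)` -/
def kk (u : E) : IntermediateField ℂ E := IntermediateField.adjoin ℂ {u}

/-- `K = ℂ(u, z)`, `z = y + u x` -/
def KK (x y : F) (u : E) : IntermediateField ℂ E := IntermediateField.adjoin ℂ {u, zz x y u}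

theorem kk_le (x y : F) (u : E) : kk u ≤ KK x y u :=
  IntermediateField.adjoin.mono _ _ _ (by simp)

theorem u_mem_kk (u : E) : u ∈ kk u := IntermediateField.subset_adjoin _ _ (by simp)

theorem u_mem (x y : F) (u : E) : u ∈ KK x y u :=
  IntermediateField.subset_adjoin _ _ (by simp)

theorem z_mem (x y : F) (u : E) : zz x y u ∈ KK x y u :=
  IntermediateField.subset_adjoin _ _ (by simp)

end

end

end Pool.H29.CB

end S_CB_Defs

section S_CB_Lcd

/-!
# LCD: linear Cauchy-Davenport for extensions without intermediate fields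

`lcd`: strong induction on `finrank B`, for all `A`.  For nonzero `a ∈ A`, `b ∈ B` put `x = a / b`,
`A' = A + x B`, `B' = {β ∈ B | x β ∈ A}` (it contains `b`).  Then `A' B' ⊆ A B`
(`x B B' = B (x B') ⊆ B A`) and `dim A' + dim B' = dim A + dim B`
(`dim (A + xB) = dim A + dim B - dim (A ∩ xB)`, `A ∩ xB = x B'`).
If `B' ≠ B` for some choice of `a, b`: induction for `(A', B')`: either `A' B' = ⊤`, so `A B = ⊤`, or
`dim A + dim B = dim A' + dim B' ≤ dim A'B' + 1 ≤ dim AB + 1`.
Otherwise `(a / b) B ⊆ A` for all nonzero `a ∈ A, b ∈ B`.  If `dim B = 1`, `B = K b`, then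
`A B = b A` has the dimension of `A`.  If `dim B ≥ 2` take `b0 ∈ B` nonzero and `b1 ∈ B` not in
`K b0`; `t = b1 / b0` is not in `K` (`t ∉ (⊥ : IntermediateField K E)`), and `t A ⊆ A`.  As
`K⟮t⟯ ≠ ⊥` it is `⊤`.  `t` is integral over `K` (`A ≠ 0` is a finite dimensional faithful module over
`K[t]`, e.g. `LinearMap`/`isIntegral_of_mem_of_FG` or Cayley-Hamilton for multiplication by `t` on `A`), so
`Algebra.adjoin K {t} = ⊤` and every element of `E` maps `A` into `A`: `A = ⊤` (take `a0 ∈ A` nonzero,
`e = (e / a0) a0`), hence `A B = ⊤`.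

`lcd_pow`: induction on `n`, `W ^ (n+1) = W ^ n * W`; `W ^ 0 = 1` has dimension one; if `W ^ n = ⊤` then
`W ^ (n+1) = ⊤` as `1 ∈ W`.
-/

namespace Pool.H29.CB

open Polynomial Module Pool.H29.BN

noncomputable section

variable {K E : Type} [Field K] [Field E] [Algebra K E]

theorem fin_mul (A B : Submodule K E) [FiniteDimensional K A] [FiniteDimensional K B] :
    FiniteDimensional K ↥(A * B) := by
  rw [← Submodule.fg_iff_finiteDimensional] at *
  exact Submodule.FG.mul ‹_› ‹_›

private theorem lcd_inj (x : E) (hx : x ≠ 0) : Function.Injective (LinearMap.mulLeft K x) := by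
  intro y z h
  rw [LinearMap.mulLeft_apply, LinearMap.mulLeft_apply] at h
  exact mul_left_cancel₀ hx h

private theorem lcd_map (x : E) (hx : x ≠ 0) (C : Submodule K E) :
    finrank K ↥(C.map (LinearMap.mulLeft K x)) = finrank K C :=
  (LinearEquiv.finrank_eq (Submodule.equivMapOfInjective (LinearMap.mulLeft K x) (lcd_inj x hx)
    C)).symm

private theorem lcd_prod (A B : Submodule K E) (x : E) :
    (A ⊔ B.map (LinearMap.mulLeft K x)) * (B ⊓ A.comap (LinearMap.mulLeft K x)) ≤ A * B := by
  rw [Submodule.mul_le]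
  intro m hm n hn
  obtain ⟨a, ha, c, hc, rfl⟩ := Submodule.mem_sup.1 hm
  obtain ⟨b, hb, rfl⟩ := Submodule.mem_map.1 hc
  obtain ⟨hn1, hn2⟩ := Submodule.mem_inf.1 hn
  rw [Submodule.mem_comap, LinearMap.mulLeft_apply] at hn2
  rw [LinearMap.mulLeft_apply, add_mul]
  refine Submodule.add_mem _ (Submodule.mul_mem_mul ha hn1) ?_
  have h : x * b * n = x * n * b := by ring
  rw [h]
  exact Submodule.mul_mem_mul hn2 hb

private theorem lcd_dim (A B : Submodule K E) [FiniteDimensional K A] [FiniteDimensional K B]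
    (x : E) (hx : x ≠ 0) :
    finrank K ↥(A ⊔ B.map (LinearMap.mulLeft K x)) +
      finrank K ↥(B ⊓ A.comap (LinearMap.mulLeft K x)) = finrank K A + finrank K B := by
  have h1 := Submodule.finrank_sup_add_finrank_inf_eq A (B.map (LinearMap.mulLeft K x))
  have h2 : A ⊓ B.map (LinearMap.mulLeft K x) =
      (B ⊓ A.comap (LinearMap.mulLeft K x)).map (LinearMap.mulLeft K x) := by
    ext e
    simp only [Submodule.mem_inf, Submodule.mem_map, Submodule.mem_comap]
    constructor
    · rintro ⟨h, b, hb, rfl⟩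
      exact ⟨b, ⟨hb, h⟩, rfl⟩
    · rintro ⟨b, ⟨hb, h⟩, rfl⟩
      exact ⟨h, b, hb, rfl⟩
  have h3 : ∀ C : Submodule K E, finrank K ↥(C.map (LinearMap.mulLeft K x)) = finrank K C :=
    fun C => lcd_map x hx C
  rw [h2, h3, h3] at h1
  exact h1

/-- the stable case -/
private theorem lcd_stable (hp : Prim K E) (A B : Submodule K E) [FiniteDimensional K A]
    (hA : A ≠ ⊥) (b0 b1 : E) (hb0 : b0 ∈ B) (hb0' : b0 ≠ 0)
    (hb1' : b1 ∉ Submodule.span K {b0}) (h : ∀ a ∈ A, a / b0 * b1 ∈ A) : A * B = ⊤ := by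
  obtain ⟨a0, ha0, ha0'⟩ := Submodule.exists_mem_ne_zero_of_ne_bot hA
  have ht : ∀ a ∈ A, b1 / b0 * a ∈ A := by
    intro a ha
    have h1 := h a ha
    have h2 : b1 / b0 * a = a / b0 * b1 := by ring
    rw [h2]
    exact h1
  have hint : IsIntegral K (b1 / b0) :=
    isIntegral_of_smul_mem_submodule A hA ((Submodule.fg_iff_finiteDimensional A).2 ‹_›) _
      (fun n hn => by rw [smul_eq_mul]; exact ht n hn)
  have htop : IntermediateField.adjoin K {b1 / b0} = ⊤ := by
    rcases hp (IntermediateField.adjoin K {b1 / b0}) with h1 | h1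
    · exfalso
      rw [IntermediateField.adjoin_simple_eq_bot_iff, IntermediateField.mem_bot] at h1
      obtain ⟨c, hc⟩ := h1
      apply hb1'
      rw [Submodule.mem_span_singleton]
      refine ⟨c, ?_⟩
      rw [Algebra.smul_def, hc, div_mul_cancel₀ _ hb0']
    · exact h1
  have hadj : ∀ e : E, e ∈ Algebra.adjoin K {b1 / b0} := by
    intro e
    rw [← IntermediateField.adjoin_simple_toSubalgebra_of_isAlgebraic hint.isAlgebraic, htop]
    exact Algebra.mem_top
  have hstab : ∀ e : E, ∀ a ∈ A, e * a ∈ A := by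
    intro e
    refine Algebra.adjoin_induction (p := fun e _ => ∀ a ∈ A, e * a ∈ A) ?_ ?_ ?_ ?_ (hadj e)
    · intro y hy a ha
      rw [Set.mem_singleton_iff.1 hy]
      exact ht a ha
    · intro c a ha
      rw [← Algebra.smul_def]
      exact A.smul_mem c ha
    · intro y z _ _ hy hz a ha
      rw [add_mul]
      exact A.add_mem (hy a ha) (hz a ha)
    · intro y z _ _ hy hz a ha
      rw [mul_assoc]
      exact hy _ (hz a ha)
  have hAtop : ∀ e : E, e ∈ A := by
    intro e
    have h1 := hstab (e / a0) a0 ha0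
    rwa [div_mul_cancel₀ _ ha0'] at h1
  rw [eq_top_iff]
  intro e _
  have h1 := Submodule.mul_mem_mul (hAtop (e / b0)) hb0
  rwa [div_mul_cancel₀ _ hb0'] at h1

theorem lcd (hp : Prim K E) (A B : Submodule K E) [FiniteDimensional K A]
    [FiniteDimensional K B] (hA : A ≠ ⊥) (hB : B ≠ ⊥) :
    A * B = ⊤ ∨ finrank K A + finrank K B ≤ finrank K ↥(A * B) + 1 := by
  obtain ⟨n, hn⟩ : ∃ n, finrank K B = n := ⟨_, rfl⟩
  induction n using Nat.strong_induction_on generalizing A B with
  | _ n ih =>
    have hAB := fin_mul A B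
    by_cases hcase : ∃ a ∈ A, a ≠ 0 ∧ ∃ b ∈ B, b ≠ 0 ∧ ∃ β ∈ B, a / b * β ∉ A
    · obtain ⟨a, ha, ha0, b, hb, hb0, β, hβ, hβA⟩ := hcase
      have hx : a / b ≠ 0 := div_ne_zero ha0 hb0
      have hlt : B ⊓ A.comap (LinearMap.mulLeft K (a / b)) < B := by
        refine lt_of_le_of_ne inf_le_left ?_
        intro heq
        apply hβA
        rw [← heq] at hβ
        exact (Submodule.mem_inf.1 hβ).2
      have hlt2 : finrank K ↥(B ⊓ A.comap (LinearMap.mulLeft K (a / b))) < finrank K B :=
        Submodule.finrank_lt_finrank_of_lt hlt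
      have hA' : A ⊔ B.map (LinearMap.mulLeft K (a / b)) ≠ ⊥ := by
        intro h
        rw [sup_eq_bot_iff] at h
        exact hA h.1
      have hB' : B ⊓ A.comap (LinearMap.mulLeft K (a / b)) ≠ ⊥ := by
        intro h
        apply hb0
        have h1 : b ∈ B ⊓ A.comap (LinearMap.mulLeft K (a / b)) := by
          refine Submodule.mem_inf.2 ⟨hb, ?_⟩
          rw [Submodule.mem_comap, LinearMap.mulLeft_apply, div_mul_cancel₀ _ hb0]
          exact ha
        rw [h] at h1
        exact (Submodule.mem_bot K).1 h1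
      have hle := lcd_prod A B (a / b)
      have hdim := lcd_dim A B (a / b) hx
      rcases ih _ (by rw [← hn]; exact hlt2) _ _ hA' hB' rfl with h | h
      · left
        rw [eq_top_iff, ← h]
        exact hle
      · right
        have h2 := Submodule.finrank_mono hle
        omega
    · push Not at hcase
      obtain ⟨a0, ha0, ha0'⟩ := Submodule.exists_mem_ne_zero_of_ne_bot hA
      obtain ⟨b0, hb0, hb0'⟩ := Submodule.exists_mem_ne_zero_of_ne_bot hB
      by_cases hB1 : B ≤ Submodule.span K {b0}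
      · right
        have h1 : finrank K B ≤ 1 := by
          have h2 := Submodule.finrank_mono hB1
          rw [finrank_span_singleton hb0'] at h2
          exact h2
        have h3 : A.map (LinearMap.mulLeft K b0) ≤ A * B := by
          rintro _ ⟨a, ha, rfl⟩
          rw [LinearMap.mulLeft_apply, mul_comm b0 a]
          exact Submodule.mul_mem_mul ha hb0
        have h4 := Submodule.finrank_mono h3
        rw [lcd_map b0 hb0' A] at h4
        omega
      · left
        obtain ⟨b1, hb1, hb1'⟩ := SetLike.not_le_iff_exists.1 hB1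
        refine lcd_stable hp A B hA b0 b1 hb0 hb0' hb1' ?_
        intro a ha
        by_cases ha1 : a = 0
        · rw [ha1, zero_div, zero_mul]
          exact A.zero_mem
        · exact hcase a ha ha1 b0 hb0 hb0' b1 hb1

theorem fin_pow (W : Submodule K E) [FiniteDimensional K W] (n : ℕ) :
    FiniteDimensional K ↥(W ^ n) := by
  rw [← Submodule.fg_iff_finiteDimensional] at *
  exact Submodule.FG.pow ‹_› n

private theorem lcd_one_mem_pow (W : Submodule K E) (h1 : (1 : E) ∈ W) (n : ℕ) :
    (1 : E) ∈ W ^ n := by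
  induction n with
  | zero =>
    rw [pow_zero]
    exact Submodule.one_le.1 le_rfl
  | succ n ih =>
    rw [pow_succ]
    have := Submodule.mul_mem_mul ih h1
    rwa [mul_one] at this

theorem lcd_pow (hp : Prim K E) (W : Submodule K E) [FiniteDimensional K W] (h1 : (1 : E) ∈ W)
    (n : ℕ) : W ^ n = ⊤ ∨ n * (finrank K W - 1) + 1 ≤ finrank K ↥(W ^ n) := by
  have hW : W ≠ ⊥ := by
    intro h
    rw [h] at h1
    exact one_ne_zero ((Submodule.mem_bot K).1 h1)
  have hpow : ∀ n, W ^ n ≠ ⊥ := by
    intro n h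
    have h2 := lcd_one_mem_pow W h1 n
    rw [h] at h2
    exact one_ne_zero ((Submodule.mem_bot K).1 h2)
  have hfin : ∀ n, FiniteDimensional K ↥(W ^ n) := fin_pow W
  have hpos : ∀ V : Submodule K E, FiniteDimensional K V → V ≠ ⊥ → 1 ≤ finrank K V := by
    intro V _ hV
    exact Submodule.one_le_finrank_iff.2 hV
  induction n with
  | zero =>
    right
    have := hpos (W ^ 0) (hfin 0) (hpow 0)
    omega
  | succ n ih =>
    rw [pow_succ]
    rcases ih with h | h
    · left
      rw [eq_top_iff]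
      intro e _
      have h2 : e ∈ W ^ n := by rw [h]; exact Submodule.mem_top
      have h3 := Submodule.mul_mem_mul h2 h1
      rwa [mul_one] at h3
    · have _ := hfin n
      rcases lcd hp (W ^ n) W (hpow n) hW with h2 | h2
      · exact Or.inl h2
      · right
        have h3 := hpos W ‹_› hW
        have h4 : (n + 1) * (finrank K W - 1) = n * (finrank K W - 1) + (finrank K W - 1) := by
          ring
        omega

end

end Pool.H29.CB

end S_CB_Lcd

section S_CB_Mov

/-!
# MOV: an element outside the base field is moved by some embedding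

`L / K` algebraic, characteristic zero.  `minpoly K w` has degree `≥ 2` (`w ∉ ⊥`), is separable and splits
in `N = AlgebraicClosure L`, so it has a root `w' ≠ w` in `N`.  There is a `K`-embedding `K⟮w⟯ → N` with
`w ↦ w'` (`IntermediateField.algHomAdjoinIntegralEquiv`), and it extends to `L` as `L` is algebraic over
`K⟮w⟯` and `N` is algebraically closed (e.g. `IntermediateField.exists_algHom_of_splits...`,
`IsAlgClosed.surjective_restrictDomain_of_isAlgebraic`, or pass to the algebraic closure `N` of `K`, normal, and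
use `minpoly.exists_algEquiv_of_root'`).
-/

namespace Pool.H29.CB

theorem exists_moving {K L : Type} [Field K] [Field L] [CharZero K] [Algebra K L]
    [Algebra.IsAlgebraic K L] (w : L) (hw : w ∉ (⊥ : IntermediateField K L)) :
    ∃ σ : L →ₐ[K] AlgebraicClosure L, σ w ≠ algebraMap L (AlgebraicClosure L) w := by
  classical
  have hint : IsIntegral K w := Algebra.IsIntegral.isIntegral w
  have hsep : (minpoly K w).Separable := (minpoly.irreducible hint).separable
  have hsplit : ((minpoly K w).map (algebraMap K (AlgebraicClosure L))).Splits :=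
    IsAlgClosed.splits _
  have hcard := Polynomial.card_rootSet_eq_natDegree (K := AlgebraicClosure L) hsep hsplit
  have hdeg : 1 < (minpoly K w).natDegree := by
    by_contra hcon
    push Not at hcon
    have h1 := minpoly.natDegree_pos hint
    have h2 : (minpoly K w).natDegree = 1 := le_antisymm hcon h1
    have h3 := minpoly.natDegree_eq_one_iff.1 h2
    exact hw (IntermediateField.mem_bot.2 h3)
  rw [← hcard, ← Set.toFinset_card] at hdeg
  obtain ⟨w', hw', hne⟩ := Finset.exists_mem_ne hdeg (algebraMap L (AlgebraicClosure L) w)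
  rw [Set.mem_toFinset, Polynomial.mem_rootSet] at hw'
  let φ : IntermediateField.adjoin K {w} →ₐ[K] AlgebraicClosure L :=
    (IntermediateField.algHomAdjoinIntegralEquiv K hint).symm ⟨w', by
      rw [Polynomial.mem_aroots]
      exact hw'⟩
  have hφ : φ (IntermediateField.AdjoinSimple.gen K w) = w' :=
    IntermediateField.algHomAdjoinIntegralEquiv_symm_apply_gen K hint _
  obtain ⟨σ, hσ⟩ := IsAlgClosed.surjective_domRestrict_of_isAlgebraic (K := K)
    (L := IntermediateField.adjoin K {w}) (M := AlgebraicClosure L) (E := L) φ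
  refine ⟨σ, ?_⟩
  have h1 : σ w = w' := by
    rw [← hφ, ← hσ]
    rfl
  rw [h1]
  exact hne

end Pool.H29.CB

end S_CB_Mov

section S_CB_Stb

/-!
# STB: stabilisation

Let `Q n = L n / S n` (quotient of `L n` by `S n`), `q n = finrank (L n) - finrank (S n)` its dimension.
For `z ∈ V` multiplication by `z` induces `m_z : Q n → Q (n+1)`, surjective for `n ≥ n0`, `z ≠ 0`; so
`q (n+1) ≤ q n` for `n ≥ n0` and there is `n1 ≥ n0` with `q` constant on `n ≥ n1`.  For `n ≥ n1` and
`z ≠ 0` the map `m_z` is bijective.  Suppose `Q n ≠ 0` for some `n ≥ n1`.  Let `A = m_{z1}`,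
`B = m_{z2}`, both bijective `Q n → Q (n+1)`; the endomorphism `A⁻¹ B` of the nonzero finite dimensional
complex vector space `Q n` has an eigenvalue `c` (`Module.End.exists_eigenvalue`), so `(B - c A) v = 0` for
some `v ≠ 0`; but `B - c A = m_{z2 - c z1}` is injective as `z2 - c z1 ≠ 0` (independence).
Contradiction.  So `Q n = 0`, `S n = L n` for all `n ≥ n1`.
-/

namespace Pool.H29.CB

open Module

noncomputable section

/-- `S n` inside `L n` -/
abbrev stbS {F : Type} [Field F] [Algebra ℂ F] (S L : ℕ → Submodule ℂ F) (n : ℕ) :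
    Submodule ℂ (L n) := (S n).comap (L n).subtype

/-- multiplication by `z` on the quotients -/
def stbM {F : Type} [Field F] [Algebra ℂ F] (S L : ℕ → Submodule ℂ F) (n : ℕ) (z : F)
    (hS : ∀ s ∈ S n, z * s ∈ S (n + 1)) (hL : ∀ s ∈ L n, z * s ∈ L (n + 1)) :
    (L n ⧸ stbS S L n) →ₗ[ℂ] (L (n + 1) ⧸ stbS S L (n + 1)) :=
  Submodule.mapQ (stbS S L n) (stbS S L (n + 1))
    ((LinearMap.mulLeft ℂ z).restrict (p := L n) (q := L (n + 1)) hL)
    (fun _ hx => hS _ hx)

theorem stbM_mk {F : Type} [Field F] [Algebra ℂ F] (S L : ℕ → Submodule ℂ F) (n : ℕ) (z : F)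
    (hS : ∀ s ∈ S n, z * s ∈ S (n + 1)) (hL : ∀ s ∈ L n, z * s ∈ L (n + 1)) (x : L n) :
    stbM S L n z hS hL (Submodule.Quotient.mk x) =
      Submodule.Quotient.mk ⟨z * (x : F), hL _ x.2⟩ := rfl

theorem stb {F : Type} [Field F] [Algebra ℂ F] (S L : ℕ → Submodule ℂ F) (V : Submodule ℂ F)
    (hfin : ∀ n, FiniteDimensional ℂ (L n)) (hSL : ∀ n, S n ≤ L n)
    (hVS : ∀ n, ∀ z ∈ V, ∀ s ∈ S n, z * s ∈ S (n + 1))
    (hVL : ∀ n, ∀ z ∈ V, ∀ s ∈ L n, z * s ∈ L (n + 1)) (n0 : ℕ)
    (hsurj : ∀ n ≥ n0, ∀ z ∈ V, z ≠ 0 → ∀ f ∈ L (n + 1), ∃ a ∈ S (n + 1), ∃ b ∈ L n,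
      f = a + z * b) {z1 z2 : F} (hz1 : z1 ∈ V) (hz2 : z2 ∈ V) (h10 : z1 ≠ 0)
    (hind : ∀ c : ℂ, z2 - c • z1 ≠ 0) : ∃ n1, ∀ n ≥ n1, S n = L n := by
  classical
  let q : ℕ → ℕ := fun n => finrank ℂ (L n ⧸ stbS S L n)
  have hsur : ∀ n ≥ n0, ∀ z (hz : z ∈ V), z ≠ 0 →
      Function.Surjective (stbM S L n z (hVS n z hz) (hVL n z hz)) := by
    intro n hn z hz hz0 y
    obtain ⟨y, rfl⟩ := Submodule.Quotient.mk_surjective _ y
    obtain ⟨a, ha, b, hb, hab⟩ := hsurj n hn z hz hz0 y y.2
    refine ⟨Submodule.Quotient.mk ⟨b, hb⟩, ?_⟩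
    rw [stbM_mk, Submodule.Quotient.eq]
    show (z * b - (y : F)) ∈ S (n + 1)
    have h1 : z * b - (y : F) = -a := by rw [hab]; ring
    rw [h1]
    exact Submodule.neg_mem _ ha
  have hanti : ∀ n ≥ n0, q (n + 1) ≤ q n := fun n hn =>
    LinearMap.finrank_le_finrank_of_surjective (hsur n hn z1 hz1 h10)
  -- a minimum
  obtain ⟨n1, hn1, hmin⟩ : ∃ n1, n0 ≤ n1 ∧ ∀ n, n0 ≤ n → q n1 ≤ q n := by
    have hne : {n | n0 ≤ n}.Nonempty := ⟨n0, le_refl n0⟩
    refine ⟨Function.argminOn q {n | n0 ≤ n} hne, Function.argminOn_mem q _ hne, ?_⟩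
    intro n hn
    exact Function.argminOn_le q {n | n0 ≤ n} hn
  have hconst : ∀ k, q (n1 + k) = q n1 := by
    intro k
    induction k with
    | zero => rfl
    | succ k ih =>
      refine le_antisymm ?_ (hmin _ (by omega))
      rw [← ih]
      exact hanti (n1 + k) (by omega)
  refine ⟨n1, fun n hn => ?_⟩
  have hq : q (n + 1) = q n := by
    obtain ⟨k, rfl⟩ := Nat.exists_eq_add_of_le hn
    rw [hconst k]
    exact hconst (k + 1)
  have hinj : ∀ z (hz : z ∈ V), z ≠ 0 →
      Function.Injective (stbM S L n z (hVS n z hz) (hVL n z hz)) := by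
    intro z hz hz0
    exact (LinearMap.injective_iff_surjective_of_finrank_eq_finrank hq.symm).mpr
      (hsur n (by omega) z hz hz0)
  have htriv : Subsingleton (L n ⧸ stbS S L n) := by
    by_contra hns
    have hnt : Nontrivial (L n ⧸ stbS S L n) := not_subsingleton_iff_nontrivial.mp hns
    let A : (L n ⧸ stbS S L n) ≃ₗ[ℂ] (L (n + 1) ⧸ stbS S L (n + 1)) :=
      LinearEquiv.ofBijective (stbM S L n z1 (hVS n z1 hz1) (hVL n z1 hz1))
        ⟨hinj z1 hz1 h10, hsur n (by omega) z1 hz1 h10⟩
    let B := stbM S L n z2 (hVS n z2 hz2) (hVL n z2 hz2)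
    let T : Module.End ℂ (L n ⧸ stbS S L n) := A.symm.toLinearMap ∘ₗ B
    obtain ⟨c, hc⟩ := Module.End.exists_eigenvalue T
    obtain ⟨v, hv⟩ := hc.exists_hasEigenvector
    have h1 : T v = c • v := hv.apply_eq_smul
    have h2 : B v = c • A v := by
      have h3 : A.symm (B v) = c • v := h1
      rw [LinearEquiv.symm_apply_eq] at h3
      rw [h3, map_smul]
    have hz : z2 - c • z1 ∈ V := V.sub_mem hz2 (V.smul_mem c hz1)
    have h3 : stbM S L n (z2 - c • z1) (hVS n _ hz) (hVL n _ hz) v = B v - c • A v := by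
      obtain ⟨w, rfl⟩ := Submodule.Quotient.mk_surjective _ v
      have hA : A (Submodule.Quotient.mk w) =
        stbM S L n z1 (hVS n z1 hz1) (hVL n z1 hz1) (Submodule.Quotient.mk w) := rfl
      rw [hA, stbM_mk, stbM_mk, stbM_mk, ← Submodule.Quotient.mk_smul,
        ← Submodule.Quotient.mk_sub]
      congr 1
      apply Subtype.ext
      show (z2 - c • z1) * (w : F) = z2 * (w : F) - c • (z1 * (w : F))
      rw [sub_mul, smul_mul_assoc]
    rw [h2, sub_self] at h3
    apply hv.2
    apply hinj _ hz (hind c)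
    rw [h3, map_zero]
  refine le_antisymm (hSL n) fun x hx => ?_
  have h1 : (Submodule.Quotient.mk (⟨x, hx⟩ : L n) : L n ⧸ stbS S L n) = 0 :=
    Subsingleton.elim _ _
  rw [Submodule.Quotient.mk_eq_zero] at h1
  exact h1

end

end Pool.H29.CB

end S_CB_Stb

section S_CB_Cnt

/-!
# CNT: counting

`V' = z V ⊕ U` (`U` a complement of `z V`, a `k`-subspace of `V'` of the dimension of `V`), so
`finrank U = finrank V' - finrank V`.  Let `T = span K U`.  Claim: `V' ⊆ T`.  Let `q : E → E ⧸ T` be the
quotient map (`K`-linear), `B = q(V')`, a finite dimensional `k`-subspace of `E ⧸ T`.  As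
`V' ⊆ z V + U ⊆ z V' + U` we have `B ⊆ z B`, so `z⁻¹ B ⊆ B`.  Multiplication by `z⁻¹` is a `k`-linear
endomorphism of the finite dimensional space `B`; its characteristic polynomial `p ∈ k[X]` is monic and
`p(z⁻¹) b = 0` for all `b ∈ B`.  `p(z⁻¹) ∈ K` is not zero because `z⁻¹` is transcendental over `k`, so `b = 0`
(`E ⧸ T` is a `K`-vector space).  Hence `B = 0`, `V' ⊆ T`, `span K V' = span K U`, and
`finrank K (span K U) ≤ finrank k U` (a `k`-basis of `U` spans it over `K`).
It may be easier to avoid quotients: choose `T`, and prove by contradiction or work with `K`-linear maps.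
-/

namespace Pool.H29.CB

open Polynomial Module

noncomputable section

/-- a finite dimensional subspace stable under a transcendental element is zero -/
theorem stab_zero {k K Q : Type*} [Field k] [Field K] [Algebra k K] [AddCommGroup Q] [Module K Q]
    [Module k Q] [IsScalarTower k K Q] (w : K) (hw : Transcendental k w) (B : Submodule k Q)
    [FiniteDimensional k B] (hB : ∀ b ∈ B, w • b ∈ B) : B = ⊥ := by
  let g : B →ₗ[k] B := (Algebra.lsmul k k Q w).restrict hB
  have hg : ∀ b : B, ((g b : B) : Q) = w • (b : Q) := fun b => rfl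
  have hp : ∀ (n : ℕ) (b : B), (((g ^ n) b : B) : Q) = w ^ n • (b : Q) := by
    intro n
    induction n with
    | zero => intro b; simp
    | succ n ih =>
      intro b
      rw [pow_succ, Module.End.mul_apply, ih, hg, smul_smul, pow_succ]
  have hq : ∀ (p : k[X]) (b : B), (((aeval g p) b : B) : Q) = (aeval w p) • (b : Q) := by
    intro p b
    rw [aeval_eq_sum_range, aeval_eq_sum_range, LinearMap.sum_apply, AddSubmonoidClass.coe_finsetSum,
      Finset.sum_smul]
    refine Finset.sum_congr rfl fun i _ => ?_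
    rw [LinearMap.smul_apply, Submodule.coe_smul, hp, smul_assoc]
  rw [Submodule.eq_bot_iff]
  intro b hb
  have h1 := hq g.charpoly ⟨b, hb⟩
  rw [LinearMap.aeval_self_charpoly, LinearMap.zero_apply, Submodule.coe_zero] at h1
  have h2 : aeval w g.charpoly ≠ 0 := by
    intro h0
    exact g.charpoly_monic.ne_zero (transcendental_iff.1 hw _ h0)
  exact (smul_eq_zero.1 h1.symm).resolve_left h2

/-- the counting lemma for vector spaces -/
theorem cnt_gen {k K E : Type*} [Field k] [Field K] [Algebra k K] [AddCommGroup E] [Module K E]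
    [Module k E] [IsScalarTower k K E] (z : K) (hz : Transcendental k z) (V V' : Submodule k E)
    [FiniteDimensional k V'] (h1 : V ≤ V') (h2 : ∀ v ∈ V, z • v ∈ V') :
    finrank k V + finrank K (Submodule.span K (V' : Set E)) ≤ finrank k V' := by
  classical
  have hz0 : z ≠ 0 := by
    rintro rfl
    exact hz isAlgebraic_zero
  let m : E →ₗ[k] E := Algebra.lsmul k k E z
  have hm : ∀ x, m x = z • x := fun _ => rfl
  have hinj : Function.Injective m := by
    intro x y hxy
    rw [hm, hm] at hxy
    exact smul_right_injective E hz0 hxy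
  let W : Submodule k E := V.map m
  have hWV : W ≤ V' := by
    rintro _ ⟨v, hv, rfl⟩
    exact h2 v hv
  have hW : finrank k W = finrank k V := (Submodule.equivMapOfInjective m hinj V).finrank_eq.symm
  let W' : Submodule k V' := W.comap V'.subtype
  have hW' : finrank k W' = finrank k W := (Submodule.comapSubtypeEquivOfLe hWV).finrank_eq
  obtain ⟨U', hU'⟩ := exists_isCompl W'
  have hsum := Submodule.finrank_add_eq_of_isCompl hU'
  let b := Module.finBasis k U'
  let T : Submodule K E := Submodule.span K (Set.range fun i => (((b i : U') : V') : E))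
  have hT : finrank K T ≤ finrank k U' := by
    have := finrank_range_le_card (R := K) (fun i => (((b i : U') : V') : E))
    rw [Fintype.card_fin] at this
    exact this
  have hUT : ∀ u ∈ U', (u : E) ∈ T := by
    intro u hu
    have e1 := b.sum_repr ⟨u, hu⟩
    have e2 : (u : E) = ∑ i, (algebraMap k K (b.repr ⟨u, hu⟩ i)) • (((b i : U') : V') : E) := by
      have e3 := congrArg (fun x : U' => ((x : V') : E)) e1
      simp only [AddSubmonoidClass.coe_finsetSum, Submodule.coe_smul] at e3
      rw [← e3]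
      refine Finset.sum_congr rfl fun i _ => ?_
      rw [algebraMap_smul]
    rw [e2]
    exact Submodule.sum_mem _ fun i _ => Submodule.smul_mem _ _ (Submodule.subset_span ⟨i, rfl⟩)
  let q : E →ₗ[k] (E ⧸ T) := (T.mkQ).restrictScalars k
  let B : Submodule k (E ⧸ T) := V'.map q
  have hBz : ∀ x ∈ B, z⁻¹ • x ∈ B := by
    rintro _ ⟨v, hv, rfl⟩
    have hv' : (⟨v, hv⟩ : V') ∈ W' ⊔ U' := by rw [hU'.sup_eq_top]; trivial
    obtain ⟨w, hw, u, hu, hwu⟩ := Submodule.mem_sup.1 hv'
    obtain ⟨v1, hv1, hv1'⟩ : (w : E) ∈ W := hw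
    have e1 : v = z • v1 + (u : E) := by
      have := congrArg (fun x : V' => (x : E)) hwu
      simp only [Submodule.coe_add] at this
      rw [← this, ← hv1', hm]
    refine ⟨v1, h1 hv1, ?_⟩
    have e2 : q (u : E) = 0 := (Submodule.Quotient.mk_eq_zero T).2 (hUT u hu)
    have e3 : q (z • v1) = z • q v1 := (T.mkQ).map_smul z v1
    rw [e1, map_add, e2, add_zero, e3, smul_smul, inv_mul_cancel₀ hz0, one_smul]
  have hz' : Transcendental k z⁻¹ := fun h => hz (by simpa using h.inv)
  have hB : B = ⊥ := stab_zero z⁻¹ hz' B hBz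
  have hV'T : Submodule.span K (V' : Set E) ≤ T := by
    rw [Submodule.span_le]
    intro v hv
    have h3 : q v ∈ B := ⟨v, hv, rfl⟩
    rw [hB, Submodule.mem_bot] at h3
    exact (Submodule.Quotient.mk_eq_zero T).1 h3
  have : FiniteDimensional K T := FiniteDimensional.span_of_finite K (Set.finite_range _)
  have h4 := Submodule.finrank_mono hV'T
  omega

theorem cnt {E : Type} [Field E] [Algebra ℂ E] (k K : IntermediateField ℂ E) (hkK : k ≤ K)
    (z : E) (hzK : z ∈ K) (hz : Transcendental k z) (V V' : Submodule k E)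
    [FiniteDimensional k V'] (h1 : V ≤ V') (h2 : ∀ v ∈ V, z * v ∈ V') :
    finrank k V + finrank K (Submodule.span K (V' : Set E)) ≤ finrank k V' := by
  letI : Algebra k K := (IntermediateField.inclusion hkK).toRingHom.toAlgebra
  have : IsScalarTower k K E := IsScalarTower.of_algebraMap_eq fun x => rfl
  refine cnt_gen (K := K) (⟨z, hzK⟩ : K) ?_ V V' h1 h2
  exact (transcendental_algebraMap_iff (FaithfulSMul.algebraMap_injective K E)).1 hz

end

end Pool.H29.CB

end S_CB_Cnt
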