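import Mathlib
import Pool.Agent.H29.CM.CbA

/-! Brill-Noether loci and Castelnuovo bound, part CbB: this file joins several modules to save build time. -/

section S_CB_Geo

/-!
# GEO: an irreducible polynomial in `ℂ[X,Y]` stays irreducible over every field `F ⊇ ℂ`

Suppose `f = a b` in `F[X][Y]` with `a, b` not units (a unit is a constant `C (C c)`, `c ≠ 0`;
`f ≠ 0` so `a, b ≠ 0`).  So `a` has a coefficient `a_ij ≠ 0` with `(i,j) ≠ (0,0)` and `b` has
`b_kl ≠ 0` with `(k,l) ≠ (0,0)`.  Let `R = Algebra.adjoin ℂ S ⊆ F`, `S` the finite set of all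
coefficients of `a`, `b` and of `a_ij⁻¹, b_kl⁻¹`.  `R` is a finitely generated `ℂ`-algebra and a
domain, so there is a `ℂ`-algebra map `ρ : R → ℂ` (residue field at a maximal ideal: finite over `ℂ` by
`finite_of_finite_type_of_isJacobsonRing`, hence equal to `ℂ` as `ℂ` is algebraically closed).  Lift
`a, b` to `R[X][Y]` (`Polynomial.lifts`, `mem_lifts`, or `Polynomial.toSubring` twice); as `R → F` is
injective the product of the lifts is the image of `f`; apply `ρ`: `f = ρ(a) ρ(b)` in `ℂ[X][Y]` (`ρ` is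
`ℂ`-linear, so `ρ(f) = f`) and both factors are not constant as `ρ(a_ij) ≠ 0`, `ρ(b_kl) ≠ 0`.  That
contradicts `hf`.  `f` is not a unit over `F`: a unit is `C (C c)`, then `f` (injectivity of
`ℂ[X][Y] → F[X][Y]`) has only the `(0,0)` coefficient, so is a unit over `ℂ`.
-/

namespace Pool.H29.CB

open Polynomial Module

noncomputable section

/-- a finitely generated `ℂ`-algebra (non trivial) has a `ℂ`-point -/
theorem geo_point (R : Type) [CommRing R] [Algebra ℂ R] [Nontrivial R] [Algebra.FiniteType ℂ R] :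
    Nonempty (R →ₐ[ℂ] ℂ) := by
  obtain ⟨M, hM⟩ := Ideal.exists_maximal R
  letI : Field (R ⧸ M) := Ideal.Quotient.field M
  haveI : Algebra.FiniteType ℂ (R ⧸ M) := inferInstance
  haveI : Module.Finite ℂ (R ⧸ M) := finite_of_finite_type_of_isJacobsonRing ℂ (R ⧸ M)
  haveI : Algebra.IsIntegral ℂ (R ⧸ M) := Algebra.IsIntegral.of_finite ℂ (R ⧸ M)
  let e : ℂ ≃ₐ[ℂ] (R ⧸ M) := AlgEquiv.ofBijective (Algebra.ofId ℂ (R ⧸ M))
    (IsAlgClosed.algebraMap_bijective_of_isIntegral (k := ℂ) (K := R ⧸ M))
  exact ⟨(e.symm : (R ⧸ M) →ₐ[ℂ] ℂ).comp (Ideal.Quotient.mkₐ ℂ M)⟩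

theorem geo_coeff {K : Type} [Field K] (a : K[X][X]) (h0 : a ≠ 0) (hu : ¬ IsUnit a) :
    ∃ i j : ℕ, (i, j) ≠ (0, 0) ∧ (a.coeff i).coeff j ≠ 0 := by
  by_contra hcon
  push Not at hcon
  have h1 : a = C (C ((a.coeff 0).coeff 0)) := by
    ext i j
    by_cases hi : i = 0
    · subst hi
      by_cases hj : j = 0
      · subst hj
        simp
      · rw [hcon 0 j (by simp [hj])]
        rw [coeff_C_zero, coeff_C_of_ne_zero hj]
    · rw [hcon i j (by simp [hi])]
      rw [coeff_C_of_ne_zero hi]
      simp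
  apply hu
  have h2 : (a.coeff 0).coeff 0 ≠ 0 := by
    intro h
    rw [h] at h1
    apply h0
    rw [h1]
    simp
  rw [h1]
  exact (isUnit_C.mpr (isUnit_C.mpr (isUnit_iff_ne_zero.mpr h2)))

theorem geo_not_unit {K : Type} [Field K] (a : K[X][X]) {i j : ℕ} (hij : (i, j) ≠ (0, 0))
    (h : (a.coeff i).coeff j ≠ 0) : ¬ IsUnit a := by
  intro hu
  obtain ⟨r, hr, hra⟩ := Polynomial.isUnit_iff.mp hu
  obtain ⟨s, _, hsr⟩ := Polynomial.isUnit_iff.mp hr
  apply h
  rw [← hra, ← hsr]
  by_cases hi : i = 0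
  · subst hi
    have hj : j ≠ 0 := by
      intro hj
      exact hij (by rw [hj])
    rw [coeff_C_zero, coeff_C_of_ne_zero hj]
  · rw [coeff_C_of_ne_zero hi]
    simp

theorem geo_finite {K : Type} [Field K] (a : K[X][X]) :
    {x : K | ∃ i j : ℕ, x = (a.coeff i).coeff j}.Finite := by
  have h1 : {x : K | ∃ i j : ℕ, x = (a.coeff i).coeff j} ⊆
      insert 0 (⋃ i ∈ a.support, ⋃ j ∈ (a.coeff i).support, {(a.coeff i).coeff j}) := by
    rintro x ⟨i, j, rfl⟩
    by_cases h : (a.coeff i).coeff j = 0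
    · left; exact h
    · right
      simp only [Set.mem_iUnion, Set.mem_singleton_iff]
      refine ⟨i, ?_, j, ?_, rfl⟩
      · rw [Polynomial.mem_support_iff]
        intro h'
        rw [h'] at h
        simp at h
      · rw [Polynomial.mem_support_iff]; exact h
  refine Set.Finite.subset (Set.Finite.insert _ ?_) h1
  refine Set.Finite.biUnion (Finset.finite_toSet _) fun i _ => ?_
  exact Set.Finite.biUnion (Finset.finite_toSet _) fun j _ => Set.finite_singleton _

theorem geo_lift {K : Type} [Field K] [Algebra ℂ K] (R : Subalgebra ℂ K) (a : K[X][X])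
    (h : ∀ i j : ℕ, (a.coeff i).coeff j ∈ R) :
    ∃ a' : R[X][X], a'.map (mapRingHom (algebraMap R K)) = a := by
  have h1 : a ∈ lifts (mapRingHom (algebraMap R K)) := by
    rw [lifts_iff_coeff_lifts]
    intro i
    have h2 : a.coeff i ∈ lifts (algebraMap R K) := by
      rw [lifts_iff_coeff_lifts]
      intro j
      exact ⟨⟨_, h i j⟩, rfl⟩
    obtain ⟨q, hq⟩ := (mem_lifts _).mp h2
    exact ⟨q, hq⟩
  exact (mem_lifts _).mp h1

theorem geo (F : Type) [Field F] [Algebra ℂ F] (f : ℂ[X][X]) (hf : Irreducible f) :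
    Irreducible (f.map (mapRingHom (algebraMap ℂ F))) := by
  have hinj : Function.Injective (mapRingHom (algebraMap ℂ F)) :=
    Polynomial.map_injective _ (algebraMap ℂ F).injective
  constructor
  · intro hu
    obtain ⟨i, j, hij, hc⟩ := geo_coeff f hf.ne_zero hf.not_isUnit
    apply geo_not_unit (f.map (mapRingHom (algebraMap ℂ F))) hij _ hu
    rw [coeff_map, coe_mapRingHom, coeff_map]
    exact (map_ne_zero (algebraMap ℂ F)).mpr hc
  · intro a b hab
    by_contra hcon
    push Not at hcon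
    obtain ⟨hau, hbu⟩ := hcon
    have hf0 : f.map (mapRingHom (algebraMap ℂ F)) ≠ 0 := by
      intro h
      apply hf.ne_zero
      apply Polynomial.map_injective _ hinj
      rw [h, Polynomial.map_zero]
    have ha0 : a ≠ 0 := by
      rintro rfl
      rw [zero_mul] at hab
      exact hf0 hab
    have hb0 : b ≠ 0 := by
      rintro rfl
      rw [mul_zero] at hab
      exact hf0 hab
    obtain ⟨i, j, hij, hac⟩ := geo_coeff a ha0 hau
    obtain ⟨k, l, hkl, hbc⟩ := geo_coeff b hb0 hbu
    set S : Set F := ({x : F | ∃ i j : ℕ, x = (a.coeff i).coeff j} ∪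
      {x : F | ∃ i j : ℕ, x = (b.coeff i).coeff j}) ∪
      {((a.coeff i).coeff j)⁻¹, ((b.coeff k).coeff l)⁻¹} with hS
    have hSf : S.Finite := ((geo_finite a).union (geo_finite b)).union (by simp)
    set R : Subalgebra ℂ F := Algebra.adjoin ℂ S with hR
    have hSR : S ⊆ R := Algebra.subset_adjoin
    have hfg : R.FG := by
      rw [hR]
      have h := Subalgebra.fg_adjoin_finset (R := ℂ) hSf.toFinset
      rwa [hSf.coe_toFinset] at h
    haveI : Algebra.FiniteType ℂ R := (Subalgebra.fg_iff_finiteType R).mp hfg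
    obtain ⟨ρ⟩ := geo_point R
    obtain ⟨a', ha'⟩ := geo_lift R a (fun i j => hSR (Or.inl (Or.inl ⟨i, j, rfl⟩)))
    obtain ⟨b', hb'⟩ := geo_lift R b (fun i j => hSR (Or.inl (Or.inr ⟨i, j, rfl⟩)))
    have hRinj : Function.Injective (algebraMap R F) := Subtype.val_injective
    have hprod : a' * b' = f.map (mapRingHom (algebraMap ℂ R)) := by
      have hRinj2 : Function.Injective (mapRingHom (algebraMap R F)) :=
        Polynomial.map_injective _ hRinj
      apply Polynomial.map_injective _ hRinj2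
      rw [Polynomial.map_mul, ha', hb', Polynomial.map_map, ← hab]
      congr 1
      rw [mapRingHom_comp]
      rfl
    have hf' : a'.map (mapRingHom (ρ : R →+* ℂ)) * b'.map (mapRingHom (ρ : R →+* ℂ)) = f := by
      rw [← Polynomial.map_mul, hprod, Polynomial.map_map, mapRingHom_comp]
      have h1 : (ρ : R →+* ℂ).comp (algebraMap ℂ R) = RingHom.id ℂ := by
        ext x
        simp
      rw [h1, mapRingHom_id, Polynomial.map_id]
    have key : ∀ (c : F[X][X]) (c' : R[X][X]) (i j : ℕ),
        c'.map (mapRingHom (algebraMap R F)) = c → (c.coeff i).coeff j ≠ 0 →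
        ((c.coeff i).coeff j)⁻¹ ∈ S →
        ((c'.map (mapRingHom (ρ : R →+* ℂ))).coeff i).coeff j ≠ 0 := by
      intro c c' i j hcc hne hS'
      rw [coeff_map, coe_mapRingHom, coeff_map]
      have h1 : algebraMap R F ((c'.coeff i).coeff j) = (c.coeff i).coeff j := by
        rw [← hcc, coeff_map, coe_mapRingHom, coeff_map]
      have h2 : (c'.coeff i).coeff j * (⟨((c.coeff i).coeff j)⁻¹, hSR hS'⟩ : R) = 1 := by
        apply hRinj
        rw [map_mul, h1, map_one]
        exact mul_inv_cancel₀ hne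
      intro h3
      have h4 := congrArg (ρ : R →+* ℂ) h2
      rw [map_mul, h3, zero_mul, map_one] at h4
      exact zero_ne_one h4
    have hna := geo_not_unit _ hij (key a a' i j ha' hac (Or.inr (by simp)))
    have hnb := geo_not_unit _ hkl (key b b' k l hb' hbc (Or.inr (by simp)))
    rcases hf.isUnit_or_isUnit hf'.symm with h | h
    · exact hna h
    · exact hnb h

end

end Pool.H29.CB

end S_CB_Geo

section S_CB_Irr

/-!
# IRR: the irreducible equation of a plane model

`dep`: `F` is algebraic over `ℂ[x]` if `x` is transcendental, as the transcendence degree is one (see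
the proof of `Pt.residue` in `Pool/Agent/H29/BN/Res.lean` for the same argument; there
`exists_nonzero_coeff_and_aeval_eq_zero`).  So `y` is a root of a nonzero polynomial over `ℂ[x] ≅ ℂ[X]`.

`irr`: the kernel of `ℂ[X][Y] → F`, `X ↦ x`, `Y ↦ y`, is a prime ideal; take the nonzero `f0` of `dep`
in it, factor `f0` into irreducibles (`ℂ[X][Y]` is a UFD): one of them, `f`, lies in the kernel.
If `f.natDegree = 0` then `f = C p` with `p ≠ 0`, `p(x) = 0`, contradiction to `hx`.
By `geo`, `f.map _` is irreducible in `F[X][Y]`, its `natDegree` is that of `f` (injective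
coefficient map), positive, so it is primitive (`Irreducible.isPrimitive`) and by Gauss
(`Polynomial.IsPrimitive.irreducible_iff_irreducible_map_fraction_map`) `fX F f` is irreducible.
-/

namespace Pool.H29.CB

open Polynomial Module Pool.H29.BN

noncomputable section

variable {F : Type} [Field F] [Algebra ℂ F]

theorem dep (hF : IsFF F) {x : F} (hx : Transcendental ℂ x) (y : F) :
    ∃ f : ℂ[X][X], f ≠ 0 ∧ f.eval₂ (aeval x : ℂ[X] →ₐ[ℂ] F).toRingHom y = 0 := by
  have hai : AlgebraicIndependent ℂ (fun _ : Unit => x) :=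
    (algebraicIndependent_unique_type_iff (ι := Unit) (x := fun _ => x)).mpr hx
  have hbas : IsTranscendenceBasis ℂ (fun _ : Unit => x) := by
    apply hai.isTranscendenceBasis_of_trdeg_le
    · rw [hF.2]
      exact Cardinal.one_lt_aleph0
    · rw [hF.2]
      simp
  have hadj : Algebra.adjoin ℂ (Set.range fun _ : Unit => x) = (aeval x : ℂ[X] →ₐ[ℂ] F).range := by
    rw [← Algebra.adjoin_singleton_eq_range_aeval]
    congr 1
    ext z
    simp [eq_comm]
  have halg0 : Algebra.IsAlgebraic (Algebra.adjoin ℂ (Set.range fun _ : Unit => x)) F :=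
    hbas.isAlgebraic
  have halg : Algebra.IsAlgebraic (aeval x : ℂ[X] →ₐ[ℂ] F).range F := by
    rw [← hadj]
    exact halg0
  obtain ⟨G, hG0, hG⟩ := halg.isAlgebraic y
  let φ : ℂ[X] →+* (aeval x : ℂ[X] →ₐ[ℂ] F).range :=
    (aeval x : ℂ[X] →ₐ[ℂ] F).rangeRestrict.toRingHom
  have hφ : Function.Surjective φ := (aeval x : ℂ[X] →ₐ[ℂ] F).rangeRestrict_surjective
  obtain ⟨f, hf⟩ := Polynomial.map_surjective φ hφ G
  refine ⟨f, ?_, ?_⟩
  · rintro rfl
    rw [Polynomial.map_zero] at hf
    exact hG0 hf.symm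
  · rw [← hf, aeval_def, eval₂_map] at hG
    exact hG

theorem irr (hF : IsFF F) {x : F} (hx : Transcendental ℂ x) (y : F) :
    ∃ f : ℂ[X][X], Irreducible f ∧ 1 ≤ f.natDegree ∧
      f.eval₂ (aeval x : ℂ[X] →ₐ[ℂ] F).toRingHom y = 0 ∧ Irreducible (fX F f) := by
  obtain ⟨f0, hf0, hf0y⟩ := dep hF hx y
  let ψ : ℂ[X][X] →+* F := eval₂RingHom (aeval x : ℂ[X] →ₐ[ℂ] F).toRingHom y
  obtain ⟨s, hs, u, hsu⟩ := WfDvdMonoid.exists_factors f0 hf0
  have h1 : ψ s.prod = 0 := by
    have h2 : ψ (s.prod * u) = 0 := by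
      rw [hsu]
      exact hf0y
    rw [map_mul] at h2
    exact (mul_eq_zero.1 h2).resolve_right (u.isUnit.map ψ).ne_zero
  rw [map_multiset_prod, Multiset.prod_eq_zero_iff, Multiset.mem_map] at h1
  obtain ⟨f, hfs, hfy⟩ := h1
  have hirr := hs f hfs
  have hdeg : 1 ≤ f.natDegree := by
    by_contra hcon
    have h2 : f.natDegree = 0 := by omega
    rw [eq_C_of_natDegree_eq_zero h2] at hfy
    have h3 : aeval x (f.coeff 0) = 0 := by
      have h4 : ψ (C (f.coeff 0)) = (aeval x : ℂ[X] →ₐ[ℂ] F).toRingHom (f.coeff 0) := by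
        show eval₂ _ _ _ = _
        rw [eval₂_C]
      rw [h4] at hfy
      exact hfy
    have h5 : f.coeff 0 = 0 := (transcendental_iff.mp hx) _ h3
    apply hirr.ne_zero
    rw [eq_C_of_natDegree_eq_zero h2, h5, map_zero]
  refine ⟨f, hirr, hdeg, hfy, ?_⟩
  have h2 := geo F f hirr
  have hinj : Function.Injective (mapRingHom (algebraMap ℂ F)) := by
    rw [coe_mapRingHom]
    exact Polynomial.map_injective _ (algebraMap ℂ F).injective
  have h3 : (f.map (mapRingHom (algebraMap ℂ F))).natDegree ≠ 0 := by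
    rw [natDegree_map_eq_of_injective hinj]
    omega
  have h4 := h2.isPrimitive h3
  exact (Polynomial.IsPrimitive.irreducible_iff_irreducible_map_fraction_map
    (K := RatFunc F) h4).1 h2

end

end Pool.H29.CB

end S_CB_Irr

section S_CB_Sub

/-!
# SUB: generators of `E = F(u)`, `F = ℂ(x,y)`

`sub_top`: `S.comap (algebraMap F E)` is a subfield of `F` containing `ℂ, x, y`; as an intermediate field
of `F / ℂ` it contains `IntermediateField.adjoin ℂ {x,y} = ⊤`.  So `S` contains the image of `F`; as an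
intermediate field of `E / F` it contains `adjoin F {u} = ⊤`.
`hom_ext'`: apply it to the subfield `{w | σ w = τ w}` (`RingHom.eqLocusField`).
-/

namespace Pool.H29.CB

open Polynomial Module

noncomputable section

variable {F : Type} [Field F] [Algebra ℂ F] {E : Type} [Field E] [Algebra ℂ E] [Algebra F E]
  [IsScalarTower ℂ F E]

theorem sub_top {x y : F} (hgen : IntermediateField.adjoin ℂ {x, y} = ⊤) {u : E}
    (htop : IntermediateField.adjoin F {u} = ⊤) (S : Subfield E)
    (hc : ∀ c : ℂ, algebraMap ℂ E c ∈ S) (hx : algebraMap F E x ∈ S)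
    (hy : algebraMap F E y ∈ S) (hu : u ∈ S) : S = ⊤ := by
  have h1 : ∀ f : F, algebraMap F E f ∈ S := by
    let T : IntermediateField ℂ F :=
      (S.comap (algebraMap F E)).toIntermediateField (fun c => by
        rw [Subfield.mem_comap, ← IsScalarTower.algebraMap_apply]
        exact hc c)
    have hT : IntermediateField.adjoin ℂ {x, y} ≤ T := by
      rw [IntermediateField.adjoin_le_iff]
      intro t ht
      rcases ht with rfl | ht
      · exact hx
      · rw [Set.mem_singleton_iff] at ht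
        rw [ht]
        exact hy
    intro f
    have : f ∈ IntermediateField.adjoin ℂ {x, y} := by rw [hgen]; trivial
    exact hT this
  let T : IntermediateField F E := S.toIntermediateField h1
  have hT : IntermediateField.adjoin F {u} ≤ T := by
    rw [IntermediateField.adjoin_le_iff]
    intro t ht
    rw [Set.mem_singleton_iff] at ht
    rw [ht]
    exact hu
  rw [eq_top_iff]
  intro w _
  have : w ∈ IntermediateField.adjoin F {u} := by rw [htop]; trivial
  exact hT this

theorem hom_ext' {x y : F} (hgen : IntermediateField.adjoin ℂ {x, y} = ⊤) {u : E}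
    (htop : IntermediateField.adjoin F {u} = ⊤) {N : Type} [Field N] (σ τ : E →+* N)
    (hc : ∀ c : ℂ, σ (algebraMap ℂ E c) = τ (algebraMap ℂ E c))
    (hx : σ (algebraMap F E x) = τ (algebraMap F E x))
    (hy : σ (algebraMap F E y) = τ (algebraMap F E y)) (hu : σ u = τ u) : σ = τ := by
  have h := sub_top hgen htop (RingHom.eqLocusField σ τ) hc hx hy hu
  ext w
  have : w ∈ RingHom.eqLocusField σ τ := by rw [h]; trivial
  exact this

end

end Pool.H29.CB

end S_CB_Sub

section S_CB_Alg

/-!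
# ALG: `E = F(u)` is algebraic over `K = ℂ(u, y + u x)`

Let `z = y + u x`.  `x` is algebraic over `K`: let `p(T) = f(T, z - u T) ∈ K[T]`
(substitute `X ↦ T`, `Y ↦ z - u T` in `f ∈ ℂ[X][Y]`); `p(x) = f(x, y) = 0`.  `p ≠ 0`: the
leading coefficient of `f` (as a polynomial in `Y`, an element of `ℂ[X]`) has finitely many roots;
for all other `c ∈ ℂ` the polynomial `f(c, Y) ∈ ℂ[Y]` is not zero.  If `p = 0` then
`f(c, z - u c) = 0` for all these `c`, so `z - u c` is algebraic over `ℂ`; with two different values of `c`, `u`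
is algebraic over `ℂ`, so over `F`: contradiction to `hu`.
So `x`, hence `y = z - u x`, `u ∈ K` and the constants lie in the relative algebraic closure
`algebraicClosure K E` (a subfield); it is everything by `sub_top`.
-/

namespace Pool.H29.CB

open Polynomial Module

noncomputable section

variable {F : Type} [Field F] [Algebra ℂ F] {E : Type} [Field E] [Algebra ℂ E] [Algebra F E]
  [IsScalarTower ℂ F E]

/-- the polynomial `f(T, z - u T)` -/
def algP {K : Type} [Field K] [Algebra ℂ K] (f : ℂ[X][X]) (z u : K) : K[X] :=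
  f.eval₂ (mapRingHom (algebraMap ℂ K)) (C z - C u * X)

theorem algP_eval {K : Type} [Field K] [Algebra ℂ K] {L : Type} [Field L] [Algebra ℂ L] [Algebra K L]
    [IsScalarTower ℂ K L] (f : ℂ[X][X]) (z u : K) (t : L) :
    aeval t (algP f z u) =
      f.eval₂ (aeval t : ℂ[X] →ₐ[ℂ] L).toRingHom (algebraMap K L z - algebraMap K L u * t) := by
  unfold algP
  have h1 : aeval t (f.eval₂ (mapRingHom (algebraMap ℂ K)) (C z - C u * X)) =
      (aeval t : K[X] →ₐ[K] L).toRingHom (f.eval₂ (mapRingHom (algebraMap ℂ K)) (C z - C u * X)) := rfl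
  rw [h1, hom_eval₂]
  congr 1
  · ext c
    · simp [← IsScalarTower.algebraMap_apply]
    · simp
  · simp

/-- if `f(T, z - u T) = 0` then `u` is algebraic over the constants -/
theorem algP_ne {K : Type} [Field K] [Algebra ℂ K] (f : ℂ[X][X]) (hf0 : f ≠ 0) (z u : K)
    (h : algP f z u = 0) : IsAlgebraic ℂ u := by
  have key : ∀ c : ℂ, f.leadingCoeff.eval c ≠ 0 → IsAlgebraic ℂ (z - u * algebraMap ℂ K c) := by
    intro c hc
    refine ⟨f.map (evalRingHom c), ?_, ?_⟩
    · intro h0
      have h1 := congrArg (fun q : ℂ[X] => q.coeff f.natDegree) h0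
      simp only [coeff_map, coe_evalRingHom, coeff_zero] at h1
      exact hc h1
    · have h1 := algP_eval (L := K) f z u (algebraMap ℂ K c)
      rw [h, map_zero] at h1
      rw [aeval_def, eval₂_map, h1]
      congr 1
      ext d
      · simp
      · simp
  have hfin : (f.leadingCoeff.roots.toFinset : Set ℂ).Finite := Finset.finite_toSet _
  have hlc : f.leadingCoeff ≠ 0 := leadingCoeff_ne_zero.2 hf0
  obtain ⟨c1, hc1⟩ := hfin.infinite_compl.nonempty
  obtain ⟨c2, hc2⟩ := (hfin.union (Set.finite_singleton c1)).infinite_compl.nonempty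
  have h1 : f.leadingCoeff.eval c1 ≠ 0 := by
    intro h0
    apply hc1
    simp [hlc, h0]
  have h2 : f.leadingCoeff.eval c2 ≠ 0 := by
    intro h0
    apply hc2
    left
    simp [hlc, h0]
  have h12 : c2 ≠ c1 := by
    rintro rfl
    exact hc2 (Or.inr rfl)
  have h3 := (key c1 h1).sub (key c2 h2)
  have h4 : z - u * algebraMap ℂ K c1 - (z - u * algebraMap ℂ K c2) =
      algebraMap ℂ K (c2 - c1) * u := by
    rw [map_sub]
    ring
  rw [h4] at h3
  have h5 : IsAlgebraic ℂ (algebraMap ℂ K (c2 - c1)⁻¹ * (algebraMap ℂ K (c2 - c1) * u)) :=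
    (isAlgebraic_algebraMap _).mul h3
  have h6 : algebraMap ℂ K (c2 - c1)⁻¹ * (algebraMap ℂ K (c2 - c1) * u) = u := by
    rw [← mul_assoc, ← map_mul, inv_mul_cancel₀ (sub_ne_zero.2 h12), map_one, one_mul]
  rwa [h6] at h5

theorem algK {x y : F} (f : ℂ[X][X]) (hf0 : f ≠ 0)
    (hf : f.eval₂ (aeval x : ℂ[X] →ₐ[ℂ] F).toRingHom y = 0)
    (hgen : IntermediateField.adjoin ℂ {x, y} = ⊤) {u : E} (hu : Transcendental F u)
    (htop : IntermediateField.adjoin F {u} = ⊤) : Algebra.IsAlgebraic (KK x y u) E := by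
  set zK : KK x y u := ⟨zz x y u, z_mem x y u⟩ with hzK
  set uK : KK x y u := ⟨u, u_mem x y u⟩ with huK
  have hx : IsAlgebraic (KK x y u) (algebraMap F E x) := by
    refine ⟨algP f zK uK, ?_, ?_⟩
    · intro h0
      have h1 := algP_ne f hf0 zK uK h0
      have h2 : IsAlgebraic ℂ u := h1.algebraMap (A := E)
      exact hu (h2.tower_top F)
    · rw [algP_eval]
      have h1 : algebraMap (KK x y u) E zK - algebraMap (KK x y u) E uK * algebraMap F E x =
          algebraMap F E y := by
        change zz x y u - u * algebraMap F E x = _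
        unfold zz
        ring
      rw [h1]
      have h2 : (aeval (algebraMap F E x) : ℂ[X] →ₐ[ℂ] E).toRingHom =
          (algebraMap F E).comp (aeval x : ℂ[X] →ₐ[ℂ] F).toRingHom := by
        ext c
        · simp [← IsScalarTower.algebraMap_apply]
        · simp
      rw [h2, ← hom_eval₂, hf, map_zero]
  have hmem : ∀ w : KK x y u, (w : E) ∈ (algebraicClosure (KK x y u) E).toSubfield := fun w =>
    (algebraicClosure (KK x y u) E).algebraMap_mem w
  have hx' : algebraMap F E x ∈ (algebraicClosure (KK x y u) E).toSubfield :=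
    mem_algebraicClosure_iff.2 hx
  have htopS := sub_top hgen htop (algebraicClosure (KK x y u) E).toSubfield
    (fun c => hmem (algebraMap ℂ (KK x y u) c)) hx' (by
      have h1 : algebraMap F E y = (zK : E) - (uK : E) * algebraMap F E x := by
        change _ = zz x y u - u * algebraMap F E x
        unfold zz
        ring
      rw [h1]
      exact sub_mem (hmem zK) (mul_mem (hmem uK) hx')) (hmem uK)
  refine ⟨fun e => ?_⟩
  have : e ∈ (algebraicClosure (KK x y u) E).toSubfield := by
    rw [htopS]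
    exact Subfield.mem_top e
  exact mem_algebraicClosure_iff.1 this

end

end Pool.H29.CB

end S_CB_Alg

section S_CB_Emb

/-!
# EMB: the second point on the generic line

Write `ιa` for `ι (algebraMap F E a)`, `σa` likewise.  From `σ z = ι z`, `σ u = ι u`:
`ιy + (ιu) (ιx) = σy + (ιu) (σx)`.
(1) `σx ≠ ιx`: otherwise `σy = ιy` and `σ = ι` by `hom_ext'`, contradiction to `hne`.
(2) So `ιu = - (ιy - σy) / (ιx - σx)`.
(3) `N` is an `F`-algebra by `ι ∘ algebraMap F E`.  Claim: `σx` is transcendental over `F`.  If `σx` is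
algebraic over `F`: `f(σx, σy) = 0` (apply `σ` to `hf`; `σ = ι` on `ℂ`), and `f(σx, Y) ∈ N[Y]` is
not the zero polynomial, as its leading coefficient is `q(σx)` with `q = f.leadingCoeff ≠ 0` in
`ℂ[X]`, and `q(x) ≠ 0` by `hx`, `σ` injective.  Its coefficients are algebraic over `F`, so `σy` is algebraic
over `F` (`isAlgebraic_of...`, the algebraic closure of `F` in `N` is algebraically closed in `N`), hence by
(2) `ιu` is algebraic over `F`: there is a nonzero `p ∈ F[X]` with `ι(p(u)) = 0`, so `p(u) = 0`,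
contradiction to `hu`.
(4) So `F[X] → N`, `X ↦ σx` (coefficients by `ι`), is injective and extends to `F(X) = RatFunc F → N`
(`IsFractionRing.lift`/`RatFunc.liftRingHom`); `σy` is a root of the image of `fX F f` (it is
`f(σx, σy)` again; `ι = σ` on constants), so `AdjoinRoot.lift` gives `e`.
-/

namespace Pool.H29.CB

open Polynomial Module

noncomputable section

variable {F : Type} [Field F] [Algebra ℂ F] {E : Type} [Field E] [Algebra ℂ E] [Algebra F E]
  [IsScalarTower ℂ F E]

/-- evaluation of `ℂ[X]` at `σ x` -/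
def embPhi (x : F) {N : Type} [Field N] (σ : E →+* N) : ℂ[X] →+* N :=
  (σ.comp (algebraMap F E)).comp (aeval x : ℂ[X] →ₐ[ℂ] F).toRingHom

theorem embPhi_C (x : F) {N : Type} [Field N] (σ : E →+* N) (c : ℂ) :
    embPhi x σ (C c) = σ (algebraMap ℂ E c) := by
  show σ (algebraMap F E (aeval x (C c))) = _
  rw [aeval_C, ← IsScalarTower.algebraMap_apply ℂ F E]

omit [Algebra ℂ E] [IsScalarTower ℂ F E] in
theorem embPhi_X (x : F) {N : Type} [Field N] (σ : E →+* N) :
    embPhi x σ X = σ (algebraMap F E x) := by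
  show σ (algebraMap F E (aeval x X)) = _
  rw [aeval_X]

omit [Algebra ℂ E] [IsScalarTower ℂ F E] in
theorem embPhi_injective {x : F} (hx : Transcendental ℂ x) {N : Type} [Field N] (σ : E →+* N) :
    Function.Injective (embPhi x σ) := by
  unfold embPhi
  intro p q h
  have h1 : algebraMap F E (aeval x p) = algebraMap F E (aeval x q) := σ.injective h
  exact (transcendental_iff_injective.mp hx) ((algebraMap F E).injective h1)

omit [Algebra ℂ E] [IsScalarTower ℂ F E] in
theorem embPhi_root {x y : F} (f : ℂ[X][X])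
    (hf : f.eval₂ (aeval x : ℂ[X] →ₐ[ℂ] F).toRingHom y = 0) {N : Type} [Field N] (σ : E →+* N) :
    f.eval₂ (embPhi x σ) (σ (algebraMap F E y)) = 0 := by
  have h := congrArg (σ.comp (algebraMap F E)) hf
  rw [Polynomial.hom_eval₂, map_zero] at h
  exact h

theorem exists_emb {x y : F} (hx : Transcendental ℂ x) (f : ℂ[X][X]) (hf0 : f ≠ 0)
    (hf : f.eval₂ (aeval x : ℂ[X] →ₐ[ℂ] F).toRingHom y = 0)
    (hgen : IntermediateField.adjoin ℂ {x, y} = ⊤) {u : E} (hu : Transcendental F u)
    (htop : IntermediateField.adjoin F {u} = ⊤) {N : Type} [Field N] (ι σ : E →+* N)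
    (hc : ∀ c : ℂ, σ (algebraMap ℂ E c) = ι (algebraMap ℂ E c)) (hσu : σ u = ι u)
    (hσz : σ (zz x y u) = ι (zz x y u)) (hne : σ ≠ ι) :
    ∃ e : AdjoinRoot (fX F f) →+* N,
      (∀ a : F, e (AdjoinRoot.of (fX F f) (algebraMap F (RatFunc F) a)) = ι (algebraMap F E a)) ∧
      e (AdjoinRoot.of (fX F f) RatFunc.X) = σ (algebraMap F E x) ∧
      e (AdjoinRoot.root (fX F f)) = σ (algebraMap F E y) := by
  classical
  -- the line
  have hz : σ (algebraMap F E y) + ι u * σ (algebraMap F E x) =
      ι (algebraMap F E y) + ι u * ι (algebraMap F E x) := by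
    unfold zz at hσz
    rw [map_add, map_mul, map_add, map_mul, hσu] at hσz
    exact hσz
  have hxne : σ (algebraMap F E x) ≠ ι (algebraMap F E x) := by
    intro h
    apply hne
    refine hom_ext' hgen htop σ ι hc h ?_ hσu
    rw [h] at hz
    exact add_right_cancel hz
  have hsub : ι (algebraMap F E x) - σ (algebraMap F E x) ≠ 0 := sub_ne_zero.mpr hxne.symm
  have hιu : ι u = (σ (algebraMap F E y) - ι (algebraMap F E y)) /
      (ι (algebraMap F E x) - σ (algebraMap F E x)) := by
    rw [eq_div_iff hsub]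
    linear_combination -hz
  -- `N` as an `F`-algebra
  let _ : Algebra F N := (ι.comp (algebraMap F E)).toAlgebra
  have halg : ∀ a : F, algebraMap F N a = ι (algebraMap F E a) := fun a => rfl
  have htr : Transcendental F (σ (algebraMap F E x)) := by
    intro halgx
    let A := algebraicClosure F N
    have hxA : σ (algebraMap F E x) ∈ A := mem_algebraicClosure_iff.mpr halgx
    have hcA : ∀ c : ℂ, σ (algebraMap ℂ E c) ∈ A := by
      intro c
      rw [hc, IsScalarTower.algebraMap_apply ℂ F E, ← halg]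
      exact A.algebraMap_mem _
    have hφA : ∀ p : ℂ[X], embPhi x σ p ∈ A := by
      intro p
      induction p using Polynomial.induction_on' with
      | add p q hp hq => rw [map_add]; exact A.add_mem hp hq
      | monomial n c =>
        rw [← C_mul_X_pow_eq_monomial, map_mul, map_pow, embPhi_C, embPhi_X]
        exact A.mul_mem (hcA c) (A.toSubfield.pow_mem hxA n)
    let φ' : ℂ[X] →+* A := (embPhi x σ).codRestrict A hφA
    have hφ' : (algebraMap A N).comp φ' = embPhi x σ := by
      ext <;> rfl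
    have hφ'inj : Function.Injective φ' := by
      intro p q h
      apply embPhi_injective hx σ
      rw [← hφ']
      exact congrArg (algebraMap A N) h
    have hyA : IsAlgebraic A (σ (algebraMap F E y)) := by
      refine ⟨f.map φ', ?_, ?_⟩
      · rw [Ne, Polynomial.map_eq_zero_iff hφ'inj]
        exact hf0
      · rw [aeval_def, eval₂_map, hφ']
        exact embPhi_root f hf σ
    have hyF : IsAlgebraic F (σ (algebraMap F E y)) := hyA.restrictScalars F
    have hyA' : σ (algebraMap F E y) ∈ A := mem_algebraicClosure_iff.mpr hyF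
    have huA : ι u ∈ A := by
      rw [hιu]
      refine A.div_mem (A.sub_mem hyA' ?_) (A.sub_mem ?_ hxA)
      · rw [← halg]; exact A.algebraMap_mem _
      · rw [← halg]; exact A.algebraMap_mem _
    obtain ⟨p, hp0, hp⟩ := mem_algebraicClosure_iff.mp huA
    apply hu
    refine ⟨p, hp0, ?_⟩
    apply ι.injective
    rw [map_zero, aeval_def, Polynomial.hom_eval₂]
    rw [aeval_def] at hp
    exact hp
  -- the extension to `F(X)`
  let ψ : F[X] →+* N := (aeval (σ (algebraMap F E x)) : F[X] →ₐ[F] N).toRingHom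
  have hψ : Function.Injective ψ := transcendental_iff_injective.mp htr
  let Ψ : RatFunc F →+* N := IsFractionRing.lift (A := F[X]) (K := RatFunc F) hψ
  have hΨ : ∀ p : F[X], Ψ (algebraMap F[X] (RatFunc F) p) = ψ p := fun p =>
    IsFractionRing.lift_algebraMap hψ p
  have hΨa : ∀ a : F, Ψ (algebraMap F (RatFunc F) a) = ι (algebraMap F E a) := by
    intro a
    rw [IsScalarTower.algebraMap_apply F F[X] (RatFunc F), hΨ]
    show aeval (σ (algebraMap F E x)) (algebraMap F F[X] a) = _
    rw [← C_eq_algebraMap, aeval_C, halg]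
  have hΨX : Ψ RatFunc.X = σ (algebraMap F E x) := by
    rw [← RatFunc.algebraMap_X, hΨ]
    exact aeval_X _
  have hcomp : (Ψ.comp (algebraMap F[X] (RatFunc F))).comp (mapRingHom (algebraMap ℂ F)) =
      embPhi x σ := by
    apply Polynomial.ringHom_ext
    · intro c
      show Ψ (algebraMap F[X] (RatFunc F) (mapRingHom (algebraMap ℂ F) (C c))) = _
      rw [hΨ, coe_mapRingHom, map_C, embPhi_C, hc]
      show aeval (σ (algebraMap F E x)) (C (algebraMap ℂ F c)) = _
      rw [aeval_C, halg, ← IsScalarTower.algebraMap_apply ℂ F E]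
    · show Ψ (algebraMap F[X] (RatFunc F) (mapRingHom (algebraMap ℂ F) X)) = _
      rw [hΨ, coe_mapRingHom, map_X, embPhi_X]
      exact aeval_X _
  have hroot : (fX F f).eval₂ Ψ (σ (algebraMap F E y)) = 0 := by
    unfold fX
    rw [eval₂_map, eval₂_map, hcomp]
    exact embPhi_root f hf σ
  refine ⟨AdjoinRoot.lift Ψ (σ (algebraMap F E y)) hroot, ?_, ?_, ?_⟩
  · intro a
    rw [AdjoinRoot.lift_of, hΨa]
  · rw [AdjoinRoot.lift_of, hΨX]
  · rw [AdjoinRoot.lift_root]

end

end Pool.H29.CB

end S_CB_Emb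

section S_CB_Same

/-!
# SAME: all embeddings different from the inclusion are alike

Let `f` be as in `irr`, `Ω = AdjoinRoot (fX F f)`, a field (`Fact (Irreducible _)`), `e, e' : Ω → N` the
maps of `exists_emb` for `σ, σ'`; they are injective.  Let `u0 = - (y - Y) / (x - X) ∈ Ω` (`x, y` the
images of `x, y ∈ F`, `X` the image of `RatFunc.X`, `Y` the root).  From `σ z = ι z`, `σ u = ι u` and
`σ x ≠ ι x` (otherwise `σ y = ι y`, `σ = ι` by `hom_ext'`) we get `e u0 = ι u`, and `e' u0 = ι u`.
(1) For every `w ∈ E` there is `ω ∈ Ω` with `e ω = ι w` and `e' ω = ι w`: these `w` form a subfield of `E`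
which contains the constants, `x`, `y` (images of `F`) and `u` (`ω = u0`): use `sub_top`.
(2) For every `w ∈ E` there is `ω ∈ Ω` with `e ω = σ w` and `e' ω = σ' w`: again a subfield with
the constants, `x` (`ω = X`), `y` (`ω = Y`), `u` (`ω = u0`).
If `σ w = ι w` take `ω1` of (1) and `ω2` of (2): `e ω1 = e ω2`, so `ω1 = ω2` and `σ' w = ι w`.
(On constants `e, e'` of the image of `c` is `ι c = σ c = σ' c`.)
-/

namespace Pool.H29.CB

open Polynomial Module

noncomputable section

/-- the elements `w` with `(α w, α' w)` in the image of `(e, e')` -/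
def same_sub {Ω N E : Type} [Field Ω] [Field N] [Field E] (e e' : Ω →+* N) (α α' : E →+* N) :
    Subfield E where
  carrier := {w | ∃ ω, e ω = α w ∧ e' ω = α' w}
  mul_mem' := by
    rintro a b ⟨p, hp, hp'⟩ ⟨q, hq, hq'⟩
    exact ⟨p * q, by rw [map_mul, map_mul, hp, hq], by rw [map_mul, map_mul, hp', hq']⟩
  one_mem' := ⟨1, by simp, by simp⟩
  add_mem' := by
    rintro a b ⟨p, hp, hp'⟩ ⟨q, hq, hq'⟩
    exact ⟨p + q, by rw [map_add, map_add, hp, hq], by rw [map_add, map_add, hp', hq']⟩
  zero_mem' := ⟨0, by simp, by simp⟩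
  neg_mem' := by
    rintro a ⟨p, hp, hp'⟩
    exact ⟨-p, by rw [map_neg, map_neg, hp], by rw [map_neg, map_neg, hp']⟩
  inv_mem' := by
    rintro a ⟨p, hp, hp'⟩
    exact ⟨p⁻¹, by rw [map_inv₀, map_inv₀, hp], by rw [map_inv₀, map_inv₀, hp']⟩

theorem same_mem {Ω N E : Type} [Field Ω] [Field N] [Field E] (e e' : Ω →+* N) (α α' : E →+* N)
    (w : E) : w ∈ same_sub e e' α α' ↔ ∃ ω, e ω = α w ∧ e' ω = α' w := Iff.rfl

variable {F : Type} [Field F] [Algebra ℂ F] {E : Type} [Field E] [Algebra ℂ E] [Algebra F E]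
  [IsScalarTower ℂ F E]

theorem same_ne {x y : F} (hgen : IntermediateField.adjoin ℂ {x, y} = ⊤) {u : E}
    (htop : IntermediateField.adjoin F {u} = ⊤) {N : Type} [Field N] (ι σ : E →+* N)
    (hc : ∀ c : ℂ, σ (algebraMap ℂ E c) = ι (algebraMap ℂ E c)) (hσu : σ u = ι u)
    (hσz : σ (zz x y u) = ι (zz x y u)) (hne : σ ≠ ι) :
    ι (algebraMap F E x) - σ (algebraMap F E x) ≠ 0 := by
  intro h
  have hx : σ (algebraMap F E x) = ι (algebraMap F E x) := (sub_eq_zero.1 h).symm
  apply hne
  refine hom_ext' hgen htop σ ι hc hx ?_ hσu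
  simp only [zz, map_add, map_mul, hσu, hx] at hσz
  exact add_right_cancel hσz

theorem same_u {x y : F} (hgen : IntermediateField.adjoin ℂ {x, y} = ⊤) {u : E}
    (htop : IntermediateField.adjoin F {u} = ⊤) {N : Type} [Field N] (ι σ : E →+* N)
    (hc : ∀ c : ℂ, σ (algebraMap ℂ E c) = ι (algebraMap ℂ E c)) (hσu : σ u = ι u)
    (hσz : σ (zz x y u) = ι (zz x y u)) (hne : σ ≠ ι) :
    -(ι (algebraMap F E y) - σ (algebraMap F E y)) /
      (ι (algebraMap F E x) - σ (algebraMap F E x)) = ι u := by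
  have h := same_ne hgen htop ι σ hc hσu hσz hne
  rw [div_eq_iff h]
  simp only [zz, map_add, map_mul, hσu] at hσz
  linear_combination hσz

theorem same {x y : F} (hx : Transcendental ℂ x) (f : ℂ[X][X]) (hf0 : f ≠ 0)
    (hf : f.eval₂ (aeval x : ℂ[X] →ₐ[ℂ] F).toRingHom y = 0) (hirr : Irreducible (fX F f))
    (hgen : IntermediateField.adjoin ℂ {x, y} = ⊤) {u : E} (hu : Transcendental F u)
    (htop : IntermediateField.adjoin F {u} = ⊤) {N : Type} [Field N] (ι σ σ' : E →+* N)
    (hc : ∀ c : ℂ, σ (algebraMap ℂ E c) = ι (algebraMap ℂ E c)) (hσu : σ u = ι u)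
    (hσz : σ (zz x y u) = ι (zz x y u)) (hne : σ ≠ ι)
    (hc' : ∀ c : ℂ, σ' (algebraMap ℂ E c) = ι (algebraMap ℂ E c)) (hσu' : σ' u = ι u)
    (hσz' : σ' (zz x y u) = ι (zz x y u)) (hne' : σ' ≠ ι) (w : E) (hw : σ w = ι w) :
    σ' w = ι w := by
  have : Fact (Irreducible (fX F f)) := ⟨hirr⟩
  obtain ⟨e, he1, he2, he3⟩ := exists_emb hx f hf0 hf hgen hu htop ι σ hc hσu hσz hne
  obtain ⟨e', he1', he2', he3'⟩ := exists_emb hx f hf0 hf hgen hu htop ι σ' hc' hσu' hσz' hne'
  -- the element `u0`
  let u0 : AdjoinRoot (fX F f) :=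
    -(AdjoinRoot.of (fX F f) (algebraMap F (RatFunc F) y) - AdjoinRoot.root (fX F f)) /
      (AdjoinRoot.of (fX F f) (algebraMap F (RatFunc F) x) - AdjoinRoot.of (fX F f) RatFunc.X)
  have hu0 : e u0 = ι u := by
    simp only [u0, map_div₀, map_neg, map_sub, he1, he2, he3]
    exact same_u hgen htop ι σ hc hσu hσz hne
  have hu0' : e' u0 = ι u := by
    simp only [u0, map_div₀, map_neg, map_sub, he1', he2', he3']
    exact same_u hgen htop ι σ' hc' hσu' hσz' hne'
  have hC : ∀ c : ℂ, e (AdjoinRoot.of (fX F f) (algebraMap F (RatFunc F) (algebraMap ℂ F c))) =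
      ι (algebraMap ℂ E c) := by
    intro c
    rw [he1, IsScalarTower.algebraMap_apply ℂ F E]
  have hC' : ∀ c : ℂ, e' (AdjoinRoot.of (fX F f) (algebraMap F (RatFunc F) (algebraMap ℂ F c))) =
      ι (algebraMap ℂ E c) := by
    intro c
    rw [he1', IsScalarTower.algebraMap_apply ℂ F E]
  have h1 : same_sub e e' ι ι = ⊤ := by
    refine sub_top hgen htop _ ?_ ?_ ?_ ?_
    · exact fun c => ⟨_, hC c, hC' c⟩
    · exact ⟨_, he1 x, he1' x⟩
    · exact ⟨_, he1 y, he1' y⟩
    · exact ⟨u0, hu0, hu0'⟩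
  have h2 : same_sub e e' σ σ' = ⊤ := by
    refine sub_top hgen htop _ ?_ ?_ ?_ ?_
    · exact fun c => ⟨_, (hC c).trans (hc c).symm, (hC' c).trans (hc' c).symm⟩
    · exact ⟨_, he2, he2'⟩
    · exact ⟨_, he3, he3'⟩
    · exact ⟨u0, hu0.trans hσu.symm, hu0'.trans hσu'.symm⟩
  obtain ⟨ω1, ha, ha'⟩ := (same_mem e e' ι ι w).1 (h1 ▸ Subfield.mem_top w)
  obtain ⟨ω2, hb, hb'⟩ := (same_mem e e' σ σ' w).1 (h2 ▸ Subfield.mem_top w)
  have : ω1 = ω2 := e.injective (by rw [ha, hb, hw])
  rw [← hb', ← this, ha']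

end

end Pool.H29.CB

end S_CB_Same

section S_CB_Pri

/-!
# PRI: `F(u) / ℂ(u, y + u x)` has no intermediate fields

Let `M` be an intermediate field, `M ≠ ⊥`, `M ≠ ⊤`; `f` from `irr`; `E / K` is algebraic by `algK`.
Take `w ∈ M`, `w ∉ ⊥`, and by `exists_moving` a `K`-map `σ : E → N = AlgebraicClosure E` with
`σ w ≠ ι w`, `ι` the inclusion.  Take `v ∉ M`; `E / M` is algebraic, and `v ∉ (⊥ : IntermediateField M E)`,
so there is an `M`-map `σ' : E → N` with `σ' v ≠ ι v`.  Both are different from `ι` and agree with `ι` on `K`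
(on constants, on `u`, on `z`).  `σ' w = ι w` as `w ∈ M`.  By `same` (roles: `σ := σ'`, `σ' := σ`)
`σ w = ι w`, contradiction.
-/

namespace Pool.H29.CB

open Polynomial Module Pool.H29.BN

noncomputable section

variable {F : Type} [Field F] [Algebra ℂ F] {E : Type} [Field E] [Algebra ℂ E] [Algebra F E]
  [IsScalarTower ℂ F E]

theorem prim (hF : IsFF F) {x y : F} (hx : Transcendental ℂ x)
    (hgen : IntermediateField.adjoin ℂ {x, y} = ⊤) {u : E} (hu : Transcendental F u)
    (htop : IntermediateField.adjoin F {u} = ⊤) : Prim (KK x y u) E := by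
  intro M
  by_contra hM
  push Not at hM
  obtain ⟨hb, ht⟩ := hM
  obtain ⟨f, hfi, hfd, hf, hfX⟩ := irr hF hx y
  have halg : Algebra.IsAlgebraic (KK x y u) E := algK f hfi.ne_zero hf hgen hu htop
  have hE0 : CharZero E := charZero_of_injective_algebraMap (algebraMap ℂ E).injective
  have hK0 : CharZero (KK x y u) :=
    charZero_of_injective_algebraMap (algebraMap ℂ (KK x y u)).injective
  have hM0 : CharZero M :=
    charZero_of_injective_algebraMap (algebraMap (KK x y u) M).injective
  obtain ⟨w, hwM, hwb⟩ : ∃ w ∈ M, w ∉ (⊥ : IntermediateField (KK x y u) E) := by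
    by_contra h
    push Not at h
    exact hb (le_bot_iff.mp h)
  obtain ⟨v, hv⟩ : ∃ v : E, v ∉ M := by
    by_contra h
    push Not at h
    exact ht (eq_top_iff.mpr fun v _ => h v)
  obtain ⟨σ, hσ⟩ := exists_moving w hwb
  have hMalg : Algebra.IsAlgebraic M E := Algebra.IsAlgebraic.tower_top (K := KK x y u) M
  have hv' : v ∉ (⊥ : IntermediateField M E) := by
    intro h
    obtain ⟨m, hm⟩ := IntermediateField.mem_bot.mp h
    exact hv (hm ▸ m.2)
  obtain ⟨σ', hσ'⟩ := exists_moving v hv'
  -- both maps are the inclusion on `K`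
  have h1 : ∀ e : E, e ∈ KK x y u → σ e = algebraMap E (AlgebraicClosure E) e := by
    intro e he
    exact (σ.commutes ⟨e, he⟩).trans rfl
  have h2 : ∀ e : E, e ∈ M → σ' e = algebraMap E (AlgebraicClosure E) e := by
    intro e he
    exact (σ'.commutes ⟨e, he⟩).trans rfl
  have h3 : ∀ e : E, e ∈ KK x y u → e ∈ M := fun e he => M.algebraMap_mem ⟨e, he⟩
  have hcK : ∀ c : ℂ, algebraMap ℂ E c ∈ KK x y u := fun c => (KK x y u).algebraMap_mem c
  refine hσ (same hx f hfi.ne_zero hf hfX hgen hu htop (algebraMap E (AlgebraicClosure E))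
    σ'.toRingHom σ.toRingHom ?_ ?_ ?_ ?_ ?_ ?_ ?_ ?_ w ?_)
  · intro c
    exact h2 _ (h3 _ (hcK c))
  · exact h2 _ (h3 _ (u_mem x y u))
  · exact h2 _ (h3 _ (z_mem x y u))
  · intro h
    exact hσ' (congrArg (fun g : E →+* AlgebraicClosure E => g v) h)
  · intro c
    exact h1 _ (hcK c)
  · exact h1 _ (u_mem x y u)
  · exact h1 _ (z_mem x y u)
  · intro h
    exact hσ (congrArg (fun g : E →+* AlgebraicClosure E => g w) h)
  · exact h2 _ hwM

end

end Pool.H29.CB

end S_CB_Pri
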