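import Mathlib
import Pool.Agent.H29.CM.CbA
import Pool.Agent.H29.CM.CbB

/-! Brill-Noether loci and Castelnuovo bound, part CbC: this file joins several modules to save build time. -/

section S_CB_GenA

/-!
# GENA: independence over `ℂ[y]` in `F` gives independence over `ℂ[u, z]` in `F(u)`, `z = y + u x`

`P i ∈ ℂ[Z][U]` (outer variable `U`, inner variable `Z`).  Induct on a bound for the degrees
`natDegree (P i)`.  As `u` is transcendental over `F` the relation is an identity in `F[U]`:
`∑ i, P_i(y + U x, U) w_i = 0` (polynomial `∑ (P i).eval₂ (aeval (C y + X * C x)) X * C (w i)` in `F[X]`, whose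
value at `u` is the given sum).  Put `U = 0`: `∑ i, aeval y ((P i).coeff 0) * w_i = 0`, so by `hw` all
`(P i).coeff 0 = 0`, `P i = X * Q i` (`Polynomial.divX`), and `u * ∑ Q_i(z,u) w_i = 0`, `u ≠ 0`;
induct with `Q = fun i => (P i).divX` (`natDegree_divX_eq_natDegree_tsub_one`).
-/

namespace Pool.H29.CB

open Polynomial Module

noncomputable section

variable {F : Type} [Field F] [Algebra ℂ F] {E : Type} [Field E] [Algebra ℂ E] [Algebra F E]
  [IsScalarTower ℂ F E]

theorem gena_aux {ι : Type} [Fintype ι] (w : ι → F) (y : F)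
    (hw : ∀ P : ι → ℂ[X], ∑ i, aeval y (P i) * w i = 0 → ∀ i, P i = 0) (x : F) {u : E}
    (hu : Transcendental F u) (P : ι → ℂ[X][X])
    (hP : ∑ i, (P i).eval₂ (aeval (zz x y u) : ℂ[X] →ₐ[ℂ] E).toRingHom u *
      algebraMap F E (w i) = 0) : ∀ i, (P i).coeff 0 = 0 := by
  let ψ : ℂ[X] →ₐ[ℂ] F[X] := aeval (C y + X * C x)
  let f : F[X] →ₐ[ℂ] E := (aeval u : F[X] →ₐ[F] E).restrictScalars ℂ
  have hf : ∀ q : F[X], f q = aeval u q := fun q => rfl
  have hz : f (C y + X * C x) = zz x y u := by
    rw [hf, map_add, map_mul, aeval_X, aeval_C, aeval_C]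
    rfl
  have hcomp : f.toRingHom.comp ψ.toRingHom = (aeval (zz x y u) : ℂ[X] →ₐ[ℂ] E).toRingHom := by
    apply RingHom.ext
    intro p
    change f (aeval (C y + X * C x) p) = aeval (zz x y u) p
    rw [← hz, aeval_algHom_apply]
  have hcomp0 : (evalRingHom (0 : F)).comp ψ.toRingHom =
      (aeval y : ℂ[X] →ₐ[ℂ] F).toRingHom := by
    let g : F[X] →ₐ[ℂ] F := (aeval (0 : F) : F[X] →ₐ[F] F).restrictScalars ℂ
    have hg : ∀ q : F[X], g q = eval 0 q := fun q => by
      change aeval (0 : F) q = eval 0 q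
      rw [coe_aeval_eq_eval]
    apply RingHom.ext
    intro p
    change eval 0 (aeval (C y + X * C x) p) = aeval y p
    rw [← hg, ← aeval_algHom_apply, hg]
    congr 2
    simp
  let R : F[X] := ∑ i, (P i).eval₂ ψ.toRingHom X * C (w i)
  have hR : aeval u R = 0 := by
    rw [← hP, map_sum]
    refine Finset.sum_congr rfl fun i _ => ?_
    rw [map_mul, aeval_C]
    congr 1
    have h1 := hom_eval₂ (P i) ψ.toRingHom f.toRingHom X
    rw [hcomp] at h1
    have h2 : f.toRingHom (X : F[X]) = u := by
      change aeval u (X : F[X]) = u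
      rw [aeval_X]
    rw [h2] at h1
    exact h1
  have hR0 : R = 0 := by
    by_contra hne
    exact hu ⟨R, hne, hR⟩
  have h0 : ∑ i, aeval y ((P i).coeff 0) * w i = 0 := by
    have h1 : eval 0 R = 0 := by rw [hR0, eval_zero]
    rw [← h1]
    change _ = eval 0 (∑ i, (P i).eval₂ ψ.toRingHom X * C (w i))
    rw [eval_finsetSum]
    refine Finset.sum_congr rfl fun i _ => ?_
    rw [eval_mul, eval_C]
    congr 1
    have h2 := hom_eval₂ (P i) ψ.toRingHom (evalRingHom (0 : F)) X
    rw [hcomp0] at h2
    have h3 : evalRingHom (0 : F) (X : F[X]) = 0 := by simp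
    rw [h3, eval₂_at_zero] at h2
    exact h2.symm
  exact hw (fun i => (P i).coeff 0) h0

theorem gen_poly {ι : Type} [Fintype ι] (w : ι → F) (y : F)
    (hw : ∀ P : ι → ℂ[X], ∑ i, aeval y (P i) * w i = 0 → ∀ i, P i = 0) (x : F) {u : E}
    (hu : Transcendental F u) (P : ι → ℂ[X][X])
    (hP : ∑ i, (P i).eval₂ (aeval (zz x y u) : ℂ[X] →ₐ[ℂ] E).toRingHom u *
      algebraMap F E (w i) = 0) : ∀ i, P i = 0 := by
  have hu0 : u ≠ 0 := by
    rintro rfl
    exact hu isAlgebraic_zero
  have key : ∀ n : ℕ, ∀ P : ι → ℂ[X][X], (∀ i, P i = 0 ∨ (P i).natDegree < n) →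
      ∑ i, (P i).eval₂ (aeval (zz x y u) : ℂ[X] →ₐ[ℂ] E).toRingHom u *
        algebraMap F E (w i) = 0 → ∀ i, P i = 0 := by
    intro n
    induction n with
    | zero =>
      intro P hd _ i
      rcases hd i with h | h
      · exact h
      · exact absurd h (Nat.not_lt_zero _)
    | succ n ih =>
      intro P hd hP
      have hc := gena_aux w y hw x hu P hP
      have hX : ∀ i, P i = X * (P i).divX := by
        intro i
        conv_lhs => rw [← X_mul_divX_add (P i), hc i, C_0, add_zero]
      have hQ : ∀ i, (P i).divX = 0 := by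
        apply ih (fun i => (P i).divX)
        · intro i
          rcases hd i with h | h
          · left
            rw [h, divX_zero]
          · by_cases h0 : (P i).natDegree = 0
            · left
              have h1 := eq_C_of_natDegree_eq_zero h0
              rw [hc i, C_0] at h1
              rw [h1, divX_zero]
            · right
              rw [natDegree_divX_eq_natDegree_tsub_one]
              omega
        · have h1 : u * ∑ i, ((P i).divX).eval₂ (aeval (zz x y u) : ℂ[X] →ₐ[ℂ] E).toRingHom u *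
              algebraMap F E (w i) = 0 := by
            rw [← hP, Finset.mul_sum]
            refine Finset.sum_congr rfl fun i _ => ?_
            conv_rhs => rw [hX i, eval₂_mul, eval₂_X]
            ring
          rcases mul_eq_zero.mp h1 with h | h
          · exact absurd h hu0
          · exact h
      intro i
      rw [hX i, hQ i, mul_zero]
  refine key (Finset.univ.sup (fun i => (P i).natDegree) + 1) P (fun i => Or.inr ?_) hP
  exact Nat.lt_succ_of_le (Finset.le_sup (f := fun i => (P i).natDegree) (Finset.mem_univ i))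

end

end Pool.H29.CB

end S_CB_GenA

section S_CB_GenB

/-!
# GENB: independence over `K = ℂ(u, z)`; `z` is transcendental over `k = ℂ(u)`

Every element of `Algebra.adjoin ℂ {u, z}` is `P.eval₂ (aeval z) u` for some `P ∈ ℂ[Z][U]`, every element of
`K = IntermediateField.adjoin ℂ {u, z}` is a quotient of two such elements
(`IntermediateField.mem_adjoin_iff_div` or `IntermediateField.mem_adjoin_pair_iff`-like lemmas); finitely
many elements of `K` have a common denominator.  So a relation `∑ κ_i w_i = 0` over `K` gives, after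
multiplication by a common denominator, a relation as in `gen_poly`: all numerators vanish.

`z_trans`: apply `gen_poly` with `ι = Unit`, `w = 1` (`hw`: `aeval y P = 0 → P = 0` is the
transcendence of `y`): `P(z,u) = 0` implies `P = 0`.  If `z` were algebraic over `k = ℂ(u)`, clearing
denominators would give a nonzero `P ∈ ℂ[Z][U]` with `P(z,u) = 0`.
-/

namespace Pool.H29.CB

open Polynomial Module

noncomputable section

variable {F : Type} [Field F] [Algebra ℂ F] {E : Type} [Field E] [Algebra ℂ E] [Algebra F E]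
  [IsScalarTower ℂ F E]

theorem genb_mem (u z : E) (a : E) (ha : a ∈ Algebra.adjoin ℂ ({u, z} : Set E)) :
    ∃ P : ℂ[X][X], P.eval₂ (aeval z : ℂ[X] →ₐ[ℂ] E).toRingHom u = a := by
  induction ha using Algebra.adjoin_induction with
  | mem x hx =>
    rcases hx with rfl | rfl
    · exact ⟨X, by simp⟩
    · exact ⟨C X, by simp⟩
  | algebraMap c => exact ⟨C (C c), by simp⟩
  | add x y _ _ hx hy =>
    obtain ⟨P, rfl⟩ := hx
    obtain ⟨Q, rfl⟩ := hy
    exact ⟨P + Q, by rw [eval₂_add]⟩
  | mul x y _ _ hx hy =>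
    obtain ⟨P, rfl⟩ := hx
    obtain ⟨Q, rfl⟩ := hy
    exact ⟨P * Q, by rw [eval₂_mul]⟩

open scoped IntermediateField.algebraAdjoinAdjoin in
theorem gen_indep {ι : Type} [Fintype ι] (w : ι → F) (y : F)
    (hw : ∀ P : ι → ℂ[X], ∑ i, aeval y (P i) * w i = 0 → ∀ i, P i = 0) (x : F) {u : E}
    (hu : Transcendental F u) :
    LinearIndependent (KK x y u) (fun i => algebraMap F E (w i)) := by
  unfold KK
  rw [← LinearIndependent.iff_fractionRing (Algebra.adjoin ℂ ({u, zz x y u} : Set E)),
    Fintype.linearIndependent_iff]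
  intro g hg
  choose P hP using fun i => genb_mem u (zz x y u) (g i : E) (g i).2
  have h1 : ∀ i, P i = 0 := by
    refine gen_poly w y hw x hu P ?_
    rw [← hg]
    refine Finset.sum_congr rfl fun i _ => ?_
    rw [hP i, Algebra.smul_def]
    rfl
  intro i
  have h2 := hP i
  rw [h1 i, eval₂_zero] at h2
  exact Subtype.ext h2.symm

open scoped IntermediateField.algebraAdjoinAdjoin in
theorem z_trans {y : F} (hy : Transcendental ℂ y) (x : F) {u : E} (hu : Transcendental F u) :
    Transcendental (kk u) (zz x y u) := by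
  have hgen : ∀ P : ℂ[X][X], P.eval₂ (aeval (zz x y u) : ℂ[X] →ₐ[ℂ] E).toRingHom u = 0 →
      P = 0 := by
    intro P hP
    refine gen_poly (ι := Unit) (fun _ => (1 : F)) y ?_ x hu (fun _ => P) ?_ ()
    · intro Q hQ i
      simp only [Finset.univ_unique, Finset.sum_singleton, mul_one] at hQ
      by_contra hne
      exact hy ⟨Q i, hne, hQ⟩
    · simp only [Finset.univ_unique, Finset.sum_singleton, map_one, mul_one]
      exact hP
  unfold kk
  intro halg
  rw [← IsFractionRing.isAlgebraic_iff (Algebra.adjoin ℂ ({u} : Set E))] at halg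
  obtain ⟨p, hp, hpz⟩ := halg
  have hmem : ∀ n, ∃ Q : ℂ[X], aeval u Q = (p.coeff n : E) := by
    intro n
    have h2 := Algebra.adjoin_singleton_eq_range_aeval ℂ u
    have h3 : (p.coeff n : E) ∈ (aeval u : ℂ[X] →ₐ[ℂ] E).range := by
      rw [← h2]
      exact SetLike.coe_mem _
    exact h3
  choose Q hQ using hmem
  have h1 := hgen (∑ n ∈ Finset.range (p.natDegree + 1), (Q n).map C * C (X ^ n)) (by
    rw [eval₂_finsetSum, ← hpz, aeval_eq_sum_range]
    refine Finset.sum_congr rfl fun n _ => ?_
    rw [eval₂_mul, eval₂_C, Algebra.smul_def, eval₂_map]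
    have h2 : ((aeval (zz x y u) : ℂ[X] →ₐ[ℂ] E).toRingHom.comp C) = algebraMap ℂ E := by
      ext c
      simp
    rw [h2, ← aeval_def, hQ n]
    simp)
  apply hp
  ext n
  rw [coeff_zero, ZeroMemClass.coe_zero, ← hQ n]
  by_cases hn : n ∈ Finset.range (p.natDegree + 1)
  · have h3 : Q n = 0 := by
      ext m
      have h4 := congrArg (fun R : ℂ[X][X] => (R.coeff m).coeff n) h1
      simp only [finsetSum_coeff, coeff_mul_C, coeff_map, coeff_C_mul, coeff_X_pow, coeff_zero,
        mul_ite, mul_one, mul_zero, Finset.sum_ite_eq, hn, if_true] at h4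
      rw [coeff_zero]
      exact h4
    rw [h3, map_zero]
  · rw [hQ n, coeff_eq_zero_of_natDegree_lt (by
      rw [Finset.mem_range] at hn
      omega)]
    rfl

end

end Pool.H29.CB

end S_CB_GenB

section S_CB_Exi

/-!
# EXI: independence over `ℂ[y]`

`D ≥ 0`, `y ∈ L(D)` has a pole of the exact order `D P` at all points of `D`.  Induct on a bound for
the degrees of the `P i`.  Let `c i = (P i).coeff 0`, `Q i = (P i).divX`, so
`∑ c_i f_i = - y ∑ Q_i(y) f_i = y h` with `h = - ∑ Q_i(y) f_i`.  Claim `h ∈ L(n D)`: let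
`h ≠ 0`.  If `D P = 0`: `y` and the `f_i` have `ord_P ≥ 0` (or are zero), so `ord_P h ≥ 0`
(`Pt.ord_aeval_nonneg`, sums).  If `D P > 0`: `y h = ∑ c_i f_i ∈ L((n+1) D)` is not zero
(`y ≠ 0`), so `ord_P h = ord_P (y h) - ord_P y ≥ -(n+1) D P + D P = - n D P`.  So by `hind` all
`c i = 0`; then `P i = X * Q i`, `y * ∑ Q_i(y) f_i = 0`, `∑ Q_i(y) f_i = 0`, and induction gives `Q i = 0`.
-/

namespace Pool.H29.CB

open Polynomial Module Pool.H29.BN

noncomputable section

variable {F : Type} [Field F] [Algebra ℂ F]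

theorem exi_le_ord_sum (P : Pt F) (m : ℤ) {ι : Type} (s : Finset ι) (g : ι → F)
    (hg : ∀ i ∈ s, g i ≠ 0 → m ≤ P.ord (g i)) : ∑ i ∈ s, g i ≠ 0 → m ≤ P.ord (∑ i ∈ s, g i) := by
  classical
  induction s using Finset.induction_on with
  | empty => intro h; exact absurd (Finset.sum_empty) h
  | insert a s ha ih =>
    intro h
    rw [Finset.sum_insert ha] at h ⊢
    exact P.le_ord_add m h (hg a (Finset.mem_insert_self _ _))
      (ih (fun i hi => hg i (Finset.mem_insert_of_mem hi)))

theorem exi {D : Dv F} (hD : 0 ≤ D) {y : F} (hy : y ∈ LL D) (hy0 : y ≠ 0)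
    (hex : ∀ P : Pt F, 0 < D P → P.ord y = - D P) (n : ℕ) {ι : Type} [Fintype ι] (f : ι → F)
    (hf : ∀ i, f i ∈ LL ((n + 1) • D))
    (hind : ∀ c : ι → ℂ, ∀ h ∈ LL (n • D), ∑ i, c i • f i = y * h → ∀ i, c i = 0)
    (P : ι → ℂ[X]) (hP : ∑ i, aeval y (P i) * f i = 0) : ∀ i, P i = 0 := by
  obtain ⟨N, hN⟩ : ∃ N : ℕ, ∀ i, (P i).natDegree < N + 1 := by
    refine ⟨∑ i, (P i).natDegree, fun i => Nat.lt_succ_of_le ?_⟩
    exact Finset.single_le_sum (f := fun i => (P i).natDegree) (fun _ _ => Nat.zero_le _)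
      (Finset.mem_univ i)
  -- the basic step
  have step : ∀ P : ι → ℂ[X], ∑ i, aeval y (P i) * f i = 0 →
      (∀ i, (P i).coeff 0 = 0) ∧ ∑ i, aeval y ((P i).divX) * f i = 0 := by
    intro P hP
    set h : F := - ∑ i, aeval y ((P i).divX) * f i with hh
    have hdec : ∀ i, aeval y (P i) = y * aeval y ((P i).divX) + algebraMap ℂ F ((P i).coeff 0) := by
      intro i
      have h1 := congrArg (aeval y) (X_mul_divX_add (P i))
      rw [map_add, map_mul, aeval_X, aeval_C] at h1
      exact h1.symm
    have hsum : ∑ i, (P i).coeff 0 • f i = y * h := by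
      have h1 : ∑ i, aeval y (P i) * f i =
          y * ∑ i, aeval y ((P i).divX) * f i + ∑ i, (P i).coeff 0 • f i := by
        rw [Finset.mul_sum, ← Finset.sum_add_distrib]
        refine Finset.sum_congr rfl fun i _ => ?_
        rw [hdec i, Algebra.smul_def]
        ring
      rw [hP] at h1
      rw [hh]
      linear_combination -h1
    have hmem : h ∈ LL (n • D) := by
      intro h0 Q
      have hDQ : 0 ≤ D Q := hD Q
      have hyh : y * h ∈ LL ((n + 1) • D) := by
        rw [← hsum]
        exact Submodule.sum_mem _ fun i _ => Submodule.smul_mem _ _ (hf i)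
      have hyQ := hy hy0 Q
      rcases hDQ.eq_or_lt with hz | hpos
      · -- no pole
        have hy1 : 0 ≤ Q.ord y := by rw [← hz] at hyQ; simpa using hyQ
        have hf1 : ∀ i, f i ≠ 0 → 0 ≤ Q.ord (f i) := by
          intro i hi
          have := hf i hi Q
          rw [Finsupp.smul_apply, ← hz] at this
          simpa using this
        have h1 : 0 ≤ Q.ord h := by
          rw [hh, Q.ord_neg]
          refine exi_le_ord_sum Q 0 _ _ (fun i _ hi => ?_) (fun hc => h0 (by rw [hh, hc, neg_zero]))
          rw [Q.ord_mul _ _ (left_ne_zero_of_mul hi) (right_ne_zero_of_mul hi)]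
          exact add_nonneg (Q.ord_aeval_nonneg hy1 _) (hf1 i (right_ne_zero_of_mul hi))
        rw [Finsupp.smul_apply, ← hz]
        simpa using h1
      · have h1 := hyh (mul_ne_zero hy0 h0) Q
        rw [Q.ord_mul _ _ hy0 h0, hex Q hpos, Finsupp.smul_apply] at h1
        rw [Finsupp.smul_apply]
        simp only [nsmul_eq_mul] at h1 ⊢
        push_cast at h1
        linarith
    refine ⟨hind _ h hmem hsum, ?_⟩
    have hc := hind _ h hmem hsum
    have h2 : y * h = 0 := by
      rw [← hsum]
      exact Finset.sum_eq_zero fun i _ => by rw [hc i, zero_smul]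
    have h3 : h = 0 := (mul_eq_zero.mp h2).resolve_left hy0
    rw [hh] at h3
    exact neg_eq_zero.mp h3
  induction N generalizing P with
  | zero =>
    intro i
    have h1 := (step P hP).1 i
    have h2 : (P i).natDegree = 0 := by have := hN i; omega
    rw [eq_C_of_natDegree_eq_zero h2, h1, C_0]
  | succ N ih =>
    obtain ⟨hc, hd⟩ := step P hP
    have h1 := ih (fun i => (P i).divX) hd (by
      intro i
      have := hN i
      simp only [natDegree_divX_eq_natDegree_tsub_one]
      omega)
    intro i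
    have h2 : (P i).divX = 0 := h1 i
    have h3 := X_mul_divX_add (P i)
    rw [h2, hc i, mul_zero, C_0, add_zero] at h3
    exact h3.symm

end

end Pool.H29.CB

end S_CB_Exi

section S_CB_Fam

/-!
# FAM: many elements of `L((n+1) D)` independent over `K`

The ℂ-linear map `L(n D) → L((n+1) D)`, `h ↦ y h` (well defined: `ord_P y ≥ - D P`), is injective;
its range has dimension `ell (n • D)`; take a complement of the range in `L((n+1) D)` and a basis of
it, of cardinality `ell ((n+1) • D) - ell (n • D)` (both spaces are finite dimensional by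
`fin_of_genus`).  A combination of the basis which is of the form `y h` lies in the intersection, so it vanishes
and the coefficients are zero: this is `hind` of `exi`.  `exi` and `gen_indep` give the claim.  `y ≠ 0`:
`deg D ≥ 1` and `D ≥ 0` give a point with `D P > 0`, `ord_P y = - D P ≠ 0`.
-/

namespace Pool.H29.CB

open Polynomial Module Pool.H29.BN

noncomputable section

variable {F : Type} [Field F] [Algebra ℂ F] {E : Type} [Field E] [Algebra ℂ E] [Algebra F E]
  [IsScalarTower ℂ F E] {g : ℕ}

theorem fam_lin (V W : Type) [AddCommGroup V] [Module ℂ V] [AddCommGroup W] [Module ℂ W]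
    [FiniteDimensional ℂ V] (m : W →ₗ[ℂ] V) (hminj : Function.Injective m) :
    ∃ b : Fin (finrank ℂ V - finrank ℂ W) → V,
      ∀ c : Fin (finrank ℂ V - finrank ℂ W) → ℂ, ∀ h : W, ∑ i, c i • b i = m h →
        ∀ i, c i = 0 := by
  classical
  obtain ⟨C, hC⟩ := Submodule.exists_isCompl (LinearMap.range m)
  have hfr : finrank ℂ C = finrank ℂ V - finrank ℂ W := by
    have h1 := Submodule.finrank_add_eq_of_isCompl hC
    have h2 := LinearMap.finrank_range_of_inj hminj
    omega
  have b : Basis (Fin (finrank ℂ V - finrank ℂ W)) ℂ C :=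
    Module.finBasisOfFinrankEq ℂ C hfr
  refine ⟨fun i => (b i : V), ?_⟩
  intro c h hc
  have h1 : ((∑ i, c i • b i : C) : V) = m h := by
    rw [← hc]
    push_cast
    rfl
  have h2 : ((∑ i, c i • b i : C) : V) ∈ (LinearMap.range m) ⊓ C := by
    refine ⟨?_, (∑ i, c i • b i : C).2⟩
    rw [h1]
    exact ⟨_, rfl⟩
  rw [hC.inf_eq_bot, Submodule.mem_bot] at h2
  have h3 : (∑ i, c i • b i : C) = 0 := Subtype.ext h2
  exact Fintype.linearIndependent_iff.1 b.linearIndependent c h3

theorem fam_sub {F : Type} [Field F] [Algebra ℂ F] (V W : Submodule ℂ F)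
    (hV : FiniteDimensional ℂ V) {y : F} (hy0 : y ≠ 0)
    (hmul : ∀ h ∈ W, y * h ∈ V) :
    ∃ f : Fin (finrank ℂ V - finrank ℂ W) → F, (∀ i, f i ∈ V) ∧
      ∀ c : Fin (finrank ℂ V - finrank ℂ W) → ℂ, ∀ h ∈ W, ∑ i, c i • f i = y * h →
        ∀ i, c i = 0 := by
  let m : W →ₗ[ℂ] V := (LinearMap.mulLeft ℂ y).restrict (fun h hh => hmul h hh)
  have hm : ∀ h : W, ((m h : V) : F) = y * h := fun h => rfl
  have hminj : Function.Injective m := by
    intro a b hab
    have h1 : y * (a : F) = y * (b : F) := by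
      rw [← hm, ← hm, hab]
    exact Subtype.ext (mul_left_cancel₀ hy0 h1)
  obtain ⟨b, hb⟩ := fam_lin V W m hminj
  refine ⟨fun i => (b i : F), fun i => (b i).2, ?_⟩
  intro c h hh hc
  apply hb c ⟨h, hh⟩
  apply Subtype.ext
  rw [hm, ← hc]
  push_cast
  rfl

theorem fam (hg : IsGenus F g) (P0 : Pt F) {D : Dv F} (hD : 0 ≤ D) (hd : 1 ≤ deg D) {y : F}
    (hy : y ∈ LL D) (hex : ∀ P : Pt F, 0 < D P → P.ord y = - D P) (x : F) {u : E}
    (hu : Transcendental F u) (n : ℕ) :
    ∃ f : Fin (ell ((n + 1) • D) - ell (n • D)) → F, (∀ i, f i ∈ LL ((n + 1) • D)) ∧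
      LinearIndependent (KK x y u) (fun i => algebraMap F E (f i)) := by
  have hy0 : y ≠ 0 := by
    intro h0
    obtain ⟨P, hP⟩ : ∃ P, 0 < D P := by
      by_contra hall
      push Not at hall
      have : deg D ≤ 0 := by
        unfold deg
        exact Finset.sum_nonpos fun P _ => hall P
      omega
    have h1 := hex P hP
    rw [h0, P.ord_zero] at h1
    omega
  have hmul : ∀ h ∈ LL (n • D), y * h ∈ LL ((n + 1) • D) := by
    intro h hh hyh P
    have hh0 : h ≠ 0 := right_ne_zero_of_mul hyh
    have h1 := hh hh0 P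
    have h2 := hy hy0 P
    rw [P.ord_mul _ _ hy0 hh0]
    simp only [Finsupp.smul_apply, nsmul_eq_mul] at h1 ⊢
    push_cast
    linarith
  obtain ⟨f, hf, hc⟩ := fam_sub (LL ((n + 1) • D)) (LL (n • D)) (fin_of_genus hg P0 _) hy0 hmul
  refine ⟨f, hf, ?_⟩
  apply gen_indep f y _ x hu
  exact exi hD hy hy0 hex n f hf hc

end

end Pool.H29.CB

end S_CB_Fam

section S_CB_Dlt

/-!
# DLT: the Castelnuovo count of a generic hyperplane section

Let `K = KK x y u` and `W = span K (L(D))` (images in `E`), finite dimensional over `K` (spanned by a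
`ℂ`-basis of `L(D)`), `1 ∈ W` (as `0 ≤ D`).
`ell (0 • D) = 1`: a function in `L(0)` has a value `c` at `P0` (`Pt.residue`), `f - c ∈ L(- P0)`
vanishes by `deg_nonneg_of_mem`.
`fam` with `n = 0`: `finrank K W ≥ ell D - 1 ≥ r`.
`W ^ n ≤ span K (L(n D))` (products of `n` elements of `L(D)` lie in `L(n D)`: `Submodule.span_pow`, or
induction with `Submodule.mul_le`).
`prim` and `lcd_pow`: `W ^ n = ⊤` or `n * (finrank W - 1) + 1 ≤ finrank (W ^ n)`; in the second case
`n (r-1) + 1 ≤ finrank K (span K (L(n D)))` (finite dimensional, monotone).  In the first case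
`span K (L(n D)) = ⊤`, so `E` is finite dimensional over `K`; `fam` for a large `m` with
`ell ((m+1) • D) - ell (m • D) ≥ d` (`hg.1` for `(m+1) • D` of degree `(m+1) d`, `ell_large` for `m • D`) gives `d`
independent elements, so `d ≤ finrank K ⊤`.
-/

namespace Pool.H29.CB

open Polynomial Module Pool.H29.BN

noncomputable section

variable {F : Type} [Field F] [Algebra ℂ F] {E : Type} [Field E] [Algebra ℂ E] [Algebra F E]
  [IsScalarTower ℂ F E] {g : ℕ}

/-- the `K`-span of `L(D)` in `E` -/
def dltL (x y : F) (u : E) (D : Dv F) : Submodule (KK x y u) E :=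
  Submodule.span (KK x y u) (algebraMap F E '' (LL D : Set F))

omit [IsScalarTower ℂ F E] in
theorem dlt_mem (x y : F) (u : E) {D : Dv F} {f : F} (hf : f ∈ LL D) :
    algebraMap F E f ∈ dltL x y u D := Submodule.subset_span ⟨f, hf, rfl⟩

theorem dlt_fd (hg : IsGenus F g) (P0 : Pt F) (x y : F) (u : E) (D : Dv F) :
    FiniteDimensional (KK x y u) (dltL x y u D) := by
  have h1 := fin_of_genus hg P0 D
  have h2 : (LL D).FG := (Submodule.fg_iff_finiteDimensional _).2 h1
  obtain ⟨s, hs⟩ := h2
  have h3 : dltL x y u D ≤ Submodule.span (KK x y u) (algebraMap F E '' (s : Set F)) := by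
    refine Submodule.span_le.2 ?_
    rintro _ ⟨f, hf, rfl⟩
    have hf' : f ∈ Submodule.span ℂ (s : Set F) := by rw [hs]; exact hf
    induction hf' using Submodule.span_induction with
    | mem z hz => exact Submodule.subset_span ⟨z, hz, rfl⟩
    | zero => rw [map_zero]; exact zero_mem _
    | add a b ha hb h1 h2 =>
      rw [map_add]
      exact add_mem (h1 (by rw [← hs]; exact ha)) (h2 (by rw [← hs]; exact hb))
    | smul c a ha h1 =>
      rw [Algebra.smul_def, map_mul, ← IsScalarTower.algebraMap_apply ℂ F E]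
      have h4 := Submodule.smul_mem _ (algebraMap ℂ (KK x y u) c) (h1 (by rw [← hs]; exact ha))
      rw [Algebra.smul_def, ← IsScalarTower.algebraMap_apply ℂ (KK x y u) E] at h4
      exact h4
  have h5 : FiniteDimensional (KK x y u)
      (Submodule.span (KK x y u) (algebraMap F E '' (s : Set F))) :=
    FiniteDimensional.span_of_finite _ (s.finite_toSet.image _)
  exact Submodule.finiteDimensional_of_le h3

theorem dlt_deg_nsmul (D : Dv F) (m : ℕ) : deg (m • D) = m * deg D := by
  induction m with
  | zero => simp [deg]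
  | succ m ih => rw [succ_nsmul, deg_add, ih]; push_cast; ring

theorem dlt_ell_zero (hF : IsFF F) (hg : IsGenus F g) (P0 : Pt F) : ell (0 : Dv F) ≤ 1 := by
  unfold ell
  have h1 : (1 : F) ∈ LL (0 : Dv F) := by
    intro _ P
    rw [P.ord_one']
    simp
  refine finrank_le_one (⟨1, h1⟩ : LL (0 : Dv F)) ?_
  rintro ⟨f, hf⟩
  have hfP : ∀ P : Pt F, 0 ≤ P.ord f := by
    intro P
    by_cases h0 : f = 0
    · rw [h0, P.ord_zero]
    · simpa using hf h0 P
  obtain ⟨c, hc⟩ := P0.residue hF f (hfP P0)
  refine ⟨c, ?_⟩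
  ext
  show c • (1 : F) = f
  rw [Algebra.smul_def, mul_one]
  rcases hc with hc | hc
  · exact hc.symm
  · by_contra hne
    have hne' : f - algebraMap ℂ F c ≠ 0 := fun h => hne (sub_eq_zero.1 h).symm
    have h2 : f - algebraMap ℂ F c ∈ LL (- Finsupp.single P0 (1 : ℤ) : Dv F) := by
      intro _ P
      rw [Finsupp.neg_apply]
      by_cases hP : P0 = P
      · subst hP
        rw [Finsupp.single_eq_same]
        omega
      · rw [Finsupp.single_eq_of_ne (Ne.symm hP)]
        have h3 := P.ord_aeval_nonneg (hfP P) (X - C c)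
        simpa using h3
    have h3 := deg_nonneg_of_mem hg P0 h2 hne'
    have h4 : deg (- Finsupp.single P0 (1 : ℤ) : Dv F) = -1 := by
      have := deg_sub (0 : Dv F) (Finsupp.single P0 (1 : ℤ))
      rw [zero_sub, deg_single] at this
      rw [this]
      simp [deg]
    rw [h4] at h3
    omega

theorem dlt_LL_mul {A B : Dv F} {f h : F} (hf : f ∈ LL A) (hh : h ∈ LL B) :
    f * h ∈ LL (A + B) := by
  intro h0 P
  have h1 := left_ne_zero_of_mul h0
  have h2 := right_ne_zero_of_mul h0
  rw [P.ord_mul _ _ h1 h2, Finsupp.add_apply]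
  have := hf h1 P
  have := hh h2 P
  linarith

omit [IsScalarTower ℂ F E] in
theorem dlt_mul_le (x y : F) (u : E) (A B : Dv F) :
    dltL x y u A * dltL x y u B ≤ dltL x y u (A + B) := by
  unfold dltL
  rw [Submodule.span_mul_span]
  refine Submodule.span_mono ?_
  rintro _ ⟨_, ⟨f, hf, rfl⟩, _, ⟨h, hh, rfl⟩, rfl⟩
  exact ⟨f * h, dlt_LL_mul hf hh, map_mul _ _ _⟩

theorem dlt_one_mem {D : Dv F} (hD : 0 ≤ D) (n : ℕ) : (1 : F) ∈ LL (n • D) := by
  intro _ P
  rw [P.ord_one', zero_add]
  have := hD P
  simp only [Finsupp.coe_zero, Pi.zero_apply] at this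
  rw [Finsupp.smul_apply]
  exact nsmul_nonneg this n

omit [IsScalarTower ℂ F E] in
theorem dlt_pow_le (x y : F) (u : E) {D : Dv F} (hD : 0 ≤ D) (n : ℕ) :
    dltL x y u (1 • D) ^ n ≤ dltL x y u (n • D) := by
  induction n with
  | zero =>
    rw [pow_zero, Submodule.one_le]
    have := dlt_mem x y u (dlt_one_mem hD 0)
    rwa [map_one] at this
  | succ n ih =>
    rw [pow_succ]
    have h1 := dlt_mul_le (E := E) x y u (n • D) (1 • D)
    rw [← add_nsmul] at h1
    refine le_trans ?_ h1
    rw [Submodule.mul_le]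
    intro a ha b hb
    exact Submodule.mul_mem_mul (ih ha) hb

theorem dlt (hF : IsFF F) (hg : IsGenus F g) (P0 : Pt F) {D : Dv F} (hD : 0 ≤ D) {d r : ℕ}
    (hd : deg D = d) (hd1 : 1 ≤ d) (hr : r + 1 ≤ ell D) {x y : F} (hxD : x ∈ LL D)
    (hyD : y ∈ LL D) (hex : ∀ P : Pt F, 0 < D P → P.ord y = - D P)
    (hx : Transcendental ℂ x) (hgen : IntermediateField.adjoin ℂ {x, y} = ⊤) {u : E}
    (hu : Transcendental F u) (htop : IntermediateField.adjoin F {u} = ⊤) (n : ℕ) :
    min d (n * (r - 1) + 1) ≤ finrank (KK x y u)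
      (Submodule.span (KK x y u) (algebraMap F E '' (LL (n • D) : Set F))) := by
  show _ ≤ finrank (KK x y u) (dltL x y u (n • D))
  have hd1' : 1 ≤ deg D := by rw [hd]; exact_mod_cast hd1
  have hfdn := dlt_fd (E := E) hg P0 x y u (n • D)
  have hfd1 := dlt_fd (E := E) hg P0 x y u (1 • D)
  have h1W : (1 : E) ∈ dltL x y u (1 • D) := by
    have := dlt_mem x y u (dlt_one_mem hD 1)
    rwa [map_one] at this
  rcases lcd_pow (prim hF hx hgen hu htop) (dltL x y u (1 • D)) h1W n with htp | hle
  · -- the whole field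
    have hLtop : dltL x y u (n • D) = ⊤ := top_le_iff.1 (htp ▸ dlt_pow_le x y u hD n)
    obtain ⟨n0, hn0⟩ := ell_large hF hg P0 hd hd1
    have e1 := hn0 n0 le_rfl
    have e2 := hg.1 ((n0 + 1) • D)
    rw [dlt_deg_nsmul, hd] at e2
    push_cast at e2
    have e3 : d ≤ ell ((n0 + 1) • D) - ell (n0 • D) := by
      have : (ell (n0 • D) : ℤ) + d ≤ ell ((n0 + 1) • D) := by linarith
      omega
    obtain ⟨f, hf, hli⟩ := fam hg P0 hD hd1' hyD hex x hu n0
    have hli' : LinearIndependent (KK x y u)
        (fun i => (⟨algebraMap F E (f i), by rw [hLtop]; trivial⟩ : dltL x y u (n • D))) :=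
      LinearIndependent.of_comp (Submodule.subtype _) hli
    have e4 := hli'.fintype_card_le_finrank
    rw [Fintype.card_fin] at e4
    exact (min_le_left _ _).trans (e3.trans e4)
  · have hrk : r ≤ finrank (KK x y u) (dltL x y u (1 • D)) := by
      obtain ⟨f, hf, hli⟩ := fam hg P0 hD hd1' hyD hex x hu 0
      have hli' : LinearIndependent (KK x y u)
          (fun i => (⟨algebraMap F E (f i), by
            have := dlt_mem x y u (hf i)
            rwa [zero_add] at this⟩ : dltL x y u (1 • D))) :=
        LinearIndependent.of_comp (Submodule.subtype _) hli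
      have e4 := hli'.fintype_card_le_finrank
      rw [Fintype.card_fin, zero_add, one_nsmul, zero_nsmul] at e4
      rw [one_nsmul]
      have e5 := dlt_ell_zero hF hg P0
      omega
    have hmono : finrank (KK x y u) ↥(dltL x y u (1 • D) ^ n) ≤
        finrank (KK x y u) (dltL x y u (n • D)) := Submodule.finrank_mono (dlt_pow_le x y u hD n)
    refine (min_le_right _ _).trans (le_trans ?_ (hle.trans hmono))
    have : n * (r - 1) ≤ n * (finrank (KK x y u) (dltL x y u (1 • D)) - 1) :=
      Nat.mul_le_mul_left _ (Nat.sub_le_sub_right hrk 1)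
    omega

end

end Pool.H29.CB

end S_CB_Dlt

section S_CB_Cas

/-!
# CAS: Castelnuovo's bound

Take `E = RatFunc F`, `u = RatFunc.X` (transcendental over `F`, `adjoin F {X} = ⊤`), `k = kk u`,
`K = KK x y u`, `z = zz x y u`, `V n = span k (L(n D))` (images in `E`).
`finrank k (V n) ≤ ell (n • D)` (spanned by a basis), `V n ≤ V (n+1)` (`0 ≤ D`),
`z V n ⊆ V (n+1)` (`z f = y f + u (x f)` for `f ∈ L(n D)`, and `u ∈ k`; span induction),
`span K (V n) = span K (L(n D))` (`kk_le`).  By `cnt` (with `z_trans`; `y` is transcendental as it has a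
pole, `Pt.transcendental`) and `dlt`:
`finrank (V n) + min d ((n+1)(r-1)+1) ≤ finrank (V (n+1))`, and `1 ≤ finrank (V 0)`.  So
`1 + ∑_{j=1}^{n} min d (j (r-1) + 1) ≤ ell (n • D)` for all `n`, while `ell (n • D) ≤ n d + 1 - g` for
large `n` (`ell_large`).  For `n ≥ d` large: `g ≤ ∑_{j=1}^{n} (d - min d (j (r-1) + 1)) = castel d r`
(the terms with `j > d` vanish as `r ≥ 2`).
-/

namespace Pool.H29.CB

open Polynomial Module Pool.H29.BN

noncomputable section

section

variable {F : Type} [Field F] [Algebra ℂ F] {E : Type} [Field E] [Algebra ℂ E] [Algebra F E]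
  [IsScalarTower ℂ F E]

theorem cas_fin (W : Submodule ℂ F) [FiniteDimensional ℂ W] (k : IntermediateField ℂ E) :
    FiniteDimensional k (Submodule.span k (algebraMap F E '' (W : Set F))) ∧
      finrank k (Submodule.span k (algebraMap F E '' (W : Set F))) ≤ finrank ℂ W := by
  let b := Module.finBasis ℂ W
  have hspan : Submodule.span k (algebraMap F E '' (W : Set F)) =
      Submodule.span k (Set.range fun i => algebraMap F E (b i : F)) := by
    apply le_antisymm
    · rw [Submodule.span_le]
      rintro _ ⟨f, hf, rfl⟩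
      have h1 := congrArg (fun v : W => (v : F)) (b.sum_repr ⟨f, hf⟩)
      simp only [Submodule.coe_sum, Submodule.coe_smul] at h1
      rw [← h1, map_sum]
      apply Submodule.sum_mem
      intro i _
      have h2 : algebraMap F E (b.repr ⟨f, hf⟩ i • (b i : F)) =
          (algebraMap ℂ k (b.repr ⟨f, hf⟩ i)) • algebraMap F E (b i : F) := by
        rw [Algebra.smul_def, map_mul, ← IsScalarTower.algebraMap_apply, Algebra.smul_def,
          ← IsScalarTower.algebraMap_apply]
      rw [h2]
      exact Submodule.smul_mem _ _ (Submodule.subset_span ⟨i, rfl⟩)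
    · apply Submodule.span_mono
      rintro _ ⟨i, rfl⟩
      exact ⟨b i, (b i).2, rfl⟩
  rw [hspan]
  refine ⟨FiniteDimensional.span_of_finite k (Set.finite_range _), ?_⟩
  have := finrank_range_le_card (R := k) (fun i => algebraMap F E (b i : F))
  rw [Fintype.card_fin] at this
  exact this

theorem cas_span (W : Set F) (k K : IntermediateField ℂ E) (hkK : k ≤ K) :
    Submodule.span K (Submodule.span k (algebraMap F E '' W) : Set E) =
      Submodule.span K (algebraMap F E '' W) := by
  apply le_antisymm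
  · rw [Submodule.span_le]
    intro v hv
    induction hv using Submodule.span_induction with
    | mem v hv => exact Submodule.subset_span hv
    | zero => exact Submodule.zero_mem _
    | add v w _ _ h1 h2 => exact Submodule.add_mem _ h1 h2
    | smul c v _ h =>
      have h1 : c • v = (⟨c.1, hkK c.2⟩ : K) • v := rfl
      rw [h1]
      exact Submodule.smul_mem _ _ h
  · exact Submodule.span_mono Submodule.subset_span

variable {g : ℕ}

theorem cas_sum (hF : IsFF F) (hg : IsGenus F g) (P0 : Pt F) {D : Dv F} (hD : 0 ≤ D)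
    {d r : ℕ} (hd : deg D = d) (hd1 : 1 ≤ d) (hr : r + 1 ≤ ell D) {x y : F}
    (hxD : x ∈ LL D) (hyD : y ∈ LL D) (hex : ∀ P : Pt F, 0 < D P → P.ord y = - D P)
    (hx : Transcendental ℂ x) (hy : Transcendental ℂ y)
    (hgen : IntermediateField.adjoin ℂ {x, y} = ⊤) {u : E}
    (hu : Transcendental F u) (htop : IntermediateField.adjoin F {u} = ⊤) (n : ℕ) :
    1 + ∑ j ∈ Finset.Icc 1 n, min d (j * (r - 1) + 1) ≤ finrank (kk u)
      (Submodule.span (kk u) (algebraMap F E '' (LL (n • D) : Set F))) := by
  induction n with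
  | zero =>
    have := fin_of_genus hg P0 ((0 : ℕ) • D)
    have hfin := (cas_fin (E := E) (LL ((0 : ℕ) • D)) (kk u)).1
    rw [Finset.Icc_eq_empty (by norm_num), Finset.sum_empty, add_zero]
    have h1 : (1 : F) ∈ LL ((0 : ℕ) • D) := by
      intro _ P
      rw [P.ord_one', zero_smul]
      simp
    apply Submodule.one_le_finrank_iff.mpr
    rw [Submodule.ne_bot_iff]
    exact ⟨algebraMap F E 1, Submodule.subset_span ⟨1, h1, rfl⟩, by simp⟩
  | succ n ih =>
    have hfd := fin_of_genus hg P0 ((n + 1) • D)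
    have hfin := (cas_fin (E := E) (LL ((n + 1) • D)) (kk u)).1
    have hle : n • D ≤ (n + 1) • D := by
      rw [succ_nsmul]
      exact le_add_of_nonneg_right hD
    have h1 := cnt (kk u) (KK x y u) (kk_le x y u) (zz x y u) (z_mem x y u)
      (z_trans hy x hu)
      (Submodule.span (kk u) (algebraMap F E '' (LL (n • D) : Set F)))
      (Submodule.span (kk u) (algebraMap F E '' (LL ((n + 1) • D) : Set F)))
      (Submodule.span_mono (Set.image_mono (LL_mono hle)))
      (by
        intro v hv
        induction hv using Submodule.span_induction with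
        | mem v hv =>
          obtain ⟨f, hf, rfl⟩ := hv
          have hmul : ∀ a ∈ LL D, a * f ∈ LL ((n + 1) • D) := by
            intro a ha h0 P
            have h5 := ha (left_ne_zero_of_mul h0) P
            have h6 := hf (right_ne_zero_of_mul h0) P
            rw [P.ord_mul _ _ (left_ne_zero_of_mul h0) (right_ne_zero_of_mul h0)]
            rw [Finsupp.smul_apply, nsmul_eq_mul] at h6 ⊢
            push_cast
            linarith
          have h7 : zz x y u * algebraMap F E f = algebraMap F E (y * f) +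
              (⟨u, u_mem_kk u⟩ : kk u) • algebraMap F E (x * f) := by
            unfold zz
            rw [map_mul, map_mul, IntermediateField.smul_def]
            simp only [smul_eq_mul]
            ring
          rw [h7]
          exact Submodule.add_mem _ (Submodule.subset_span ⟨_, hmul y hyD, rfl⟩)
            (Submodule.smul_mem _ _ (Submodule.subset_span ⟨_, hmul x hxD, rfl⟩))
        | zero => rw [mul_zero]; exact Submodule.zero_mem _
        | add v w _ _ h1 h2 => rw [mul_add]; exact Submodule.add_mem _ h1 h2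
        | smul c v _ h =>
          rw [mul_smul_comm]
          exact Submodule.smul_mem _ _ h)
    rw [cas_span _ _ _ (kk_le x y u)] at h1
    have h2 := dlt hF hg P0 hD hd hd1 hr hxD hyD hex hx hgen hu htop (n + 1)
    rw [← Finset.insert_Icc_right_eq_Icc_add_one (by omega), Finset.sum_insert (by simp)]
    omega

end

variable {F : Type} [Field F] [Algebra ℂ F] {g : ℕ}

theorem castelnuovo (hF : IsFF F) (hg : IsGenus F g) (P0 : Pt F) {D : Dv F} (hD : 0 ≤ D)
    {d r : ℕ} (hd : deg D = d) (hd1 : 1 ≤ d) (hr2 : 2 ≤ r) (hr : r + 1 ≤ ell D) {x y : F}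
    (hxD : x ∈ LL D) (hyD : y ∈ LL D) (hex : ∀ P : Pt F, 0 < D P → P.ord y = - D P)
    (hx : Transcendental ℂ x) (hgen : IntermediateField.adjoin ℂ {x, y} = ⊤) :
    g ≤ castel d r := by
  obtain ⟨P, hP⟩ : ∃ P : Pt F, 0 < D P := by
    by_contra hcon
    push Not at hcon
    have hz : D = 0 := by
      ext P
      exact le_antisymm (hcon P) (hD P)
    rw [hz] at hd
    have h0 : deg (0 : Dv F) = 0 := by simp [deg]
    rw [h0] at hd
    omega
  have hy : Transcendental ℂ y := P.transcendental (by rw [hex P hP]; omega)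
  obtain ⟨n0, hn0⟩ := ell_large hF hg P0 hd hd1
  obtain ⟨n, hn, hnd⟩ : ∃ n, n0 ≤ n ∧ d ≤ n := ⟨max n0 d, le_max_left _ _, le_max_right _ _⟩
  have h1 := cas_sum (E := RatFunc F) hF hg P0 hD hd hd1 hr hxD hyD hex hx hy hgen
    RatFunc.transcendental_X RatFunc.adjoin_X n
  have hfd := fin_of_genus hg P0 (n • D)
  have h2 := (cas_fin (E := RatFunc F) (LL (n • D)) (kk (RatFunc.X : RatFunc F))).2
  have h3 : 1 + ∑ j ∈ Finset.Icc 1 n, min d (j * (r - 1) + 1) ≤ ell (n • D) := h1.trans h2
  have h4 := hn0 n hn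
  have h5 : ∑ j ∈ Finset.Icc 1 n, min d (j * (r - 1) + 1) +
      ∑ j ∈ Finset.Icc 1 n, (d - j * (r - 1) - 1) = n * d := by
    rw [← Finset.sum_add_distrib]
    have h6 : ∀ j ∈ Finset.Icc 1 n, min d (j * (r - 1) + 1) + (d - j * (r - 1) - 1) = d := by
      intro j _
      omega
    rw [Finset.sum_congr rfl h6, Finset.sum_const, Nat.card_Icc]
    simp
  have h7 : ∑ j ∈ Finset.Icc 1 n, (d - j * (r - 1) - 1) = castel d r := by
    unfold castel
    symm
    apply Finset.sum_subset (Finset.Icc_subset_Icc le_rfl hnd)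
    intro j hj hjd
    rw [Finset.mem_Icc] at hj hjd
    have h8 : d < j := by omega
    have h9 : j * 1 ≤ j * (r - 1) := Nat.mul_le_mul_left j (by omega)
    omega
  have h8 : ((1 + ∑ j ∈ Finset.Icc 1 n, min d (j * (r - 1) + 1) : ℕ) : ℤ) ≤ ell (n • D) := by
    exact_mod_cast h3
  have h9 : ((∑ j ∈ Finset.Icc 1 n, min d (j * (r - 1) + 1) + castel d r : ℕ) : ℤ) =
      n * d := by
    rw [← h7]
    exact_mod_cast h5
  have h10 : (g : ℤ) ≤ castel d r := by
    push_cast at h8 h9
    linarith
  exact_mod_cast h10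

end

end Pool.H29.CB

end S_CB_Cas
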