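import Mathlib
import Pool.Agent.H29.CM.BnA
import Pool.Agent.H29.CM.CbA
import Pool.Agent.H29.CM.CbC

/-! Brill-Noether loci and Castelnuovo bound, part CbD: this file joins several modules to save build time. -/

section S_CB_Eff

/-!
# EFF: base point free effective representative

(1) Among all divisors `A ≤ D'` with `LL A = LL D'` (e.g. `D'`) take one of minimal degree (degrees are
`≥ 0` by `deg_nonneg_of_mem`, as `LL A ≠ ⊥`).  Then `ell (A - P) < ell A` for all `P`: otherwise
`LL (A - P) = LL A` (finite dimension, `fin_of_genus`) and `A - P` has smaller degree.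
(2) Take `s0 ∈ L(A)` nonzero and `D = div(s0) + A ≥ 0` from `exists_div` (`P.ord s0 = D P - A P`,
`deg D = deg A`).  `f ∈ L(A) ↔ f / s0 ∈ L(D)`, and the same for `A - P`, `D - P`
(`ell_le_of_mul` both ways).  So `ell D = ell A = ell D'`, `ell (D - P) < ell D`.
(3) `deg D ≥ 1`: otherwise `deg D = 0`, `D = 0` and for any `P` (`P0`), `ell D ≤ ell (D - P) + 1 = 1`
(`L(-P) = 0` by `deg_nonneg_of_mem`), but `ell D ≥ 2`.
(4) `adjoin ℂ (LL D) = RF D'`: elements of `LL D` are `f / s0` with `f, s0 ∈ LL D'`; conversely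
`a / b = (a / s0) / (b / s0)`.
-/

namespace Pool.H29.CB

open Polynomial Module Pool.H29.BN

noncomputable section

variable {F : Type} [Field F] [Algebra ℂ F] {g : ℕ}

theorem eff_exists_ne {D : Dv F} (h : 1 ≤ ell D) : ∃ s ∈ LL D, s ≠ 0 := by
  have hpos : LL D ≠ ⊥ := by
    intro hbot
    unfold ell at h
    rw [hbot, finrank_bot] at h
    omega
  exact Submodule.exists_mem_ne_zero_of_ne_bot hpos

theorem eff (hF : IsFF F) (hg : IsGenus F g) (P0 : Pt F) (D' : Dv F) (h2 : 2 ≤ ell D') :
    ∃ D : Dv F, 0 ≤ D ∧ deg D ≤ deg D' ∧ 1 ≤ deg D ∧ ell D = ell D' ∧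
      (∀ P : Pt F, ell (D - Finsupp.single P 1) < ell D) ∧
      IntermediateField.adjoin ℂ (LL D : Set F) = RF D' := by
  classical
  obtain ⟨s0, hs0', hs0⟩ := eff_exists_ne (show 1 ≤ ell D' by omega)
  let T : ℕ → Prop := fun n => ∃ A : Dv F, A ≤ D' ∧ LL A = LL D' ∧ deg A = n
  have hdeg0 : ∀ A : Dv F, LL A = LL D' → 0 ≤ deg A := by
    intro A hA
    rw [← hA] at hs0'
    exact deg_nonneg_of_mem hg P0 hs0' hs0
  have hT : ∃ n, T n := ⟨(deg D').toNat, D', le_rfl, rfl, by
    have := hdeg0 D' rfl
    omega⟩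
  obtain ⟨A, hAD, hAL, hAn⟩ := Nat.find_spec hT
  have hmin : ∀ m < Nat.find hT, ¬ T m := fun m hm => Nat.find_min hT hm
  have hellA : ell A = ell D' := by unfold ell; rw [hAL]
  have hbpf : ∀ P : Pt F, ell (A - Finsupp.single P 1) < ell A := by
    intro P
    by_contra hge
    push Not at hge
    have hle0 : A - Finsupp.single P 1 ≤ A :=
      sub_le_self _ (Finsupp.single_nonneg.mpr (by norm_num))
    have hle : LL (A - Finsupp.single P 1) ≤ LL A := LL_mono hle0
    have hfin := fin_of_genus hg P0 A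
    have heq : LL (A - Finsupp.single P 1) = LL A :=
      Submodule.eq_of_le_of_finrank_le hle hge
    have hd : deg (A - Finsupp.single P 1) = deg A - 1 := by rw [deg_sub, deg_single]
    have hnn := hdeg0 (A - Finsupp.single P 1) (heq.trans hAL)
    have hpos : 1 ≤ Nat.find hT := by
      rw [hd, hAn] at hnn
      omega
    apply hmin (Nat.find hT - 1) (by omega)
    refine ⟨A - Finsupp.single P 1, hle0.trans hAD, heq.trans hAL, ?_⟩
    rw [hd, hAn]
    omega
  have hsA : s0 ∈ LL A := by rw [hAL]; exact hs0'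
  obtain ⟨E, hE0, hE, hdE⟩ := exists_div hg P0 hsA hs0
  have hinv : ∀ P : Pt F, P.ord s0⁻¹ = A P - E P := by
    intro P
    rw [P.ord_inv, hE P]; ring
  have hellE : ell E = ell A := by
    apply le_antisymm
    · exact (ell_le_of_mul (A := A) (B := E) s0 hs0 (fun P => by rw [hE P]; linarith)
        (fin_of_genus hg P0 A)).2
    · exact (ell_le_of_mul (A := E) (B := A) s0⁻¹ (inv_ne_zero hs0)
        (fun P => by rw [hinv P]; linarith) (fin_of_genus hg P0 E)).2
  have hmul : ∀ f ∈ LL E, f * s0 ∈ LL A := by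
    intro f hf h0 P
    have hf0 : f ≠ 0 := left_ne_zero_of_mul h0
    rw [P.ord_mul _ _ hf0 hs0, hE P]
    have := hf hf0 P
    linarith
  have hdiv : ∀ f ∈ LL A, f / s0 ∈ LL E := by
    intro f hf h0 P
    have hf0 : f ≠ 0 := by
      intro h
      rw [h, zero_div] at h0
      exact h0 rfl
    rw [div_eq_mul_inv, P.ord_mul _ _ hf0 (inv_ne_zero hs0), hinv P]
    have := hf hf0 P
    linarith
  refine ⟨E, hE0, by rw [hdE]; exact deg_mono hAD, ?_, hellE.trans hellA, ?_, ?_⟩
  · by_contra hlt
    push Not at hlt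
    have hst := (step hF (E - Finsupp.single P0 1) P0 (fin_of_genus hg P0 _)).2
    rw [sub_add_cancel] at hst
    have h0 : ell (E - Finsupp.single P0 1) = 0 := by
      by_contra hne
      obtain ⟨t, ht, ht0⟩ := eff_exists_ne (show 1 ≤ ell (E - Finsupp.single P0 1) by omega)
      have := deg_nonneg_of_mem hg P0 ht ht0
      rw [deg_sub, deg_single] at this
      omega
    omega
  · intro P
    have h1 := (ell_le_of_mul (A := A - Finsupp.single P 1) (B := E - Finsupp.single P 1) s0 hs0
      (fun Q => by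
        rw [Finsupp.sub_apply, Finsupp.sub_apply, hE Q]
        linarith) (fin_of_genus hg P0 _)).2
    have h2 := hbpf P
    omega
  · apply le_antisymm
    · rw [IntermediateField.adjoin_le_iff]
      intro f hf
      apply IntermediateField.subset_adjoin
      refine ⟨f * s0, ?_, s0, hs0', hs0, ?_⟩
      · rw [← hAL]; exact hmul f hf
      · rw [mul_div_cancel_right₀ _ hs0]
    · unfold RF
      rw [IntermediateField.adjoin_le_iff]
      rintro h ⟨a, ha, b, hb, hb0, rfl⟩
      rw [← hAL] at ha hb
      have h1 : a / b = (a / s0) / (b / s0) := by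
        rw [div_div_div_cancel_right₀ hs0]
      rw [h1]
      exact div_mem (IntermediateField.subset_adjoin _ _ (hdiv a ha))
        (IntermediateField.subset_adjoin _ _ (hdiv b hb))

end

end Pool.H29.CB

end S_CB_Eff

section S_CB_Exa

/-!
# EXA: a function with all poles of maximal order

For each of the finitely many points `P` with `D P > 0` the subspace `L(D - P)` of `L(D)` is proper.
A vector space over the infinite field `ℂ` is not a finite union of proper subspaces
(`Subspace.biUnion_ne_univ_of_top_notMem` or similar; or induct over the support: if `y` is good for the points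
of `T` and `s` is exact at `P` then `y + c s` is good for `T ∪ {P}` for all but finitely many `c`); take `y ∈ L(D)` in
none of them (if `D = 0` take `y = 1`, so that `y ≠ 0`; if some `D P > 0`, `ord_P y = - D P ≠ 0` gives `y ≠ 0`).
`y ∈ L(D)`, `y ∉ L(D - P)` imply `P.ord y = - D P`.
-/

namespace Pool.H29.CB

open Polynomial Module Pool.H29.BN

noncomputable section

variable {F : Type} [Field F] [Algebra ℂ F]

theorem exa {D : Dv F} (hD : 0 ≤ D) (hb : ∀ P : Pt F, ell (D - Finsupp.single P 1) < ell D) :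
    ∃ y ∈ LL D, y ≠ 0 ∧ ∀ P : Pt F, 0 < D P → P.ord y = - D P := by
  classical
  let s : Finset (Subspace ℂ (LL D)) := insert ⊥
    (D.support.image fun P => (LL (D - Finsupp.single P 1)).comap (LL D).subtype)
  have h1D : (1 : F) ∈ LL D := by
    intro _ P
    rw [P.ord_one', zero_add]
    exact hD P
  have hs : ⊤ ∉ s := by
    intro hmem
    rcases Finset.mem_insert.mp hmem with h | h
    · have h1 : (⟨1, h1D⟩ : LL D) ∈ (⊤ : Subspace ℂ (LL D)) := Submodule.mem_top
      rw [h, Submodule.mem_bot] at h1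
      exact one_ne_zero (congrArg Subtype.val h1)
    · obtain ⟨P, _, hP⟩ := Finset.mem_image.mp h
      have h1 : LL D ≤ LL (D - Finsupp.single P 1) := by
        intro f hf
        have h2 : (⟨f, hf⟩ : LL D) ∈ (⊤ : Subspace ℂ (LL D)) := Submodule.mem_top
        rw [← hP] at h2
        exact h2
      have h2 : LL (D - Finsupp.single P 1) ≤ LL D := by
        apply LL_mono
        exact sub_le_self _ (Finsupp.single_nonneg.mpr (by norm_num))
      have h3 := hb P
      unfold ell at h3
      rw [le_antisymm h2 h1] at h3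
      exact lt_irrefl _ h3
  have hne := Subspace.biUnion_ne_univ_of_top_notMem hs
  obtain ⟨y, hy⟩ : ∃ y : LL D, y ∉ ⋃ p ∈ s, (p : Set (LL D)) := by
    by_contra hcon
    push Not at hcon
    exact hne (Set.eq_univ_of_forall hcon)
  have hy' : ∀ p ∈ s, y ∉ p := by
    intro p hp hyp
    exact hy (Set.mem_biUnion hp hyp)
  have hy0 : (y : F) ≠ 0 := by
    intro h0
    apply hy' ⊥ (Finset.mem_insert_self _ _)
    rw [Submodule.mem_bot]
    exact Subtype.ext h0
  refine ⟨y, y.2, hy0, ?_⟩
  intro P hP
  by_contra hne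
  apply hy' ((LL (D - Finsupp.single P 1)).comap (LL D).subtype)
    (Finset.mem_insert_of_mem (Finset.mem_image_of_mem _ (Finsupp.mem_support_iff.mpr hP.ne')))
  rw [Submodule.mem_comap]
  intro _ Q
  rw [Finsupp.sub_apply]
  by_cases hQ : P = Q
  · subst hQ
    rw [Finsupp.single_eq_same]
    have h1 := y.2 hy0 P
    have h2 : 0 < P.ord (y : F) + D P := lt_of_le_of_ne h1 (by
      intro h3
      apply hne
      linarith)
    simp only [Submodule.coe_subtype]
    linarith
  · rw [Finsupp.single_eq_of_ne (Ne.symm hQ), sub_zero]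
    exact y.2 hy0 Q

end

end Pool.H29.CB

end S_CB_Exa

section S_CB_Pre

/-!
# PRE: a primitive element with constant coefficients

`F` is algebraic over `ℂ(y) = IntermediateField.adjoin ℂ {y}` (transcendence degree one, `y`
transcendental) and finitely generated, so it is a finite separable extension of `ℂ(y)`, with finitely
many intermediate fields.  The subspace `V` over the infinite field `ℂ` is not contained in any proper
intermediate field, so it is not the union of the finitely many intersections; an `x ∈ V` outside all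
of them generates `F` over `ℂ(y)`.  If `x` is not transcendental over `ℂ` then it is a constant
(`ℂ` algebraically closed), so `adjoin ℂ {y} = ⊤` and we take `x = y` instead.
-/

namespace Pool.H29.CB

open Polynomial Module Pool.H29.BN

noncomputable section

variable {F : Type} [Field F] [Algebra ℂ F]

theorem pre_isAlgebraic (hF : IsFF F) (y : F) (hy : Transcendental ℂ y) :
    Algebra.IsAlgebraic (IntermediateField.adjoin ℂ {y}) F := by
  have hai : AlgebraicIndependent ℂ (fun _ : Unit => y) :=
    (algebraicIndependent_unique_type_iff (ι := Unit) (x := fun _ => y)).mpr hy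
  have hbas : IsTranscendenceBasis ℂ (fun _ : Unit => y) := by
    apply hai.isTranscendenceBasis_of_trdeg_le
    · rw [hF.2]
      exact Cardinal.one_lt_aleph0
    · rw [hF.2]
      simp
  have hadj : Set.range (fun _ : Unit => y) = {y} := by
    ext z
    simp [eq_comm]
  have h := hbas.isAlgebraic_field
  rwa [hadj] at h

theorem pre (hF : IsFF F) (V : Submodule ℂ F) [FiniteDimensional ℂ V] (y : F) (hyV : y ∈ V)
    (hy : Transcendental ℂ y) (hV : IntermediateField.adjoin ℂ (V : Set F) = ⊤) :
    ∃ x ∈ V, Transcendental ℂ x ∧ IntermediateField.adjoin ℂ {x, y} = ⊤ := by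
  classical
  have := pre_isAlgebraic hF y hy
  have := hF.1
  have : Algebra.EssFiniteType (IntermediateField.adjoin ℂ {y}) F :=
    Algebra.EssFiniteType.of_comp ℂ _ F
  have : CharZero F := charZero_of_injective_algebraMap (algebraMap ℂ F).injective
  have : FiniteDimensional (IntermediateField.adjoin ℂ {y}) F :=
    Algebra.finite_of_essFiniteType_of_isAlgebraic
  have : Finite (IntermediateField (IntermediateField.adjoin ℂ {y}) F) :=
    Field.finite_intermediateField_of_exists_primitive_element _ _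
      (Field.exists_primitive_element _ _)
  -- an element outside the proper intermediate fields
  obtain ⟨x, hxV, hx⟩ : ∃ x ∈ V, ∀ M : IntermediateField (IntermediateField.adjoin ℂ {y}) F,
      x ∈ M → M = ⊤ := by
    by_contra hcon
    push Not at hcon
    let p : {M : IntermediateField (IntermediateField.adjoin ℂ {y}) F // M ≠ ⊤} →
        Subspace ℂ V := fun M =>
      Submodule.comap V.subtype (Subalgebra.toSubmodule
        (IntermediateField.restrictScalars ℂ M.1).toSubalgebra)
    obtain ⟨M, hM⟩ := Subspace.exists_eq_top_of_iUnion_eq_univ (p := p) (by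
      ext v
      simp only [Set.mem_iUnion, Set.mem_univ, iff_true]
      obtain ⟨M, h1, h2⟩ := hcon v.1 v.2
      exact ⟨⟨M, h2⟩, h1⟩)
    apply M.2
    have h1 : (V : Set F) ⊆ (IntermediateField.restrictScalars ℂ M.1 : IntermediateField ℂ F) := by
      intro v hv
      have : (⟨v, hv⟩ : V) ∈ p M := by rw [hM]; trivial
      exact this
    have h2 := IntermediateField.adjoin_le_iff.mpr h1
    rw [hV] at h2
    rw [eq_top_iff]
    intro z _
    exact h2 (IntermediateField.mem_top)
  have hgen : IntermediateField.adjoin ℂ {x, y} = ⊤ := by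
    have h1 := hx (IntermediateField.adjoin (IntermediateField.adjoin ℂ {y}) {x})
      (IntermediateField.subset_adjoin _ _ rfl)
    have h2 := IntermediateField.adjoin_adjoin_left ℂ {y} ({x} : Set F)
    rw [h1] at h2
    rw [eq_top_iff]
    intro z _
    have h3 : z ∈ (IntermediateField.restrictScalars ℂ
      (⊤ : IntermediateField (IntermediateField.adjoin ℂ {y}) F)) := trivial
    rw [h2] at h3
    have h4 : ({y} ∪ {x} : Set F) = {x, y} := by
      ext w
      simp [or_comm]
    rwa [h4] at h3
  by_cases hxt : Transcendental ℂ x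
  · exact ⟨x, hxV, hxt, hgen⟩
  · refine ⟨y, hyV, hy, ?_⟩
    have halg : IsAlgebraic ℂ x := by
      by_contra h
      exact hxt h
    have hint : IsIntegral ℂ x := halg.isIntegral
    have h1 : (minpoly ℂ x).degree = 1 :=
      IsAlgClosed.degree_eq_one_of_irreducible ℂ (minpoly.irreducible hint)
    obtain ⟨c, hc⟩ := minpoly.mem_range_of_degree_eq_one ℂ x h1
    rw [eq_top_iff, ← hgen, IntermediateField.adjoin_le_iff]
    intro w hw
    rcases hw with rfl | hw
    · rw [← hc]
      exact IntermediateField.algebraMap_mem _ _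
    · rw [Set.mem_singleton_iff] at hw
      rw [hw]
      exact IntermediateField.subset_adjoin _ _ (by simp)

end

end Pool.H29.CB

end S_CB_Pre

section S_CB_Fip

/-!
# FIP: every function has finitely many poles

`f = 0`: `B = 0`.  If `f` is constant (algebraic over `ℂ`): all orders are `0`.  Let `f` be transcendental.
(1) The set of points with `ord f < 0` is finite.  Let `w = 1 / f` (transcendental) and let
`P_1, ..., P_N` be distinct points with `ord w > 0`; we show `N ≤ [F : ℂ(w)]`, which is finite (`F` is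
finitely generated as a field and algebraic over `ℂ(w)`; see `PLC_alg` in `BN/Plc.lean`).  Let `Q` be a
point with `ord_Q w < 0` (`exists_pole`); it is none of the `P_i`.  For every `i` there is `t_i ∈ F` with
`ord_{P_j} t_i > 0` (or `t_i = 0`) for `j ≠ i`, `ord_{P_i} t_i = 0`: with `A_m = m Q - ∑_{j ≠ i} P_j` we have
`ell (A_m - P_i) < ell A_m` for some `m` (otherwise, by the step lemma and `hg.1`/`ell_le`: for `m` large
`ell A_m = deg A_m + 1 - g` and the same for `A_m - P_i`: by `hg.2` take `D0` with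
`ell D0 = deg D0 + 1 - g`; as in the proof of `ell_large` in `BN/Core.lean`, for `deg A` large
`ell A ≤ deg A + 1 - g`, and `≥` holds always), and `exists_exact` gives `t_i`.  The `t_i` are
independent over `ℂ[w]`: if `∑ p_i(w) t_i = 0` with polynomials not all divisible by `X`, then at `P_j`:
`p_j(w) t_j = - ∑_{i ≠ j} p_i(w) t_i` has positive order, so `p_j(0) = 0` for every `j`, contradiction (divide
by powers of `X`).  So they are independent over `ℂ(w)`.
(2) Let `B = ∑ (- ord_P f) P` over the finite set of points with `ord_P f < 0`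
(`Finsupp.onFinset` or a sum of singles).
An alternative for (1): the points with `ord w > 0` correspond to maximal ideals of the Dedekind domain
`B = integralClosure ℂ[w] F` which contain `w`, see `BN/Plc.lean`; there are finitely many.
-/

namespace Pool.H29.CB

open Polynomial Module Pool.H29.BN

noncomputable section

variable {F : Type} [Field F] [Algebra ℂ F] {g : ℕ}

/-- the valuation ring of a point -/
def fip_ring (P : Pt F) : ValuationSubring F where
  carrier := {x | 0 ≤ P.ord x}
  mul_mem' := by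
    intro a b ha hb
    change 0 ≤ P.ord (a * b)
    by_cases h1 : a = 0
    · rw [h1, zero_mul, P.ord_zero]
    by_cases h2 : b = 0
    · rw [h2, mul_zero, P.ord_zero]
    rw [P.ord_mul _ _ h1 h2]
    exact add_nonneg ha hb
  one_mem' := by
    change 0 ≤ P.ord 1
    rw [P.ord_one']
  add_mem' := by
    intro a b ha hb
    change 0 ≤ P.ord (a + b)
    by_cases h0 : a + b = 0
    · rw [h0, P.ord_zero]
    · exact P.le_ord_add 0 h0 (fun _ => ha) (fun _ => hb)
  zero_mem' := by
    change 0 ≤ P.ord 0
    rw [P.ord_zero]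
  neg_mem' := by
    intro a ha
    change 0 ≤ P.ord (-a)
    rw [P.ord_neg]
    exact ha
  mem_or_inv_mem' := by
    intro x
    rcases le_total 0 (P.ord x) with h | h
    · exact Or.inl h
    · right
      change 0 ≤ P.ord x⁻¹
      rw [P.ord_inv]
      linarith

theorem fip_mem_ring (P : Pt F) (x : F) : x ∈ fip_ring P ↔ 0 ≤ P.ord x := Iff.rfl

/-- integral elements are regular -/
theorem fip_integral (P : Pt F) {A : Type} [CommRing A] [Algebra A F]
    (hA : ∀ a : A, 0 ≤ P.ord (algebraMap A F a)) {h : F} (hh : IsIntegral A h) :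
    0 ≤ P.ord h := by
  obtain ⟨p, hp, hp0⟩ := hh
  let i : A →+* (fip_ring P) := (algebraMap A F).codRestrict (fip_ring P) (fun a => hA a)
  have h1 : IsIntegral (fip_ring P) h := by
    refine ⟨p.map i, hp.map i, ?_⟩
    rw [Polynomial.eval₂_map]
    exact hp0
  obtain ⟨y, hy⟩ := IsIntegrallyClosed.isIntegral_iff.1 h1
  rw [← hy]
  exact y.2

theorem fip_zpow (P : Pt F) (x : F) (n : ℤ) : P.ord (x ^ n) = n * P.ord x := by
  cases n with
  | ofNat n => simp [P.ord_pow]
  | negSucc n =>
    rw [zpow_negSucc, P.ord_inv, P.ord_pow, Int.negSucc_eq]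
    push_cast
    ring

/-- the prime ideal of a point -/
def fip_ideal (P : Pt F) (B : Type) [CommRing B] [Algebra B F]
    (hB : ∀ b : B, 0 ≤ P.ord (algebraMap B F b)) : Ideal B where
  carrier := {b | algebraMap B F b ≠ 0 → 0 < P.ord (algebraMap B F b)}
  add_mem' := by
    intro a b ha hb hab
    rw [map_add] at hab ⊢
    exact P.le_ord_add 1 hab (fun h => ha h) (fun h => hb h)
  zero_mem' := by
    intro h
    exact absurd (map_zero _) h
  smul_mem' := by
    intro c b hb hcb
    rw [smul_eq_mul, map_mul] at hcb ⊢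
    have h1 := left_ne_zero_of_mul hcb
    have h2 := right_ne_zero_of_mul hcb
    rw [P.ord_mul _ _ h1 h2]
    have := hb h2
    have := hB c
    linarith

theorem fip_pt (P : Pt F) (B : Type) [CommRing B] [IsDedekindDomain B] [Algebra B F]
    [IsFractionRing B F] [Algebra ℂ B] [IsScalarTower ℂ B F]
    (hB : ∀ b : B, 0 ≤ P.ord (algebraMap B F b)) :
    ∃ v : IsDedekindDomain.HeightOneSpectrum B, PLC_pt B v = P := by
  have hinj : Function.Injective (algebraMap B F) := IsFractionRing.injective B F
  have hne : ∀ b : B, b ≠ 0 → algebraMap B F b ≠ 0 := fun b hb h => hb (hinj (by rw [h, map_zero]))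
  have hprime : (fip_ideal P B hB).IsPrime := by
    refine ⟨?_, ?_⟩
    · intro h
      have h1 : (1 : B) ∈ fip_ideal P B hB := by rw [h]; trivial
      have h2 : 0 < P.ord (algebraMap B F 1) := h1 (by rw [map_one]; exact one_ne_zero)
      rw [map_one, P.ord_one'] at h2
      exact lt_irrefl _ h2
    · intro a b hab
      by_contra hcon
      push Not at hcon
      obtain ⟨h1, h2⟩ := hcon
      have h3 : ¬ (algebraMap B F a ≠ 0 → 0 < P.ord (algebraMap B F a)) := h1
      have h4 : ¬ (algebraMap B F b ≠ 0 → 0 < P.ord (algebraMap B F b)) := h2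
      push Not at h3 h4
      have h5 := hab (by rw [map_mul]; exact mul_ne_zero h3.1 h4.1)
      rw [map_mul, P.ord_mul _ _ h3.1 h4.1] at h5
      linarith
  obtain ⟨t, ht0, ht⟩ := P.ord_unif
  have hbot : fip_ideal P B hB ≠ ⊥ := by
    obtain ⟨a, b, hb, hab⟩ := IsFractionRing.div_surjective (A := B) t
    have hb0 : algebraMap B F b ≠ 0 := hne b (nonZeroDivisors.ne_zero hb)
    have ha0 : algebraMap B F a ≠ 0 := by
      intro h
      rw [h, zero_div] at hab
      exact ht0 hab.symm
    intro h
    have h1 : a ∈ fip_ideal P B hB := by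
      intro _
      have h2 := P.ord_div ha0 hb0
      rw [hab, ht] at h2
      have := hB b
      linarith
    rw [h] at h1
    apply ha0
    rw [Ideal.mem_bot.1 h1, map_zero]
  let v : IsDedekindDomain.HeightOneSpectrum B := ⟨fip_ideal P B hB, hprime, hbot⟩
  have hO : ∀ x : F, v.valuation F x ≤ 1 → 0 ≤ P.ord x := by
    intro x hx
    by_cases hx0 : x = 0
    · rw [hx0, P.ord_zero]
    obtain ⟨n, d, hnd⟩ :=
      IsDedekindDomain.HeightOneSpectrum.exists_primeCompl_mul_eq_of_integer v x hx
    have hd : ¬ (algebraMap B F d ≠ 0 → 0 < P.ord (algebraMap B F (d : B))) := d.2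
    push Not at hd
    have h1 := P.ord_mul x (algebraMap B F d) hx0 hd.1
    rw [hnd] at h1
    have := hB n
    linarith
  have hU : ∀ x : F, v.valuation F x = 1 → P.ord x = 0 := by
    intro x hx
    have h1 := hO x hx.le
    have h2 := hO x⁻¹ (by rw [map_inv₀, hx, inv_one])
    rw [P.ord_inv] at h2
    linarith
  obtain ⟨π, hπ⟩ := v.valuation_exists_uniformizer F
  have hπ0 : π ≠ 0 := by
    intro h
    rw [h, map_zero] at hπ
    exact absurd hπ.symm WithZero.exp_ne_zero
  have hval : ∀ x : F, x ≠ 0 → P.ord x = -WithZero.log (v.valuation F x) * P.ord π := by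
    intro x hx
    have hvx : v.valuation F x ≠ 0 := (Valuation.ne_zero_iff _).2 hx
    have h1 : v.valuation F (x * π ^ (WithZero.log (v.valuation F x))) = 1 := by
      rw [map_mul, map_zpow₀, hπ]
      have h2 : v.valuation F x = WithZero.exp (WithZero.log (v.valuation F x)) :=
        (WithZero.exp_log hvx).symm
      rw [← WithZero.exp_zsmul]
      conv_lhs => rw [h2]
      rw [← WithZero.exp_add]
      simp
    have h2 := hU _ h1
    rw [P.ord_mul _ _ hx (zpow_ne_zero _ hπ0), fip_zpow] at h2
    linarith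
  have hπn : 0 ≤ P.ord π := by
    apply hO
    rw [hπ, ← WithZero.exp_zero]
    exact WithZero.exp_le_exp.2 (by norm_num)
  have hπ1 : P.ord π = 1 := by
    have h1 := hval t ht0
    rw [ht] at h1
    have h2 : P.ord π ∣ 1 := ⟨-WithZero.log (v.valuation F t), by rw [mul_comm]; exact h1⟩
    exact Int.eq_one_of_dvd_one hπn h2
  refine ⟨v, Pt.ext ?_⟩
  funext x
  by_cases hx : x = 0
  · rw [hx, P.ord_zero]
    exact (PLC_pt B v).ord_zero
  · rw [hval x hx, hπ1, mul_one]
    rfl

theorem finite_zeros (hF : IsFF F) (hg : IsGenus F g) {w : F} (hw : Transcendental ℂ w) :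
    {P : Pt F | 0 < P.ord w}.Finite := by
  have hE := hF.1
  have hpid := PLC_pid w
  have halg := PLC_alg hF hw
  let A := Algebra.adjoin ℂ {w}
  let K := FractionRing A
  let _ : Algebra K F := FractionRing.liftAlgebra A F
  have : IsScalarTower A K F := FractionRing.isScalarTower_liftAlgebra A F
  have : IsScalarTower ℂ A F := inferInstance
  have : IsScalarTower ℂ A K := inferInstance
  have : IsScalarTower ℂ K F := by
    refine IsScalarTower.of_algebraMap_eq fun c => ?_
    rw [IsScalarTower.algebraMap_apply ℂ A F, IsScalarTower.algebraMap_apply ℂ A K,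
      ← IsScalarTower.algebraMap_apply A K F]
  have : Algebra.EssFiniteType K F := Algebra.EssFiniteType.of_comp ℂ K F
  have : Algebra.IsAlgebraic K F := IsFractionRing.comap_isAlgebraic_iff (A := A).1 halg
  have : Module.Finite K F := Algebra.finite_of_essFiniteType_of_isAlgebraic
  have : CharZero K := charZero_of_injective_algebraMap (algebraMap ℂ K).injective
  have : Algebra.IsSeparable K F := inferInstance
  have : IsDedekindDomain (integralClosure A F) := integralClosure.isDedekindDomain A K F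
  have : IsFractionRing (integralClosure A F) F :=
    integralClosure.isFractionRing_of_finite_extension K F
  have hwA : w ∈ A := Algebra.self_mem_adjoin_singleton ℂ w
  let b0 : integralClosure A F := algebraMap A (integralClosure A F) ⟨w, hwA⟩
  have hb0 : algebraMap (integralClosure A F) F b0 = w := rfl
  have hw0 : w ≠ 0 := by
    rintro rfl
    exact hw isAlgebraic_zero
  have hb0n : b0 ≠ 0 := by
    intro h
    rw [h, map_zero] at hb0
    exact hw0 hb0.symm
  have hfin := Ideal.finite_factors (I := Ideal.span {b0})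
    (by rw [Ne, Ideal.zero_eq_bot, Ideal.span_singleton_eq_bot]; exact hb0n)
  refine (hfin.image (PLC_pt (F := F) (integralClosure A F))).subset ?_
  intro P hP
  have hP' : 0 < P.ord w := hP
  have hA : ∀ a : A, 0 ≤ P.ord (algebraMap A F a) := by
    intro a
    have h1 : (a : F) ∈ Algebra.adjoin ℂ {w} := a.2
    rw [Algebra.adjoin_singleton_eq_range_aeval] at h1
    obtain ⟨p, hp⟩ := h1
    have h2 : algebraMap A F a = aeval w p := hp.symm
    rw [h2]
    exact P.ord_aeval_nonneg hP'.le p
  have hB : ∀ b : integralClosure A F, 0 ≤ P.ord (algebraMap (integralClosure A F) F b) :=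
    fun b => fip_integral P hA b.2
  obtain ⟨v, hv⟩ := fip_pt P (integralClosure A F) hB
  refine ⟨v, ?_, hv⟩
  change v.asIdeal ∣ Ideal.span {b0}
  rw [Ideal.dvd_span_singleton]
  rw [← IsDedekindDomain.HeightOneSpectrum.valuation_lt_one_iff_mem (K := F)]
  change v.valuation F w < 1
  have h1 : (PLC_pt (F := F) (integralClosure A F) v).ord w = P.ord w := by rw [hv]
  have h2 : -WithZero.log (v.valuation F w) = P.ord w := h1
  have h3 : v.valuation F w ≠ 0 := (Valuation.ne_zero_iff _).2 hw0
  rw [← WithZero.log_lt_log h3 one_ne_zero, WithZero.log_one]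
  linarith

theorem fip (hF : IsFF F) (hg : IsGenus F g) (f : F) : ∃ B : Dv F, 0 ≤ B ∧ f ∈ LL B := by
  classical
  have hfin : {P : Pt F | P.ord f < 0}.Finite := by
    by_cases hemp : {P : Pt F | P.ord f < 0} = ∅
    · rw [hemp]; exact Set.finite_empty
    obtain ⟨P, hP⟩ := Set.nonempty_iff_ne_empty.2 hemp
    have hP' : P.ord f < 0 := hP
    have hinv : P.ord f⁻¹ ≠ 0 := by
      rw [P.ord_inv]
      omega
    refine (finite_zeros hF hg (P.transcendental hinv)).subset ?_
    intro Q hQ
    have hQ' : Q.ord f < 0 := hQ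
    change 0 < Q.ord f⁻¹
    rw [Q.ord_inv]
    linarith
  refine ⟨Finsupp.onFinset hfin.toFinset (fun P => max 0 (-(P.ord f))) ?_, ?_, ?_⟩
  · intro P hP
    rw [Set.Finite.mem_toFinset]
    change P.ord f < 0
    by_contra h
    push Not at h
    apply hP
    exact max_eq_left (by linarith)
  · intro P
    exact le_max_left _ _
  · intro _ P
    rw [Finsupp.onFinset_apply]
    have := le_max_right 0 (-(P.ord f))
    linarith

end

end Pool.H29.CB

end S_CB_Fip

section S_CB_VaA

/-!
# VAA: products of sections of a very ample divisor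

`va_prod`: as `VA.prod` in `BN/Core.lean` (same proof), recording that the function is a product of `n`
elements of `LL D`, so it lies in `(LL D) ^ n` (a power of submodules of the algebra `F`;
`Submodule.pow_mem_pow`, `Submodule.mul_mem_mul`, `pow_succ`).
`va_sup`: induct on `l`.  Step: let `f ∈ L(nD)`, `f = a + b`, `a ∈ (LL D)^n`, `b ∈ L(nD - lsum l)`;
take `s` from `va_prod` for the point `P` and the list `l`; `b / s` has `ord_P ≥ 0`, so by `Pt.residue` there is
`c` with `b - c s ∈ L(nD - lsum (P :: l))` (as in `BN/Lin.lean`, `step`).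
`va_step`: `E = div z + D` from `exists_div`, a list `l` of length `d` with `lsum l = E`
(`exists_list`), `va_sup` for `n + 1`: `f = a + b`, `b ∈ L((n+1) D - E)`, and `b / z ∈ L(n D)`.
-/

namespace Pool.H29.CB

open Polynomial Module Pool.H29.BN

noncomputable section

variable {F : Type} [Field F] [Algebra ℂ F] {g : ℕ}

theorem va_prod (hF : IsFF F) (hg : IsGenus F g) {D : Dv F} (h : VA D) (P : Pt F)
    (l : List (Pt F)) (n : ℕ) (hl : l.length ≤ n) :
    ∃ s ∈ (LL D) ^ n, s ∈ LL (n • D - lsum l) ∧ s ≠ 0 ∧ P.ord s = - (n • D - lsum l) P := by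
  induction l generalizing n with
  | nil =>
    obtain ⟨s, hs, hs0, hsP⟩ := h.exact0 hF hg P
    refine ⟨s ^ n, Submodule.pow_mem_pow _ hs n, ?_, pow_ne_zero _ hs0, ?_⟩
    · intro _ Q
      rw [lsum_nil, sub_zero, Q.ord_pow, Finsupp.smul_apply, nsmul_eq_mul]
      have := hs hs0 Q
      have hn : (0 : ℤ) ≤ n := by positivity
      nlinarith
    · rw [lsum_nil, sub_zero, P.ord_pow, Finsupp.smul_apply, nsmul_eq_mul, hsP]
      ring
  | cons Q l ih =>
    obtain ⟨m, rfl⟩ : ∃ m, n = m + 1 := ⟨n - 1, by simp at hl; omega⟩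
    obtain ⟨s, hsm, hs, hs0, hsP⟩ := ih m (by simpa using hl)
    obtain ⟨t, ht, ht0, htP⟩ := h.exact1 hF hg P Q
    have htD : t ∈ LL D :=
      LL_mono (sub_le_self _ (Finsupp.single_nonneg.mpr (by norm_num))) ht
    refine ⟨t * s, ?_, ?_, mul_ne_zero ht0 hs0, ?_⟩
    · rw [pow_succ']
      exact Submodule.mul_mem_mul htD hsm
    · intro _ R
      have h1 := hs hs0 R
      have h2 := ht ht0 R
      rw [R.ord_mul _ _ ht0 hs0, lsum_cons]
      simp only [Finsupp.sub_apply, Finsupp.add_apply, Finsupp.smul_apply, nsmul_eq_mul] at h1 h2 ⊢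
      push_cast
      linarith
    · rw [P.ord_mul _ _ ht0 hs0, lsum_cons, htP, hsP]
      simp only [Finsupp.sub_apply, Finsupp.add_apply, Finsupp.smul_apply, nsmul_eq_mul]
      push_cast
      ring

theorem va_sup (hF : IsFF F) (hg : IsGenus F g) {D : Dv F} (h : VA D) (n : ℕ)
    (l : List (Pt F)) (hl : l.length ≤ n + 1) :
    ∀ f ∈ LL (n • D), ∃ a ∈ (LL D) ^ n, ∃ b ∈ LL (n • D - lsum l), f = a + b := by
  intro f hf
  induction l with
  | nil => exact ⟨0, Submodule.zero_mem _, f, by rwa [lsum_nil, sub_zero], (zero_add f).symm⟩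
  | cons P l ih =>
    obtain ⟨a, ha, b, hb, hab⟩ := ih (by simp at hl; omega)
    obtain ⟨s, hsm, hs, hs0, hsP⟩ := va_prod hF hg h P l n (by simpa using hl)
    by_cases hb0 : b = 0
    · exact ⟨a, ha, 0, Submodule.zero_mem _, by rw [hab, hb0]⟩
    have h1 : 0 ≤ P.ord (b / s) := by
      rw [P.ord_div hb0 hs0, hsP]
      have := hb hb0 P
      linarith
    obtain ⟨c, hc⟩ := P.residue hF (b / s) h1
    refine ⟨a + c • s, Submodule.add_mem _ ha (Submodule.smul_mem _ _ hsm), b - c • s, ?_,
      by rw [hab]; ring⟩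
    have hmem : b - c • s ∈ LL (n • D - lsum l) :=
      Submodule.sub_mem _ hb (Submodule.smul_mem _ _ hs)
    intro h2 Q
    have hcons : (n • D - lsum (P :: l) : Dv F) Q
        = (n • D - lsum l : Dv F) Q - (Finsupp.single P (1 : ℤ) : Dv F) Q := by
      rw [lsum_cons]
      simp only [Finsupp.sub_apply, Finsupp.add_apply]
      ring
    rw [hcons]
    by_cases hQ : P = Q
    · subst hQ
      rw [Finsupp.single_eq_same]
      have h3 : b - c • s = s * (b / s - algebraMap ℂ F c) := by
        rw [Algebra.smul_def]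
        field_simp
      have h4 : b / s - algebraMap ℂ F c ≠ 0 := by
        intro h5
        rw [h3, h5, mul_zero] at h2
        exact h2 rfl
      rcases hc with hc | hc
      · exact absurd (sub_eq_zero.mpr hc) h4
      · rw [h3, P.ord_mul _ _ hs0 h4, hsP]
        linarith
    · rw [Finsupp.single_eq_of_ne (Ne.symm hQ), sub_zero]
      exact hmem h2 Q

theorem va_step (hF : IsFF F) (hg : IsGenus F g) (P0 : Pt F) {D : Dv F} (h : VA D) {d : ℕ}
    (hd : deg D = d) (n : ℕ) (hn : d ≤ n + 2) {z : F} (hz : z ∈ LL D) (hz0 : z ≠ 0) :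
    ∀ f ∈ LL ((n + 1) • D), ∃ a ∈ (LL D) ^ (n + 1), ∃ b ∈ LL (n • D), f = a + z * b := by
  intro f hf
  obtain ⟨E, hE0, hE, hdE⟩ := exists_div hg P0 hz hz0
  obtain ⟨l, hl⟩ := exists_list hE0
  have hlen : l.length = d := by
    have h1 := deg_lsum l
    rw [hl, hdE, hd] at h1
    exact_mod_cast h1.symm
  obtain ⟨a, ha, b, hb, hab⟩ := va_sup hF hg h (n + 1) l (by omega) f hf
  refine ⟨a, ha, b / z, ?_, by rw [hab]; field_simp⟩
  intro hbz P
  have hb0 : b ≠ 0 := by
    intro h0
    rw [h0, zero_div] at hbz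
    exact hbz rfl
  have h1 := hb hb0 P
  rw [P.ord_div hb0 hz0, hE P]
  rw [hl] at h1
  simp only [Finsupp.sub_apply, Finsupp.smul_apply, nsmul_eq_mul] at h1 ⊢
  push_cast at h1 ⊢
  linarith

end

end Pool.H29.CB

end S_CB_VaA

section S_CB_VaB

/-!
# VAB: a very ample divisor is birational

`S n = (LL D) ^ n ≤ L n = LL (n • D)`.  `ell D ≥ 2` (`VA` for `P0, P0`), so there are `z1, z2 ∈ LL D` as in
`stb` (a two-dimensional space is not spanned by `z1`).  By `va_step` and `stb` there is `n1` with
`(LL D) ^ n = LL (n • D)` for all `n ≥ n1`.  Let `f ∈ F`; by `fip`, `f ∈ LL B`, `B ≥ 0`.  For `n ≥ n1` large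
`ell (n • D - B) > 0` (`hg.1`, `deg D ≥ 1`); take `s ≠ 0` in it: `s ∈ LL (n • D)`, `f s ∈ LL (n • D)`, so
both lie in `(LL D) ^ n`.  Fix `s0 ∈ LL D` nonzero: for `a ∈ (LL D) ^ n`, `a / s0 ^ n ∈ RF D`
(`Submodule.pow_induction_on_left` or `Submodule.mul_induction_on`: sums of products of `n` ratios), so
`f = (f s / s0^n) / (s / s0^n) ∈ RF D`.
-/

namespace Pool.H29.CB

open Polynomial Module Pool.H29.BN

noncomputable section

variable {F : Type} [Field F] [Algebra ℂ F] {g : ℕ}

theorem vab_mul {A B : Dv F} {a b : F} (ha : a ∈ LL A) (hb : b ∈ LL B) : a * b ∈ LL (A + B) := by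
  intro hab P
  have h1 : a ≠ 0 := left_ne_zero_of_mul hab
  have h2 : b ≠ 0 := right_ne_zero_of_mul hab
  rw [P.ord_mul _ _ h1 h2, Finsupp.add_apply]
  have h3 := ha h1 P
  have h4 := hb h2 P
  linarith

theorem vab_one : (1 : F) ∈ LL (0 : Dv F) := by
  intro _ P
  have h := P.ord_const 1 one_ne_zero
  rw [map_one] at h
  rw [h]
  simp

theorem vab_pow_le (D : Dv F) (n : ℕ) : (LL D) ^ n ≤ LL (n • D) := by
  induction n with
  | zero =>
    rw [pow_zero, zero_smul, Submodule.one_le]
    exact vab_one
  | succ n ih =>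
    rw [pow_succ, succ_nsmul, Submodule.mul_le]
    intro a ha b hb
    exact vab_mul (ih ha) hb

theorem vab_ratio (D : Dv F) {s0 : F} (hs : s0 ∈ LL D) (hs0 : s0 ≠ 0) (n : ℕ) :
    ∀ a ∈ (LL D) ^ n, a / s0 ^ n ∈ RF D := by
  induction n with
  | zero =>
    intro a ha
    rw [pow_zero] at ha
    obtain ⟨c, rfl⟩ := Submodule.mem_one.mp ha
    rw [pow_zero, div_one]
    exact (RF D).algebraMap_mem c
  | succ n ih =>
    intro a ha
    rw [pow_succ] at ha
    refine Submodule.mul_induction_on ha ?_ ?_
    · intro x hx y hy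
      have h1 : x * y / s0 ^ (n + 1) = x / s0 ^ n * (y / s0) := by
        rw [pow_succ]
        field_simp
      rw [h1]
      exact mul_mem (ih x hx) (IntermediateField.subset_adjoin _ _ ⟨y, hy, s0, hs, hs0, rfl⟩)
    · intro x y hx hy
      rw [add_div]
      exact add_mem hx hy

theorem va_bir (hF : IsFF F) (hg : IsGenus F g) (P0 : Pt F) {D : Dv F} (h : VA D)
    (hd : 1 ≤ deg D) : RF D = ⊤ := by
  classical
  obtain ⟨d, hd'⟩ : ∃ d : ℕ, deg D = d := ⟨(deg D).toNat, by omega⟩
  obtain ⟨z1, hz1, hz10, -⟩ := h.exact0 hF hg P0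
  have hell : 2 ≤ ell D := by
    have := h P0 P0
    omega
  have hfinD := fin_of_genus hg P0 D
  obtain ⟨z2, hz2, hind⟩ : ∃ z2 ∈ LL D, ∀ c : ℂ, z2 - c • z1 ≠ 0 := by
    by_contra hcon
    push Not at hcon
    have hle : LL D ≤ Submodule.span ℂ {z1} := by
      intro z hz
      obtain ⟨c, hc⟩ := hcon z hz
      rw [Submodule.mem_span_singleton]
      exact ⟨c, (sub_eq_zero.mp hc).symm⟩
    have h1 : finrank ℂ (LL D) ≤ finrank ℂ (Submodule.span ℂ {z1}) :=
      Submodule.finrank_mono hle
    rw [finrank_span_singleton hz10] at h1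
    unfold ell at hell
    omega
  obtain ⟨n1, hn1⟩ := stb (fun n => (LL D) ^ n) (fun n => LL (n • D)) (LL D)
    (fun n => fin_of_genus hg P0 (n • D)) (fun n => vab_pow_le D n)
    (fun n z hz s hs => by
      show z * s ∈ (LL D) ^ (n + 1)
      rw [pow_succ']
      exact Submodule.mul_mem_mul hz hs)
    (fun n z hz s hs => by
      show z * s ∈ LL ((n + 1) • D)
      rw [succ_nsmul']
      exact vab_mul hz hs) d
    (fun n hn z hz hz0 f hf => va_step hF hg P0 h hd' n (by omega) hz hz0 f hf)
    hz1 hz2 hz10 hind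
  rw [eq_top_iff]
  intro f _
  obtain ⟨B, hB, hfB⟩ := fip hF hg f
  obtain ⟨n, hn, hnB⟩ : ∃ n : ℕ, n1 ≤ n ∧ deg B + g ≤ n := by
    refine ⟨max n1 (deg B + g).toNat, le_max_left _ _, ?_⟩
    have h1 : (deg B + g).toNat ≤ max n1 (deg B + g).toNat := le_max_right _ _
    omega
  have hdeg : deg (n • D) = n * deg D := by
    clear hn hnB
    induction n with
    | zero => simp [deg]
    | succ n ih =>
      rw [succ_nsmul, deg_add, ih]
      push_cast
      ring
  have hpos : 0 < ell (n • D - B) := by
    have h1 := hg.1 (n • D - B)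
    rw [deg_sub, hdeg] at h1
    have h2 : (n : ℤ) ≤ n * deg D := by nlinarith [(Int.natCast_nonneg n)]
    have h3 : (0 : ℤ) < ell (n • D - B) := by linarith
    exact_mod_cast h3
  obtain ⟨s, hs, hs0⟩ : ∃ s ∈ LL (n • D - B), s ≠ 0 := by
    have h1 : Nontrivial (LL (n • D - B)) := nontrivial_of_finrank_pos hpos
    obtain ⟨x, hx⟩ := exists_ne (0 : LL (n • D - B))
    exact ⟨x, x.2, fun h0 => hx (Subtype.ext h0)⟩
  have hs1 : s ∈ LL (n • D) := by
    refine LL_mono ?_ hs
    exact sub_le_self _ hB
  have hs2 : f * s ∈ LL (n • D) := by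
    have h1 := vab_mul hfB hs
    rwa [add_sub_cancel] at h1
  have h3 : (LL D) ^ n = LL (n • D) := hn1 n hn
  rw [← h3] at hs1 hs2
  have h4 := vab_ratio D hz1 hz10 n _ hs1
  have h5 := vab_ratio D hz1 hz10 n _ hs2
  have h6 : f = (f * s / z1 ^ n) / (s / z1 ^ n) := by
    field_simp
  rw [h6]
  exact div_mem h5 h4

end

end Pool.H29.CB

end S_CB_VaB

section S_CB_Bir

/-!
# BIR: a birational linear series of degree `d` and dimension `r` forces `g ≤ π(d,r)`

`castel_mono`: termwise, and more (nonnegative) terms in the sum for larger `d`.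
`bir`: `eff` gives `D`, `exa` gives `y` (transcendental as `deg D ≥ 1` gives a point with `D P > 0`,
`Pt.transcendental`), `pre` with `V = LL D` (finite dimensional by `fin_of_genus`) gives `x`, `castelnuovo` gives
`g ≤ castel (deg D) r`, and `castel_mono`.
-/

namespace Pool.H29.CB

open Polynomial Module Pool.H29.BN

noncomputable section

variable {F : Type} [Field F] [Algebra ℂ F] {g : ℕ}

theorem castel_mono {d d' : ℕ} (h : d ≤ d') (r : ℕ) : castel d r ≤ castel d' r := by
  unfold castel
  calc ∑ k ∈ Finset.Icc 1 d, (d - k * (r - 1) - 1)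
      ≤ ∑ k ∈ Finset.Icc 1 d, (d' - k * (r - 1) - 1) :=
        Finset.sum_le_sum fun k _ => by omega
    _ ≤ ∑ k ∈ Finset.Icc 1 d', (d' - k * (r - 1) - 1) :=
        Finset.sum_le_sum_of_subset (Finset.Icc_subset_Icc le_rfl h)

theorem bir (hF : IsFF F) (hg : IsGenus F g) (P0 : Pt F) (D' : Dv F) {d r : ℕ}
    (hd : deg D' = d) (hr2 : 2 ≤ r) (hr : r + 1 ≤ ell D') (hRF : RF D' = ⊤) :
    g ≤ castel d r := by
  obtain ⟨D, hD0, hle, h1, hell, hb, hadj⟩ := eff hF hg P0 D' (by omega)
  obtain ⟨y, hyD, hy0, hex⟩ := exa hD0 hb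
  obtain ⟨P, hP⟩ : ∃ P : Pt F, 0 < D P := by
    by_contra hcon
    push Not at hcon
    have hz : D = 0 := by
      ext P
      exact le_antisymm (hcon P) (hD0 P)
    rw [hz] at h1
    have h0 : deg (0 : Dv F) = 0 := by simp [deg]
    rw [h0] at h1
    norm_num at h1
  have hyt : Transcendental ℂ y := P.transcendental (by rw [hex P hP]; omega)
  have hfin : FiniteDimensional ℂ (LL D) := fin_of_genus hg P0 D
  obtain ⟨x, hxD, hx, hgen⟩ := pre hF (LL D) y hyD hyt (by rw [hadj, hRF])
  obtain ⟨e, he⟩ : ∃ e : ℕ, deg D = e := ⟨(deg D).toNat, by omega⟩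
  have h2 := castelnuovo hF hg P0 hD0 he (by omega) hr2 (by omega) hxD hyD hex hx hgen
  exact h2.trans (castel_mono (by omega) r)

end

end Pool.H29.CB

end S_CB_Bir

section S_CB_Fin

/-!
# FIN: containment in the range `g > π(d,r)`

`peel2`: `D` is not very ample by `va_bir`.  `RF_mono`: `LL (D - P - Q) ≤ LL D`.
`peel_many2`: induct on `j` (compare `peel_many` in `BN/Core.lean`), keeping `RF D ≠ ⊤`.
`contain2`: `D` with `deg D = d`, `ell D ≥ r + 1`.  By `bir`, `RF D ≠ ⊤`; `peel_many2` with `j = r - 2`.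
A point exists: otherwise `D = 0` (see `contain`).
`castel_ge`: the terms `k = 1, 2` of the sum.
-/

namespace Pool.H29.CB

open Polynomial Module Pool.H29.BN

noncomputable section

variable {F : Type} [Field F] [Algebra ℂ F] {g : ℕ}

theorem RF_mono {A B : Dv F} (h : LL A ≤ LL B) : RF A ≤ RF B := by
  unfold RF
  apply IntermediateField.adjoin.mono
  rintro w ⟨a, ha, b, hb, hb0, hw⟩
  exact ⟨a, h ha, b, h hb, hb0, hw⟩

theorem peel2 (hF : IsFF F) (hg : IsGenus F g) (P0 : Pt F) (D : Dv F) (hd : 1 ≤ deg D)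
    (hRF : RF D ≠ ⊤) :
    ∃ P Q : Pt F, ell D ≤ ell (D - Finsupp.single P 1 - Finsupp.single Q 1) + 1 := by
  by_contra hcon
  push Not at hcon
  have hVA : VA D := fun P Q => by have := hcon P Q; omega
  exact hRF (va_bir hF hg P0 hVA hd)

theorem peel_many2 (hF : IsFF F) (hg : IsGenus F g) (P0 : Pt F) (j : ℕ) :
    ∀ (d : ℕ) (D : Dv F), 1 ≤ d → deg D = ((d + 2 * j : ℕ) : ℤ) → 3 + j ≤ ell D → RF D ≠ ⊤ →
      ∃ D' : Dv F, deg D' = d ∧ 3 ≤ ell D' := by
  induction j with
  | zero =>
    intro d D _ hD hell _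
    exact ⟨D, by simpa using hD, by simpa using hell⟩
  | succ j ih =>
    intro d D hd hD hell hRF
    obtain ⟨P, Q, hPQ⟩ := peel2 hF hg P0 D (by omega) hRF
    refine ih d (D - Finsupp.single P 1 - Finsupp.single Q 1) hd ?_ (by omega) ?_
    · rw [deg_sub, deg_sub, deg_single, deg_single, hD]
      push_cast
      ring
    · intro htop
      apply hRF
      rw [eq_top_iff, ← htop]
      apply RF_mono
      apply LL_mono
      have h1 : 0 ≤ Finsupp.single P (1 : ℤ) := Finsupp.single_nonneg.mpr (by norm_num)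
      have h2 : 0 ≤ Finsupp.single Q (1 : ℤ) := Finsupp.single_nonneg.mpr (by norm_num)
      intro R
      have h3 := h1 R
      have h4 := h2 R
      simp only [Finsupp.sub_apply, Finsupp.coe_zero, Pi.zero_apply] at h3 h4 ⊢
      linarith

theorem contain2 (hF : IsFF F) (hg : IsGenus F g) {r d : ℕ} (hr : 3 ≤ r) (hrd : 2 * r ≤ d)
    (hgd : castel d r < g) (h : HasGrd F r d) : HasGrd F 2 (d - 2 * r + 4) := by
  obtain ⟨D, hD, hell⟩ := h
  obtain ⟨P0⟩ : Nonempty (Pt F) := by
    by_contra hne
    rw [not_nonempty_iff] at hne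
    have : D = 0 := Subsingleton.elim _ _
    rw [this] at hD
    have h0 : deg (0 : Dv F) = 0 := by simp [deg]
    rw [h0] at hD
    omega
  have hRF : RF D ≠ ⊤ := by
    intro htop
    have := bir hF hg P0 D hD (by omega) hell htop
    omega
  obtain ⟨D', hD', hell'⟩ := peel_many2 hF hg P0 (r - 2) (d - 2 * r + 4) D (by omega)
    (by rw [hD]; congr 1; omega) (by omega) hRF
  exact ⟨D', hD', hell'⟩

theorem castel_ge {r d : ℕ} (hr : 3 ≤ r) (hrd : 2 * r ≤ d) :
    (d - (r - 1) - 1) + (d - 2 * (r - 1) - 1) ≤ castel d r := by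
  unfold castel
  have h1 : ({1, 2} : Finset ℕ) ⊆ Finset.Icc 1 d := by
    intro k hk
    simp only [Finset.mem_insert, Finset.mem_singleton] at hk
    rw [Finset.mem_Icc]
    omega
  calc (d - (r - 1) - 1) + (d - 2 * (r - 1) - 1)
      = ∑ k ∈ ({1, 2} : Finset ℕ), (d - k * (r - 1) - 1) := by
        rw [Finset.sum_pair (by norm_num), one_mul]
    _ ≤ ∑ k ∈ Finset.Icc 1 d, (d - k * (r - 1) - 1) :=
        Finset.sum_le_sum_of_subset h1

end

end Pool.H29.CB

end S_CB_Fin
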